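import Pool.Agent.P.MP_f1060b_co.Struct

namespace Pool.Agent.StackSort

section
variable {n w : ℕ} {l : List ℕ}

lemma LL_succ (h : l.Perm (List.range' 1 n)) (hw : w ∈ l) (j : ℕ) :
    LL w (stackSort^[j + 1] l) = outp [] (LL w (stackSort^[j] l)) := by
  rw [Function.iterate_succ_apply', LL_stackSort
    (((iter_perm l j).trans h).nodup_iff.2 List.nodup_range') ((iter_perm l j).symm.subset hw)]

lemma LL_step (h : l.Perm (List.range' 1 n)) (hw : w ∈ l) (j : ℕ) :
    (LL w (stackSort^[j + 1] l)).length + (stk [] (LL w (stackSort^[j] l))).length =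
      (LL w (stackSort^[j] l)).length := by
  rw [LL_succ h hw, length_outp]

lemma sig_anti (h : l.Perm (List.range' 1 n)) (hw : w ∈ l) :
    Antitone fun j => (stk [] (LL w (stackSort^[j] l))).length := by
  refine antitone_nat_of_succ_le fun j => ?_
  simp only [LL_succ h hw]
  exact stk_outp_le (LL_nodup (((iter_perm l j).trans h).nodup_iff.2 List.nodup_range'))

lemma LL_id (hw : w ∈ List.range' 1 n) : LL w (List.range' 1 n) = [] := by
  obtain ⟨a, b, e⟩ := List.append_of_mem hw
  have hp : (a ++ w :: b).Pairwise (· < ·) := e ▸ List.pairwise_lt_range'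
  have hlt : ∀ x ∈ a, x < w := fun x hx => (List.pairwise_append.1 hp).2.2 x hx w (by simp)
  rw [e, LL_split b fun hh => lt_irrefl _ (hlt w hh), List.filter_eq_nil_iff]
  intro x hx
  simpa using hlt x hx

lemma LL_zero (h : l.Perm (List.range' 1 n)) (hw : w ∈ l) : (LL w l).length + 1 ≤ n := by
  obtain ⟨a, b, rfl⟩ := List.append_of_mem hw
  have hn := List.nodup_middle.1 (h.nodup_iff.2 List.nodup_range')
  have hwa : w ∉ a := fun h => (List.nodup_cons.1 hn).1 (List.mem_append_left _ h)
  rw [LL_split b hwa]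
  have := h.length_eq
  have := List.length_filter_le (fun x => decide (w ≤ x)) a
  simp at *
  omega

end

lemma seq_head {L s : ℕ → ℕ} (h : ∀ j, L (j + 1) + s j = L j) (c j : ℕ) (hc : ∀ i < j, c ≤ s i) :
    L j + j * c ≤ L 0 := by
  induction j with
  | zero => simp
  | succ j ih =>
    have := ih fun i hi => hc i (by omega)
    have := hc j (by omega)
    have := h j
    nlinarith

lemma seq_tail {L s : ℕ → ℕ} (h : ∀ j, L (j + 1) + s j = L j) (c j m : ℕ) (hc : ∀ i, j ≤ i → s i ≤ c) :
    L j ≤ L (j + m) + m * c := by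
  induction m with
  | zero => simp
  | succ m ih =>
    have := hc (j + m) (by omega)
    have := h (j + m)
    rw [← add_assoc]
    nlinarith

lemma LL_bound {n w : ℕ} {l : List ℕ} (h : l.Perm (List.range' 1 n)) (hw : w ∈ l) (q j : ℕ)
    (hj : j ≤ passes n l) : (LL w (stackSort^[j] l)).length ≤ (passes n l - j) * q ∨
      (LL w (stackSort^[j] l)).length + j * (q + 1) ≤ (LL w l).length := by
  by_cases hq : (stk [] (LL w (stackSort^[j] l))).length ≤ q
  · left
    have := seq_tail (L := fun j => (LL w (stackSort^[j] l)).length) (LL_step h hw) q j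
      (passes n l - j) fun i hi => (sig_anti h hw hi).trans hq
    simp only [show j + (passes n l - j) = passes n l by omega, (passes_spec h).1,
      LL_id (h.subset hw)] at this
    simpa using this
  · right
    exact seq_head (L := fun j => (LL w (stackSort^[j] l)).length) (LL_step h hw) (q + 1) j
      fun i hi => (Nat.succ_le_of_lt (not_le.1 hq)).trans (sig_anti h hw hi.le)

lemma vol_le_prod {n : ℕ} {l : List ℕ} (h : l.Perm (List.range' 1 n)) (b : ℕ → ℝ)
    (hb : ∀ w ∈ l, ∀ j < passes n l,
      ((LL w (stackSort^[j] l)).length : ℝ) ≤ b j * (passes n l - j : ℕ)) :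
    vol n l ≤ ∏ j ∈ Finset.range (passes n l), b j := by
  obtain ⟨w, hw, hv⟩ := vol_le_LL h
  refine hv.trans (Finset.prod_le_prod (fun _ _ => by positivity) fun j hj => ?_)
  have hj := Finset.mem_range.1 hj
  rw [div_le_iff₀ (Nat.cast_pos.2 (by omega))]
  exact hb _ (hw j hj) j hj

lemma cube_le (m : ℕ) : m ^ 3 ≤ 3 ^ m := by
  rcases Nat.lt_or_ge m 3 with h | h
  · interval_cases m <;> norm_num
  · induction m, h using Nat.le_induction with
    | base => norm_num
    | succ m hm ih => rw [pow_succ 3 m]; nlinarith [Nat.zero_le m, mul_le_mul hm hm (by omega) (by omega : 0 ≤ m)]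

lemma vol_le_three {n : ℕ} {l : List ℕ} (h : l.Perm (List.range' 1 n)) (B : ℕ)
    (hB : ∀ w ∈ l, (LL w l).length ≤ B) : vol n l ≤ (3 : ℝ) ^ ((B : ℝ) / 3) := by
  set k := passes n l with hk
  let m : ℕ → ℕ := fun j => B / k + if j < B % k then 1 else 0
  have h1 : vol n l ≤ ∏ j ∈ Finset.range k, (m j : ℝ) := by
    refine vol_le_prod h _ fun w hw j hj => ?_
    rw [← hk] at hj ⊢
    have e := Nat.div_add_mod B k
    have e2 := Nat.mod_lt B (by omega : 0 < k)
    have e3 := hB w hw
    obtain ⟨c, hc⟩ : ∃ c, k = j + c := ⟨k - j, by omega⟩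
    have e4 := LL_bound h hw (B / k) j hj.le
    rw [← hk] at e4
    norm_cast
    simp only [m]
    generalize B / k = q at *
    generalize B % k = r at *
    rw [show k - j = c by omega] at *
    rw [hc] at e e2
    split_ifs <;> rcases e4 with e4 | e4 <;> nlinarith
  have h2 : ∑ j ∈ Finset.range k, m j ≤ B := by
    simp only [m, Finset.sum_add_distrib, Finset.sum_const, Finset.card_range, smul_eq_mul,
      Finset.sum_boole]
    have : ((Finset.range k).filter (· < B % k)).card ≤ B % k := by
      conv_rhs => rw [← Finset.card_range (B % k)]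
      exact Finset.card_le_card fun x hx => by simpa using (Finset.mem_filter.1 hx).2
    have e := Nat.div_add_mod B k
    simp only [Nat.cast_id]
    omega
  have h3 : (∏ j ∈ Finset.range k, m j) ^ 3 ≤ 3 ^ B := by
    rw [← Finset.prod_pow]
    refine (Finset.prod_le_prod' fun j _ => cube_le (m j)).trans ?_
    rw [Finset.prod_pow_eq_pow_sum]
    exact Nat.pow_le_pow_right (by norm_num) h2
  refine h1.trans ?_
  rw [← Nat.cast_prod, ← pow_le_pow_iff_left₀ (by positivity) (by positivity) three_ne_zero,
    ← Real.rpow_natCast ((3 : ℝ) ^ _), ← Real.rpow_mul (by norm_num)]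
  rw [show (B : ℝ) / 3 * (3 : ℕ) = B by push_cast; ring, Real.rpow_natCast]
  exact_mod_cast h3

lemma vol_le_one {n : ℕ} {l : List ℕ} (h : l.Perm (List.range' 1 n))
    (hB : ∀ w ∈ l, (LL w l).length ≤ passes n l) : vol n l ≤ 1 := by
  refine (vol_le_prod h (fun _ => 1) fun w hw j hj => ?_).trans (by simp)
  rw [one_mul]
  norm_cast
  have := hB w hw
  rcases LL_bound h hw 0 j hj.le with e | e <;> omega

end Pool.Agent.StackSort
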