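import Pool.Agent.P.MP_f1060b_co.Defs

namespace Pool.Agent.StackSort

/-- What is written before the final flush. -/
def outp : List ℕ → List ℕ → List ℕ
  | _, [] => []
  | st, x :: xs => st.takeWhile (· < x) ++ outp (x :: st.dropWhile (· < x)) xs

theorem outp_realize : True := by have := @outp.eq_def; trivial

/-- The stack before the final flush. -/
def stk : List ℕ → List ℕ → List ℕ
  | st, [] => st
  | st, x :: xs => stk (x :: st.dropWhile (· < x)) xs

theorem stk_realize : True := by have := @stk.eq_def; trivial

lemma pass_append (xs ys : List ℕ) : ∀ st, pass st (xs ++ ys) = outp st xs ++ pass (stk st xs) ys := by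
  induction xs with
  | nil => intro st; simp [outp, stk]
  | cons x xs ih => intro st; simp [pass, outp, stk, ih]

lemma pass_eq (st xs : List ℕ) : pass st xs = outp st xs ++ stk st xs := by
  have := pass_append xs [] st
  simpa [pass] using this

lemma stk_append (xs ys : List ℕ) : ∀ st, stk st (xs ++ ys) = stk (stk st xs) ys := by
  induction xs with
  | nil => intro st; simp [stk]
  | cons x xs ih => intro st; simp [stk, ih]

lemma pass_perm (xs : List ℕ) : ∀ st, (pass st xs).Perm (st ++ xs) := by
  induction xs with
  | nil => intro st; simp [pass]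
  | cons x xs ih =>
    intro st
    rw [pass]
    refine ((ih _).append_left _).trans ?_
    conv_rhs => rw [← List.takeWhile_append_dropWhile (p := (· < x)) (l := st)]
    rw [List.append_assoc]
    exact (List.perm_middle.symm).append_left _

lemma stackSort_perm (l : List ℕ) : (stackSort l).Perm l := by
  simpa [stackSort] using pass_perm l []

lemma iter_perm (l : List ℕ) (j : ℕ) : (stackSort^[j] l).Perm l := by
  induction j with
  | zero => simp
  | succ j ih => rw [Function.iterate_succ_apply']; exact (stackSort_perm _).trans ih

lemma take_eq {st : List ℕ} (h : st.Pairwise (· ≤ ·)) (x : ℕ) :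
    st.takeWhile (· < x) = st.filter (· < x) ∧ st.dropWhile (· < x) = st.filter (x ≤ ·) := by
  induction st with
  | nil => simp
  | cons y st ih =>
    rw [List.pairwise_cons] at h
    obtain ⟨h1, h2⟩ := ih h.2
    by_cases hy : y < x
    · simp [List.takeWhile_cons, List.dropWhile_cons, List.filter_cons, hy, h1, h2, not_le.2 hy]
    · have hx : x ≤ y := not_lt.1 hy
      simp only [List.takeWhile_cons, List.dropWhile_cons, List.filter_cons, hy, hx, decide_false,
        decide_true, if_true, Bool.false_eq_true, if_false]
      refine ⟨(List.filter_eq_nil_iff.2 fun z hz => ?_).symm, ?_⟩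
      · have := h.1 z hz; simp; omega
      · rw [List.filter_eq_self.2 fun z hz => ?_]
        have := h.1 z hz; simp; omega

lemma push_sorted {st : List ℕ} (h : st.Pairwise (· ≤ ·)) (x : ℕ) :
    (x :: st.dropWhile (· < x)).Pairwise (· ≤ ·) := by
  rw [(take_eq h x).2, List.pairwise_cons]
  exact ⟨fun z hz => by simpa using (List.mem_filter.1 hz).2, h.filter _⟩

lemma stk_sorted (xs : List ℕ) : ∀ st : List ℕ, st.Pairwise (· ≤ ·) → (stk st xs).Pairwise (· ≤ ·) := by
  induction xs with
  | nil => intro st h; exact h
  | cons x xs ih => intro st h; exact ih _ (push_sorted h x)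

lemma filter_pass (w : ℕ) (xs : List ℕ) : ∀ st : List ℕ, st.Pairwise (· ≤ ·) →
    (pass st xs).filter (w ≤ ·) = pass (st.filter (w ≤ ·)) (xs.filter (w ≤ ·)) := by
  induction xs with
  | nil => intro st _; simp [pass]
  | cons x xs ih =>
    intro st h
    rw [pass, List.filter_append, ih _ (push_sorted h x), (take_eq h x).1, (take_eq h x).2]
    by_cases hx : w ≤ x
    · rw [List.filter_cons_of_pos (by simpa using hx), List.filter_cons_of_pos (by simpa using hx),
        pass, (take_eq (h.filter _) x).1, (take_eq (h.filter _) x).2]
      simp only [List.filter_filter, Bool.and_comm]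
    · rw [List.filter_cons_of_neg (by simpa using hx), List.filter_cons_of_neg (by simpa using hx)]
      simp only [List.filter_filter]
      rw [List.filter_eq_nil_iff.2 fun z _ => by simp; omega, List.nil_append]
      congr 1
      exact List.filter_congr fun z _ => by
        by_cases hz : w ≤ z
        · have : x ≤ z := by omega
          simp [hz, this]
        · simp [hz]

/-- Reading an increasing run leaves its last letter on top of the larger old letters. -/
lemma stk_run (r : List ℕ) : ∀ (y : ℕ) (st : List ℕ), (r ++ [y]).Pairwise (· < ·) →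
    st.Pairwise (· ≤ ·) → stk st (r ++ [y]) = y :: st.filter (y ≤ ·) := by
  induction r with
  | nil => intro y st _ h; simp [stk, (take_eq h y).2]
  | cons z r ih =>
    intro y st hr h
    rw [List.cons_append, List.pairwise_cons] at hr
    have hz : z < y := hr.1 y (by simp)
    rw [List.cons_append, stk, ih y _ hr.2 (push_sorted h z), (take_eq h z).2,
      List.filter_cons_of_neg (by simpa using hz), List.filter_filter]
    congr 1
    exact List.filter_congr fun a _ => by
      by_cases ha : y ≤ a
      · have : z ≤ a := by omega
        simp [ha, this]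
      · simp [ha]

lemma two_machines (xs : List ℕ) : ∀ s1 s2 : List ℕ, s1.Pairwise (· ≤ ·) → (s1 ++ xs).Nodup →
    s2.Pairwise (· ≤ ·) → (∀ v, s2.countP (v ≤ ·) ≤ s1.countP (v < ·)) →
    ∀ v, (stk s2 (outp s1 xs)).countP (v ≤ ·) ≤ (stk s1 xs).countP (v < ·) := by
  induction xs with
  | nil => intro s1 s2 _ _ _ h; simpa [outp, stk] using h
  | cons x xs ih =>
    intro s1 s2 h1 hn h2 h
    rw [outp, stk, stk_append]
    have hn' : ((x :: s1.dropWhile (· < x)) ++ xs).Nodup := by
      have := (List.perm_middle.nodup_iff).1 hn
      exact this.sublist (List.Sublist.cons_cons _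
        ((List.dropWhile_sublist _).append_right _))
    refine ih _ _ (push_sorted h1 x) hn' (stk_sorted _ _ h2) fun v => ?_
    have hs1 : s1.Pairwise (· < ·) :=
      (h1.and (List.nodup_append.1 hn).1).imp fun h => lt_of_le_of_ne h.1 h.2
    rcases List.eq_nil_or_concat' (s1.takeWhile (· < x)) with h0 | ⟨r, y, h0⟩
    · have : s1.dropWhile (· < x) = s1 := by
        have := List.takeWhile_append_dropWhile (p := (· < x)) (l := s1)
        rwa [h0, List.nil_append] at this
      rw [h0, this, stk, List.countP_cons]
      exact (h v).trans (Nat.le_add_right _ _)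
    · have hp : (r ++ [y]).Pairwise (· < ·) := h0 ▸ hs1.sublist (List.takeWhile_sublist _)
      have hy : y < x := by
        have : y ∈ s1.takeWhile (· < x) := by rw [h0]; simp
        simpa using List.mem_takeWhile_imp this
      have hsplit : s1 = (r ++ [y]) ++ s1.dropWhile (· < x) := by
        rw [← h0, List.takeWhile_append_dropWhile]
      have hz : ∀ u, y ≤ u → s1.countP (u < ·) = (s1.dropWhile (· < x)).countP (u < ·) := by
        intro u hu
        conv_lhs => rw [hsplit]
        rw [List.countP_append, List.countP_eq_zero.2, zero_add]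
        intro a ha
        rcases List.mem_append.1 ha with ha | ha
        · have := (List.pairwise_append.1 hp).2.2 a ha y (by simp)
          simp; omega
        · simp at ha ⊢; omega
      rw [h0, stk_run r y s2 hp h2, List.countP_cons, List.countP_cons, List.countP_filter]
      by_cases hv : v ≤ y
      · have e1 : s2.countP (fun a => decide (v ≤ a) && decide (y ≤ a)) ≤ s2.countP (y ≤ ·) :=
          List.countP_mono_left fun a _ ha => by simp at ha ⊢; omega
        have e2 : (s1.dropWhile (· < x)).countP (y < ·) ≤ (s1.dropWhile (· < x)).countP (v < ·) :=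
          List.countP_mono_left fun a _ ha => by simp at ha ⊢; omega
        have e3 := h y
        rw [hz y le_rfl] at e3
        have : v < x := by omega
        simp only [hv, this, decide_true, if_true]
        omega
      · have e1 : s2.countP (fun a => decide (v ≤ a) && decide (y ≤ a)) ≤ s2.countP (v ≤ ·) :=
          List.countP_mono_left fun a _ ha => by simp at ha ⊢; omega
        have e3 := h v
        rw [hz v (by omega)] at e3
        simp only [hv, decide_false, Bool.false_eq_true, if_false]
        omega

lemma stk_outp_le {a : List ℕ} (ha : a.Nodup) : (stk [] (outp [] a)).length ≤ (stk [] a).length := by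
  have := two_machines a [] [] List.Pairwise.nil (by simpa using ha) List.Pairwise.nil (by simp) 0
  simp only [Nat.zero_le, decide_true, List.countP_true] at this
  exact this.trans List.countP_le_length

lemma stk_ne_nil (xs : List ℕ) : ∀ st, st ≠ [] ∨ xs ≠ [] → stk st xs ≠ [] := by
  induction xs with
  | nil => intro st h; simpa [stk] using h
  | cons x xs ih => intro st _; exact ih _ (Or.inl (by simp))

lemma length_outp (a : List ℕ) : (outp [] a).length + (stk [] a).length = a.length := by
  have := (pass_perm a []).length_eq
  rw [pass_eq] at this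
  simpa using this

/-- The letters larger than `w` that stand to the left of `w`. -/
def LL (w : ℕ) (l : List ℕ) : List ℕ := (l.filter (w ≤ ·)).takeWhile (· ≠ w)

lemma takeWhile_ne {w : ℕ} {a : List ℕ} (b : List ℕ) (ha : w ∉ a) :
    (a ++ w :: b).takeWhile (· ≠ w) = a := by
  rw [List.takeWhile_append_of_pos]
  · simp
  · intro x hx
    have : x ≠ w := fun h => ha (h ▸ hx)
    simpa using this

lemma LL_split {w : ℕ} {a : List ℕ} (b : List ℕ) (ha : w ∉ a) :
    LL w (a ++ w :: b) = a.filter (w ≤ ·) := by
  rw [LL, List.filter_append, List.filter_cons_of_pos (by simp), takeWhile_ne]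
  exact fun h => ha (List.mem_filter.1 h).1

lemma LL_stackSort {w : ℕ} {l : List ℕ} (hl : l.Nodup) (hw : w ∈ l) :
    LL w (stackSort l) = outp [] (LL w l) := by
  obtain ⟨a, b, rfl⟩ := List.append_of_mem hw
  have hn := List.nodup_middle.1 hl
  have hwa : w ∉ a := fun h => (List.nodup_cons.1 hn).1 (List.mem_append_left _ h)
  have hwb : w ∉ b := fun h => (List.nodup_cons.1 hn).1 (List.mem_append_right _ h)
  rw [LL_split b hwa, LL, stackSort, filter_pass w _ [] List.Pairwise.nil, List.filter_nil,
    List.filter_append, List.filter_cons_of_pos (by simp), pass_append, pass]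
  set a' := a.filter (w ≤ ·) with ha'
  have hmem : ∀ x ∈ pass [] a', w < x := by
    intro x hx
    have h1 : x ∈ a' := by simpa using (pass_perm a' []).subset hx
    have h2 := List.mem_filter.1 h1
    have h3 : x ≠ w := fun h => hwa (h ▸ h2.1)
    have h4 : w ≤ x := by simpa using h2.2
    omega
  rw [pass_eq] at hmem
  have hs := take_eq (stk_sorted a' [] List.Pairwise.nil) w
  rw [hs.1, List.filter_eq_nil_iff.2, List.nil_append]
  · have : ∃ c, pass (w :: (stk [] a').dropWhile (· < w)) (b.filter (w ≤ ·)) = w :: c := by
      rcases hb : b.filter (w ≤ ·) with _ | ⟨y, b'⟩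
      · exact ⟨_, rfl⟩
      · have h1 : y ∈ b.filter (w ≤ ·) := by rw [hb]; simp
        have h2 := List.mem_filter.1 h1
        have h3 : y ≠ w := fun h => hwb (h ▸ h2.1)
        have h4 : w ≤ y := by simpa using h2.2
        have h5 : w < y := by omega
        rw [pass, List.takeWhile_cons_of_pos (by simpa using h5)]
        exact ⟨_, rfl⟩
    obtain ⟨c, hc⟩ := this
    rw [hc, takeWhile_ne]
    exact fun h => lt_irrefl _ (hmem w (List.mem_append_left _ h))
  · intro x hx
    have := hmem x (List.mem_append_right _ hx)
    simp; omega

lemma LL_nodup {w : ℕ} {l : List ℕ} (hl : l.Nodup) : (LL w l).Nodup :=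
  (hl.filter _).sublist (List.takeWhile_sublist _)

end Pool.Agent.StackSort
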