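import Mathlib

namespace Pool.Agent.StackSort

open MeasureTheory

/-- One pass of the stack: first argument the stack (top first), second the unread input. -/
def pass : List ℕ → List ℕ → List ℕ
  | st, [] => st
  | st, x :: xs => st.takeWhile (· < x) ++ pass (x :: st.dropWhile (· < x)) xs

theorem pass_realize : True := by have := @pass.eq_def; trivial

/-- West's stack-sorting map on words. -/
def stackSort (l : List ℕ) : List ℕ := pass [] l

/-- The least number of passes that turns the word `l` into `1 2 ... n`. -/
noncomputable def passes (n : ℕ) (l : List ℕ) : ℕ :=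
  sInf {j | stackSort^[j] l = List.range' 1 n}

/-- The word `l` as a point of `ℝ^n`. -/
noncomputable def pt (n : ℕ) (l : List ℕ) : EuclideanSpace ℝ (Fin n) :=
  WithLp.toLp 2 fun i => (l.getD i 0 : ℝ)

/-- The stack-sorting polytope. -/
noncomputable def polytope (n : ℕ) (l : List ℕ) : Set (EuclideanSpace ℝ (Fin n)) :=
  convexHull ℝ {x | ∃ j ≤ passes n l, x = pt n (stackSort^[j] l)}

/-- The lattice `ℤ^n` in `ℝ^n`. -/
noncomputable def intLat (n : ℕ) : Submodule ℤ (EuclideanSpace ℝ (Fin n)) :=
  Submodule.span ℤ (Set.range fun i : Fin n => EuclideanSpace.single i (1 : ℝ))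

section
variable {E : Type} [NormedAddCommGroup E] [InnerProductSpace ℝ E] [FiniteDimensional ℝ E]
  [MeasurableSpace E] [BorelSpace E]

/-- Euclidean volume of `S` divided by the covolume of `L`. -/
noncomputable def ratio (S : Set E) (L : Submodule ℤ E) : ℝ :=
  volume.real S / ZLattice.covolume L volume

/-- The ratio taken inside the subspace `V`, for the set `S ∩ V` and the lattice `L ∩ V`. -/
noncomputable def ratioIn (V : Submodule ℝ E) (S : Set E) (L : Submodule ℤ E) : ℝ :=
  ratio {v : V | v.1 ∈ S} (ZLattice.comap ℝ L V.subtype)

/-- Relative volume: Euclidean volume of `P - p` inside the direction space of `P`, divided by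
the covolume of the lattice points of that space. -/
noncomputable def relVol (L : Submodule ℤ E) (P : Set E) (p : E) : ℝ :=
  ratioIn (affineSpan ℝ P).direction {v | p + v ∈ P} L

end

/-- The relative volume of the stack-sorting polytope. -/
noncomputable def vol (n : ℕ) (l : List ℕ) : ℝ :=
  relVol (intLat n) (polytope n l) (pt n (List.range' 1 n))

end Pool.Agent.StackSort
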