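import Pool.Agent.P.MP_f1060b_co.Bounds

namespace Pool.Agent.StackSort

/-- The word `x, P, x+1, P+2, ..., 1`. -/
def Z : ℕ → ℕ → ℕ → List ℕ
  | _, _, 0 => [1]
  | P, x, m + 1 => x :: P :: Z (P + 2) (x + 1) m

theorem Z_realize : True := by have := @Z.eq_def; trivial

lemma Z_length (m : ℕ) : ∀ P x, (Z P x m).length = 2 * m + 1 := by
  induction m with
  | zero => intro P x; rfl
  | succ m ih => intro P x; simp [Z, ih]; omega

lemma Z_last (m : ℕ) : ∀ P x, (Z P x m).getD (2 * m) 0 = 1 := by
  induction m with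
  | zero => intro P x; rfl
  | succ m ih => intro P x; rw [Z, show 2 * (m + 1) = 2 * m + 1 + 1 by ring]; simpa using ih _ _

lemma Z_odd (m : ℕ) : ∀ P x i, i < m → (Z P x m).getD (2 * i + 1) 0 = P + 2 * i := by
  induction m with
  | zero => intro P x i h; omega
  | succ m ih =>
    intro P x i h
    rcases i with _ | i
    · simp [Z]
    · rw [Z, show 2 * (i + 1) + 1 = 2 * i + 1 + 1 + 1 by ring, List.getD_cons_succ,
        List.getD_cons_succ, ih _ _ _ (by omega)]
      ring

lemma Z_le (m : ℕ) : ∀ P x, 1 ≤ P → x + m ≤ P + 1 → ∀ y ∈ Z P x m, y ≤ P + 2 * m := by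
  induction m with
  | zero => intro P x h1 h2 y hy; simp [Z] at hy; omega
  | succ m ih =>
    intro P x h1 h2 y hy
    simp only [Z, List.mem_cons] at hy
    rcases hy with rfl | rfl | hy
    · omega
    · omega
    · have := ih (P + 2) (x + 1) (by omega) (by omega) y hy
      omega

lemma pass_Z (M m : ℕ) : ∀ P x, 1 < P → x + m ≤ P → P + 2 * m < M →
    pass [P, M] (Z (P + 2) x m) = Z P x m ++ [P + 2 * m, M] := by
  induction m with
  | zero =>
    intro P x h1 h2 h3
    have : ¬ P = 0 := by omega
    simp [Z, pass, this, List.takeWhile_cons, List.dropWhile_cons]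
  | succ m ih =>
    intro P x h1 h2 h3
    have e1 : ¬ P < x := by omega
    have e2 : x < P + 2 := by omega
    have e3 : ¬ M < P + 2 := by omega
    have := ih (P + 2) (x + 1) (by omega) (by omega) (by omega)
    simp [Z, pass, e1, e2, e3, this, List.takeWhile_cons, List.dropWhile_cons]
    ring

lemma pass_inc (r : List ℕ) : ∀ (u : List ℕ) (y : ℕ) (base rest : List ℕ),
    (∀ a ∈ u, ∀ b ∈ r ++ [y], a < b) → (r ++ [y]).Pairwise (· < ·) → (∀ b ∈ base, y ≤ b) →
    pass (u ++ base) (r ++ y :: rest) = u ++ r ++ pass (y :: base) rest := by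
  have aux : ∀ (u base : List ℕ) (x : ℕ), (∀ a ∈ u, a < x) → (∀ b ∈ base, x ≤ b) →
      (u ++ base).takeWhile (· < x) = u ∧ (u ++ base).dropWhile (· < x) = base := by
    intro u base x h1 h2
    rw [List.takeWhile_append_of_pos (by simpa using h1),
      List.dropWhile_append_of_pos (by simpa using h1)]
    rcases base with _ | ⟨b, base⟩
    · simp
    · have : ¬ b < x := not_lt.2 (h2 b (by simp))
      simp [this]
  induction r with
  | nil =>
    intro u y base rest h1 _ h3
    obtain ⟨e1, e2⟩ := aux u base y (fun a ha => h1 a ha y (by simp)) h3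
    simp only [List.nil_append, List.append_nil, pass, e1, e2]
  | cons x r ih =>
    intro u y base rest h1 h2 h3
    rw [List.cons_append, List.pairwise_cons] at h2
    have hxy : x < y := h2.1 y (by simp)
    obtain ⟨e1, e2⟩ := aux u base x (fun a ha => h1 a ha x (by simp))
      (fun b hb => hxy.le.trans (h3 b hb))
    have := ih [x] y base rest (by simpa using h2.1) h2.2 h3
    rw [List.cons_append, pass, e1, e2, ← List.singleton_append (l := base), this]
    simp

/-- The active part of the first phase. -/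
def W (q c g : ℕ) : List ℕ :=
  List.range' (q + 2) g 2 ++ (q + 2 + 2 * g) :: (List.range' 2 c ++ (q + 1) :: Z (q + 3) (c + 2) g)

lemma W_step {q c g : ℕ} (h : q = g + 1 + c) : stackSort (W q c g) =
    List.range' (q + 2) g 2 ++ List.range' 2 c ++ Z (q + 1) (c + 2) g ++
      List.range' (q + 2 * g + 1) 2 := by
  have e1 := pass_inc (List.range' (q + 2) g 2) [] (q + 2 + 2 * g) []
    (List.range' 2 c ++ (q + 1) :: Z (q + 3) (c + 2) g) (by simp)
    (by rw [← List.range'_concat]; exact List.pairwise_lt_range' 2) (by simp)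
  have e2 := pass_inc (List.range' 2 c) [] (q + 1) [q + 2 + 2 * g] (Z (q + 3) (c + 2) g) (by simp)
    (by
      rw [List.pairwise_append]
      refine ⟨List.pairwise_lt_range', by simp, ?_⟩
      intro a ha b hb
      simp at ha hb; omega) (by simp; omega)
  have e3 := pass_Z (q + 2 + 2 * g) g (q + 1) (c + 2) (by omega) (by omega) (by omega)
  simp only [List.nil_append] at e1 e2
  rw [stackSort, W, e1, e2, e3]
  simp [List.range'_succ]
  omega

lemma W_length {q c g : ℕ} (h : q = g + 1 + c) : (W q c g).length = q + 2 * g + 2 := by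
  simp [W, Z_length]; omega

lemma W_get {q c g : ℕ} (h : q = g + 1 + c) (i : ℕ) :
    (W q c g).getD (q + i) 0 = ((q + 1) :: Z (q + 3) (c + 2) g).getD i 0 := by
  rw [W, ← List.cons_append, ← List.append_assoc, List.getD_append_right] <;> simp <;>
    first | omega | (congr 2; omega)

lemma W_lt {q c g : ℕ} (h : q = g + 1 + c) : ∀ y ∈ W q c g, y < q + 2 * g + 3 := by
  have e := (stackSort_perm (W q c g)).symm
  intro y hy
  have := e.subset hy
  rw [W_step h] at this
  simp only [List.mem_append, List.mem_range'] at this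
  rcases this with ((⟨i, h1, h2⟩ | ⟨i, h1, h2⟩) | h1) | ⟨i, h1, h2⟩
  · omega
  · omega
  · have := Z_le g (q + 1) (c + 2) (by omega) (by omega) y h1
    omega
  · omega

/-- The orbit of the extremal permutation. -/
def orb (q f n j : ℕ) : List ℕ :=
  if j < f then W q (q - f + j) (f - j - 1) ++ List.range' (q + 2 * (f - j) + 1) (n - (q + 2 * (f - j)))
  else List.range' 2 (q + f - 1 - j) ++ 1 :: List.range' (q + f - j + 1) (n - (q + f - j))

lemma range_glue (s a s' b s'' c : ℕ) (h1 : s' = s + a) (h2 : s'' = s) (h3 : c = a + b) :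
    List.range' s a ++ List.range' s' b = List.range' s'' c := by
  subst h1 h2 h3; exact List.range'_append_1

lemma orb_step {q f n j : ℕ} (hq : 1 ≤ q) (hf : f ≤ q) (hn : q + 2 * f ≤ n) (hj : j < q + f - 1) :
    stackSort (orb q f n j) = orb q f n (j + 1) := by
  by_cases h1 : j < f
  · have hW : q = (f - j - 1) + 1 + (q - f + j) := by omega
    rw [orb, if_pos h1, stackSort_append_range _ fun y hy => by have := W_lt hW y hy; omega,
      W_step hW, List.append_assoc, orb]
    by_cases h2 : j + 1 < f
    · obtain ⟨g, hg⟩ : ∃ g, f - j - 1 = g + 1 := ⟨f - j - 2, by omega⟩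
      rw [if_pos h2, range_glue _ _ _ _ (q + 2 * (f - (j + 1)) + 1) (n - (q + 2 * (f - (j + 1))))
        (by omega) (by omega) (by omega), show f - (j + 1) - 1 = g by omega, hg, W, Z,
        List.range'_concat, show q - f + (j + 1) = (q - f + j) + 1 by omega, List.range'_concat]
      simp [add_comm, add_left_comm, add_assoc]
    · rw [if_neg h2, range_glue _ _ _ _ (q + f - (j + 1) + 1) (n - (q + f - (j + 1)))
        (by omega) (by omega) (by omega), show f - j - 1 = 0 by omega, Z,
        show q + f - 1 - (j + 1) = q - f + j by omega]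
      simp
  · obtain ⟨m, hm⟩ : ∃ m, q + f - 1 - j = m + 1 := ⟨q + f - 2 - j, by omega⟩
    have e1 := pass_inc (List.range' 2 m) [] (2 + 1 * m) [] [1] (by simp)
      (by rw [← List.range'_concat]; exact List.pairwise_lt_range') (by simp)
    simp only [List.nil_append] at e1
    rw [orb, if_neg h1, orb, if_neg (by omega), hm, ← List.singleton_append, ← List.append_assoc,
      stackSort_append_range, List.range'_concat, List.append_assoc _ _ [1], List.singleton_append,
      stackSort, e1, show q + f - 1 - (j + 1) = m by omega,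
      show n - (q + f - (j + 1)) = (n - (q + f - j)) + 1 by omega, List.range'_succ,
      show q + f - (j + 1) + 1 = 2 + m by omega, show q + f - j + 1 = 2 + m + 1 by omega]
    · simp [pass, List.takeWhile_cons, List.dropWhile_cons]
    · intro y hy
      simp at hy; omega

lemma orb_iter {q f n : ℕ} (hq : 1 ≤ q) (hf : f ≤ q) (hn : q + 2 * f ≤ n) (j : ℕ)
    (hj : j ≤ q + f - 1) : stackSort^[j] (orb q f n 0) = orb q f n j := by
  induction j with
  | zero => rfl
  | succ j ih => rw [Function.iterate_succ_apply', ih (by omega), orb_step hq hf hn (by omega)]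

lemma orb_end {q f n : ℕ} (hq : 1 ≤ q) (hn : q + 2 * f ≤ n) :
    orb q f n (q + f - 1) = List.range' 1 n := by
  rw [orb, if_neg (by omega), Nat.sub_self, show q + f - (q + f - 1) = 1 by omega]
  obtain ⟨m, rfl⟩ : ∃ m, n = m + 1 := ⟨n - 1, by omega⟩
  simp [List.range'_succ]

/-- The position of the letter `1`, counted from `0`. -/
def tp (q f j : ℕ) : ℕ := if j < f then q + 2 * (f - j) - 1 else q + f - 1 - j

lemma orb_one {q f n j : ℕ} (hq : 1 ≤ q) (hf : f ≤ q) :
    (orb q f n j).getD (tp q f j) 0 = 1 := by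
  by_cases h1 : j < f
  · have hW : q = (f - j - 1) + 1 + (q - f + j) := by omega
    rw [orb, tp, if_pos h1, if_pos h1, List.getD_append _ _ _ _ (by rw [W_length hW]; omega),
      show q + 2 * (f - j) - 1 = q + (2 * (f - j - 1) + 1) by omega, W_get hW, List.getD_cons_succ,
      Z_last]
  · rw [orb, tp, if_neg h1, if_neg h1, List.getD_append_right _ _ _ _ (by simp)]
    simp

lemma orb_tail {q f n j i : ℕ} (hq : 1 ≤ q) (hf : f ≤ q) (hj : j ≤ q + f - 1) (h1 : tp q f j < i)
    (h2 : i < n) : (orb q f n j).getD i 0 = i + 1 := by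
  rw [tp] at h1
  by_cases h : j < f
  · have hW : q = (f - j - 1) + 1 + (q - f + j) := by omega
    rw [if_pos h] at h1
    rw [orb, if_pos h, getD_range] <;> rw [W_length hW] <;> omega
  · rw [if_neg h] at h1
    rw [orb, if_neg h, ← List.singleton_append, ← List.append_assoc, getD_range] <;>
      simp only [List.length_append, List.length_range', List.length_singleton] <;> omega

lemma orb_fixed {q f n j i : ℕ} (hq : 1 ≤ q) (hf : f ≤ q) (hj : j ≤ q + f - 1)
    (h2 : q + 2 * i < n) : (orb q f n j).getD (q + 2 * i) 0 = q + 2 * i + 1 := by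
  by_cases h1 : tp q f j < q + 2 * i
  · exact orb_tail hq hf hj h1 h2
  rw [tp] at h1
  have h : j < f := by split_ifs at h1 <;> omega
  rw [if_pos h] at h1
  have hW : q = (f - j - 1) + 1 + (q - f + j) := by omega
  rw [orb, if_pos h, List.getD_append _ _ _ _ (by rw [W_length hW]; omega), W_get hW]
  rcases i with _ | i
  · simp
  · rw [show 2 * (i + 1) = 2 * i + 1 + 1 by ring, List.getD_cons_succ, Z_odd _ _ _ _ (by omega)]
    ring

lemma prod_tp {q f : ℕ} (hq : 1 ≤ q) :
    ∏ j ∈ Finset.range (q + f - 1), ((tp q f j : ℕ) : ℝ) / (q + f - 1 - j : ℕ) =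
      ∏ i ∈ Finset.range f, ((q : ℝ) + 1 + 2 * i) / (q + i) := by
  rw [show q + f - 1 = f + (q - 1) by omega, Finset.prod_range_add, Finset.prod_eq_one
    (s := Finset.range (q - 1)), mul_one, ← Finset.prod_range_reflect]
  · refine Finset.prod_congr rfl fun i hi => ?_
    have := Finset.mem_range.1 hi
    rw [tp, if_pos (by omega), show q + 2 * (f - (f - 1 - i)) - 1 = q + 1 + 2 * i by omega,
      show f + (q - 1) - (f - 1 - i) = q + i by omega]
    push_cast; rfl
  · intro i hi
    have := Finset.mem_range.1 hi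
    rw [tp, if_neg (by omega), show q + f - 1 - (f + i) = f + (q - 1) - (f + i) by omega, div_self]
    exact Nat.cast_ne_zero.2 (by omega)

theorem family {q f n : ℕ} (hq : 1 ≤ q) (hf : f ≤ q) (hn : q + 2 * f ≤ n) :
    ∃ l : List ℕ, l.Perm (List.range' 1 n) ∧ passes n l = q + f - 1 ∧
      vol n l = ∏ i ∈ Finset.range f, ((q : ℝ) + 1 + 2 * i) / (q + i) := by
  have hit := orb_iter hq hf hn
  have hp : (orb q f n 0).Perm (List.range' 1 n) := by
    rw [← orb_end hq hn, ← hit _ le_rfl]; exact (iter_perm _ _).symm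
  have ht : ∀ j < q + f - 1, 1 ≤ tp q f j ∧ tp q f j < n := by
    intro j hj; rw [tp]; split_ifs <;> omega
  have hk : passes n (orb q f n 0) = q + f - 1 := by
    refine passes_eq (by rw [hit _ le_rfl, orb_end hq hn]) fun j hj e => ?_
    have h1 : (orb q f n j).getD (tp q f j) 0 = 1 := orb_one hq hf
    rw [← hit j hj.le, e, getD_id (ht j hj).2] at h1
    have := ht j hj
    omega
  refine ⟨_, hp, hk, ?_⟩
  rw [(vol_tri hp hk (tp q f) (fun _ => 1) (fun j hj => (ht j hj).2) (fun j hj => (ht j hj).1)
    (fun j hj => by rw [hit j hj.le]; exact orb_one hq hf) (fun i j hij hj => ?_)).2 0 (by omega)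
    fun i hi => ?_]
  · simpa using prod_tp hq
  · rw [hit j hj.le]
    refine orb_tail hq hf hj.le ?_ (ht i (by omega)).2
    simp only [tp]; split_ifs <;> omega
  · by_cases h0 : i = 0
    · exact Or.inl h0
    right
    by_cases h1 : i < q
    · exact Or.inl ⟨q + f - 1 - i, by omega, by rw [tp, if_neg (by omega)]; omega⟩
    by_cases h2 : q + 2 * f ≤ i
    · refine Or.inr fun j hj => ?_
      rw [hit j hj.le]
      refine orb_tail hq hf hj.le ?_ hi
      simp only [tp]; split_ifs <;> omega
    by_cases h3 : (i - q) % 2 = 1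
    · exact Or.inl ⟨f - (i - q + 1) / 2, by omega, by rw [tp, if_pos (by omega)]; omega⟩
    · refine Or.inr fun j hj => ?_
      rw [hit j hj.le, show i = q + 2 * ((i - q) / 2) by omega]
      exact orb_fixed hq hf hj.le (by omega)

theorem upper_large {q f : ℕ} (hq : 1 ≤ q) {l : List ℕ} (h : l.Perm (List.range' 1 (q + 2 * f)))
    (hk : passes (q + 2 * f) l = q + f - 1) :
    vol (q + 2 * f) l ≤ ∏ i ∈ Finset.range f, ((q : ℝ) + 1 + 2 * i) / (q + i) := by
  rw [← prod_tp hq, ← hk]
  refine vol_le_prod h _ fun w hw j hj => ?_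
  rw [div_mul_cancel₀ _ (Nat.cast_ne_zero.2 (by omega))]
  have e1 := LL_zero h hw
  have e2 := LL_bound h hw 1 j hj.le
  norm_cast
  rw [tp]
  split_ifs <;> omega

end Pool.Agent.StackSort
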