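import Pool.Agent.P.MP_f1060b_co.Defs

namespace Pool.Agent.StackSort

open MeasureTheory Module

/-- The corner simplex of size `r`. -/
def corner (k : ℕ) (r : ℝ) : Set (Fin k → ℝ) := {x | (∀ i, 0 ≤ x i) ∧ ∑ i, x i ≤ r}

lemma corner_closed (k : ℕ) (r : ℝ) : IsClosed (corner k r) := by
  have : corner k r = (⋂ i, {x : Fin k → ℝ | 0 ≤ x i}) ∩ {x | ∑ i, x i ≤ r} := by
    ext x; simp [corner]
  rw [this]
  refine (isClosed_iInter fun i => isClosed_le continuous_const (continuous_apply i)).inter ?_
  exact isClosed_le (by fun_prop) continuous_const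

lemma corner_neg (k : ℕ) {r : ℝ} (hr : r < 0) : corner k r = ∅ := by
  ext x
  simp only [corner, Set.mem_setOf_eq, Set.mem_empty_iff_false, iff_false, not_and, not_le]
  intro h
  exact hr.trans_le (Finset.sum_nonneg fun i _ => h i)

lemma volume_corner (k : ℕ) : ∀ r : ℝ, 0 ≤ r →
    volume (corner k r) = ENNReal.ofReal (r ^ k / k.factorial) := by
  induction k with
  | zero =>
    intro r hr
    have : corner 0 r = Set.univ := by ext x; simp [corner, hr]
    rw [this, volume_pi, Measure.pi_univ]; simp
  | succ k ih =>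
    intro r hr
    have hm := (measurePreserving_piFinSuccAbove (fun _ : Fin (k + 1) => (volume : Measure ℝ)) 0).symm
    have hms := (corner_closed (k + 1) r).measurableSet
    rw [volume_pi, ← hm.measure_preimage hms.nullMeasurableSet,
      Measure.prod_apply (hms.preimage hm.measurable)]
    have h1 : ∀ t : ℝ, Measure.pi (fun _ : Fin k => (volume : Measure ℝ)) (Prod.mk t ⁻¹'
        ((MeasurableEquiv.piFinSuccAbove (fun _ : Fin (k + 1) => ℝ) 0).symm ⁻¹' corner (k + 1) r))
        = (Set.Icc 0 r).indicator (fun t => ENNReal.ofReal ((r - t) ^ k / k.factorial)) t := by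
      intro t
      rw [← volume_pi]
      by_cases h0 : 0 ≤ t
      · have : (Prod.mk t ⁻¹' ((MeasurableEquiv.piFinSuccAbove (fun _ : Fin (k + 1) => ℝ) 0).symm ⁻¹'
            corner (k + 1) r)) = corner k (r - t) := by
          ext y
          simp [corner, Fin.forall_fin_succ, Fin.sum_univ_succ, h0, le_sub_iff_add_le']
        rw [this]
        by_cases h1 : t ≤ r
        · rw [ih _ (by linarith), Set.indicator_of_mem (by exact ⟨h0, h1⟩)]
        · rw [corner_neg k (by linarith), Set.indicator_of_notMem (fun h => h1 h.2)]; simp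
      · have : (Prod.mk t ⁻¹' ((MeasurableEquiv.piFinSuccAbove (fun _ : Fin (k + 1) => ℝ) 0).symm ⁻¹'
            corner (k + 1) r)) = ∅ := by
          ext y
          simp [corner, Fin.forall_fin_succ, h0]
        rw [this, Set.indicator_of_notMem (fun h => h0 h.1)]; simp
    simp_rw [h1]
    rw [lintegral_indicator measurableSet_Icc, ← ofReal_integral_eq_lintegral_ofReal]
    · congr 1
      rw [integral_Icc_eq_integral_Ioc, ← intervalIntegral.integral_of_le hr,
        intervalIntegral.integral_div, intervalIntegral.integral_comp_sub_left (fun t => t ^ k) r]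
      simp only [sub_self, sub_zero, integral_pow, Nat.factorial_succ]
      push_cast
      field_simp
      simp
    · exact (by fun_prop : Continuous fun t : ℝ => (r - t) ^ k / k.factorial).integrableOn_Icc
    · refine (ae_restrict_iff' measurableSet_Icc).2 (Filter.Eventually.of_forall fun t ht => ?_)
      have := sub_nonneg.2 ht.2
      positivity

lemma hull_eq {E : Type*} [AddCommGroup E] [Module ℝ E] {k : ℕ} (p : E) (d : Fin k → E) :
    convexHull ℝ (insert p (Set.range fun j => p + d j)) =
      (fun x : Fin k → ℝ => p + ∑ j, x j • d j) '' corner k 1 := by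
  apply Set.Subset.antisymm
  · apply convexHull_min
    · rintro _ (rfl | ⟨j, rfl⟩)
      · exact ⟨0, ⟨by simp, by simp⟩, by simp⟩
      · refine ⟨Pi.single j 1, ⟨fun i => ?_, by simp⟩, ?_⟩
        · by_cases h : i = j <;> simp [Pi.single_apply, h]
        · simp [Pi.single_apply, ite_smul]
    · rintro _ ⟨x, hx, rfl⟩ _ ⟨y, hy, rfl⟩ a b ha hb hab
      refine ⟨a • x + b • y, ⟨fun i => ?_, ?_⟩, ?_⟩
      · have := hx.1 i; have := hy.1 i
        simp only [Pi.add_apply, Pi.smul_apply, smul_eq_mul]; positivity
      · simp only [Pi.add_apply, Pi.smul_apply, smul_eq_mul, Finset.sum_add_distrib,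
          ← Finset.mul_sum]
        nlinarith [hx.2, hy.2]
      · simp only [Pi.add_apply, Pi.smul_apply, smul_eq_mul, add_smul, mul_smul,
          Finset.sum_add_distrib, ← Finset.smul_sum, smul_add]
        have : p = a • p + b • p := by rw [← add_smul, hab, one_smul]
        nth_rewrite 1 [this]; abel
  · rintro _ ⟨x, hx, rfl⟩
    have key := (convex_convexHull ℝ (insert p (Set.range fun j => p + d j))).sum_mem
      (t := (Finset.univ : Finset (Option (Fin k))))
      (w := fun o => o.elim (1 - ∑ i, x i) x) (z := fun o => o.elim p fun j => p + d j)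
      (by rintro (_ | j) _
          · simpa using hx.2
          · simpa using hx.1 j)
      (by simp [Fintype.sum_option])
      (by rintro (_ | j) _
          · exact subset_convexHull _ _ (Or.inl rfl)
          · exact subset_convexHull _ _ (Or.inr ⟨j, rfl⟩))
    have e : (∑ o : Option (Fin k), (o.elim (1 - ∑ i, x i) x) • (o.elim p fun j => p + d j))
        = p + ∑ j, x j • d j := by
      simp only [Fintype.sum_option, Option.elim, smul_add, Finset.sum_add_distrib,
        ← Finset.sum_smul, sub_smul, one_smul]
      abel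
    rw [e] at key
    exact key

lemma dir_eq {E : Type*} [AddCommGroup E] [Module ℝ E] {k : ℕ} (p : E) (d : Fin k → E) :
    (affineSpan ℝ (convexHull ℝ (insert p (Set.range fun j => p + d j)))).direction =
      Submodule.span ℝ (Set.range d) := by
  rw [affineSpan_convexHull, direction_affineSpan,
    vectorSpan_eq_span_vsub_set_right ℝ (Set.mem_insert p _), Set.image_insert_eq,
    ← Set.range_comp]
  simp [Function.comp_def, Submodule.span_insert_zero]

/-- The integer points of a subspace `V` of `ℝ^n`. -/
def intPts {n : ℕ} (V : Submodule ℝ (EuclideanSpace ℝ (Fin n))) : Submodule ℤ V where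
  carrier := {v | ∀ i, ∃ m : ℤ, v.1 i = m}
  add_mem' := by
    intro a b ha hb i
    obtain ⟨x, hx⟩ := ha i
    obtain ⟨y, hy⟩ := hb i
    exact ⟨x + y, by simp [hx, hy]⟩
  zero_mem' := fun i => ⟨0, by simp⟩
  smul_mem' := by
    intro c a ha i
    obtain ⟨x, hx⟩ := ha i
    exact ⟨c * x, by simp [hx]⟩

lemma comap_intLat {n : ℕ} (V : Submodule ℝ (EuclideanSpace ℝ (Fin n))) :
    ZLattice.comap ℝ (intLat n) V.subtype = intPts V := by
  classical
  ext v
  change v.1 ∈ intLat n ↔ ∀ i, ∃ m : ℤ, v.1 i = m
  rw [intLat, Submodule.mem_span_range_iff_exists_fun]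
  constructor
  · rintro ⟨c, hc⟩ i
    refine ⟨c i, ?_⟩
    rw [← hc]
    simp [Pi.single_apply]
  · intro h
    choose c hc using h
    refine ⟨c, ?_⟩
    ext i
    simp [Pi.single_apply, hc]

instance intPts_discrete {n : ℕ} (V : Submodule ℝ (EuclideanSpace ℝ (Fin n))) :
    DiscreteTopology (intPts V) := by
  refine discreteTopology_of_isOpen_singleton_zero ?_
  have : ({0} : Set (intPts V)) = Metric.ball 0 1 := by
    ext v
    simp only [Set.mem_singleton_iff, Metric.mem_ball, dist_zero_right]
    constructor
    · rintro rfl; simp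
    · intro h
      ext i
      obtain ⟨m, hm⟩ := v.2 i
      have h1 : ‖v.1.1 i‖ ≤ ‖v.1.1‖ := PiLp.norm_apply_le _ _
      have h2 : ‖v.1.1‖ < 1 := h
      rw [hm, Real.norm_eq_abs] at h1
      have h3 : |m| < 1 := by exact_mod_cast (h1.trans_lt h2)
      have h4 : m = 0 := by rwa [Int.abs_lt_one_iff] at h3
      simp [hm, h4]
  rw [this]; exact Metric.isOpen_ball

end Pool.Agent.StackSort
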