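import Pool.Agent.P.MP_f1060b_co.Geo

namespace Pool.Agent.StackSort

open MeasureTheory Module

lemma corner_convex (k : ℕ) : Convex ℝ (corner k 1) := by
  intro x hx y hy a b ha hb hab
  refine ⟨fun i => ?_, ?_⟩
  · have := hx.1 i; have := hy.1 i
    simp only [Pi.add_apply, Pi.smul_apply, smul_eq_mul]; positivity
  · simp only [Pi.add_apply, Pi.smul_apply, smul_eq_mul, Finset.sum_add_distrib,
      ← Finset.mul_sum]
    nlinarith [hx.2, hy.2]

lemma core {n k : ℕ} (p : EuclideanSpace ℝ (Fin n)) (d : Fin k → EuclideanSpace ℝ (Fin n))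
    (hd : ∀ j i, ∃ m : ℤ, d j i = m) (t : Fin k → Fin n)
    (hD : (Matrix.of fun i j => d j (t i)).det ≠ 0)
    (V : Submodule ℝ (EuclideanSpace ℝ (Fin n))) (hV : V = Submodule.span ℝ (Set.range d)) :
    ∃ N : ℤ, N ≠ 0 ∧
      volume.real {v : V | p + v.1 ∈ (fun x : Fin k → ℝ => p + ∑ j, x j • d j) '' corner k 1} /
        ZLattice.covolume (intPts V) volume =
        |(Matrix.of fun i j => d j (t i)).det| / (k.factorial * |(N : ℝ)|) ∧
      ((∀ v ∈ V, (∀ i, ∃ m : ℤ, v (t i) = m) → ∀ i, ∃ m : ℤ, v i = m) → |N| = 1) := by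
  classical
  set D : Matrix (Fin k) (Fin k) ℝ := Matrix.of fun i j => d j (t i) with hDdef
  have hmem : ∀ j, d j ∈ V := fun j => hV ▸ Submodule.subset_span ⟨j, rfl⟩
  let dV : Fin k → V := fun j => ⟨d j, hmem j⟩
  let φ₀ : EuclideanSpace ℝ (Fin n) →ₗ[ℝ] (Fin k → ℝ) :=
    { toFun := fun v i => v (t i)
      map_add' := fun _ _ => rfl
      map_smul' := fun _ _ => rfl }
  let φ : V →ₗ[ℝ] (Fin k → ℝ) := φ₀ ∘ₗ V.subtype
  have hli : LinearIndependent ℝ d := by
    apply LinearIndependent.of_comp φ₀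
    have := Matrix.linearIndependent_cols_iff_isUnit.2
      ((Matrix.isUnit_iff_isUnit_det D).2 (isUnit_iff_ne_zero.2 hD))
    exact this
  have hrank : finrank ℝ V = k := by
    rw [hV, finrank_span_eq_card hli, Fintype.card_fin]
  have hspan : ∀ v : V, ∃ x : Fin k → ℝ, v = ∑ j, x j • dV j := by
    intro v
    have : v.1 ∈ Submodule.span ℝ (Set.range d) := hV ▸ v.2
    obtain ⟨x, hx⟩ := (Submodule.mem_span_range_iff_exists_fun ℝ).1 this
    refine ⟨x, Subtype.ext ?_⟩
    rw [← hx]; simp [dV]
  haveI hL : IsZLattice ℝ (intPts V) := by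
    refine ⟨eq_top_iff.2 fun v _ => ?_⟩
    obtain ⟨x, rfl⟩ := hspan v
    exact Submodule.sum_mem _ fun j _ =>
      Submodule.smul_mem _ _ (Submodule.subset_span (fun i => hd j i))
  let c : Basis (Fin k) ℤ (intPts V) :=
    Module.finBasisOfFinrankEq ℤ (intPts V) (by rw [ZLattice.rank ℝ, hrank])
  let c' : Basis (Fin k) ℝ V := c.ofZLatticeBasis ℝ (intPts V)
  choose Cz hCz using fun j i => (c j).2 (t i)
  let C : Matrix (Fin k) (Fin k) ℤ := Matrix.of fun i j => Cz j i
  let Cr : Matrix (Fin k) (Fin k) ℝ := C.map (Int.castRingHom ℝ)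
  have hφc : ∀ j i, φ (c' j) i = Cr i j := by
    intro j i
    have : c' j = (c j : V) := c.ofZLatticeBasis_apply ℝ _ j
    rw [this]; exact hCz j i
  have hψ : ∀ v : V, Matrix.toLin' Cr (c'.equivFun v) = φ v := by
    intro v
    conv_rhs => rw [← c'.sum_repr v]
    ext i
    simp only [Matrix.toLin'_apply, Matrix.mulVec, dotProduct, map_sum, map_smul,
      Finset.sum_apply, Pi.smul_apply, hφc, smul_eq_mul, Basis.equivFun_apply, mul_comm]
  have hδ : ∀ x : Fin k → ℝ, φ (∑ j, x j • dV j) = Matrix.toLin' D x := by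
    intro x
    ext i
    simp only [Matrix.toLin'_apply, Matrix.mulVec, dotProduct, map_sum, map_smul,
      Finset.sum_apply, Pi.smul_apply, smul_eq_mul, mul_comm]
    rfl
  set S : Set V := {v : V | p + v.1 ∈ (fun x : Fin k → ℝ => p + ∑ j, x j • d j) '' corner k 1}
    with hS
  let g : (Fin k → ℝ) →ₗ[ℝ] V := Fintype.linearCombination ℝ dV
  have hg : ∀ x, g x = ∑ j, x j • dV j := fun x => Fintype.linearCombination_apply _ _ _
  have hSg : S = g '' corner k 1 := by
    ext v
    simp only [hS, Set.mem_setOf_eq, Set.mem_image, add_right_inj, hg]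
    refine exists_congr fun x => and_congr_right fun _ => ?_
    rw [Subtype.ext_iff]; simp [dV]
  have hSm : NullMeasurableSet S volume := by
    rw [hSg]; exact ((corner_convex k).linear_image g).nullMeasurableSet _
  have h1 := ZLattice.volume_image_eq_volume_div_covolume' (intPts V) c hSm
  have h2 : Matrix.toLin' Cr '' (c'.equivFun '' S) = Matrix.toLin' D '' corner k 1 := by
    rw [hSg, Set.image_image, Set.image_image]
    refine Set.image_congr fun x _ => ?_
    rw [hψ, hg, hδ]
  have h3 := congrArg volume h2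
  rw [Measure.addHaar_image_linearMap, Measure.addHaar_image_linearMap, h1,
    volume_corner k 1 zero_le_one, LinearMap.det_toLin', LinearMap.det_toLin'] at h3
  have h4 := congrArg ENNReal.toReal h3
  have hcov := ZLattice.covolume_pos (intPts V) volume
  simp only [ENNReal.toReal_mul, ENNReal.toReal_div, ENNReal.toReal_ofReal (abs_nonneg _),
    ENNReal.toReal_ofReal hcov.le, one_pow] at h4
  rw [ENNReal.toReal_ofReal (by positivity)] at h4
  have hdet : Cr.det = ((C.det : ℤ) : ℝ) := ((Int.castRingHom ℝ).map_det C).symm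
  have hf : (0 : ℝ) < k.factorial := by positivity
  have hDp : 0 < |D.det| := abs_pos.2 hD
  have hC0 : Cr.det ≠ 0 := by
    intro h0
    rw [h0, abs_zero, zero_mul] at h4
    exact absurd h4 (by positivity : (0 : ℝ) < |D.det| * (1 / k.factorial)).ne
  refine ⟨C.det, fun h0 => hC0 (by rw [hdet, h0]; simp), ?_, fun hint => ?_⟩
  · rw [← hdet, Measure.real]
    have : 0 < |Cr.det| := abs_pos.2 hC0
    rw [eq_div_iff (by positivity)]
    field_simp at h4 ⊢
    linarith
  · have hex : ∀ i : Fin k, ∃ v : intPts V, φ v = Pi.single i 1 := by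
      intro i
      let x : Fin k → ℝ := D⁻¹.mulVec (Pi.single i 1)
      have hx : φ (∑ j, x j • dV j) = Pi.single i 1 := by
        rw [hδ, Matrix.toLin'_apply, Matrix.mulVec_mulVec,
          Matrix.mul_nonsing_inv _ (isUnit_iff_ne_zero.2 hD), Matrix.one_mulVec]
      refine ⟨⟨∑ j, x j • dV j, hint _ (∑ j, x j • dV j).2 fun l => ?_⟩, hx⟩
      have := congrFun hx l
      refine ⟨if l = i then 1 else 0, this.trans ?_⟩
      by_cases h : l = i <;> simp [Pi.single_apply, h]
    choose v hv using hex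
    let H : Matrix (Fin k) (Fin k) ℤ := Matrix.of fun j i => c.repr (v i) j
    have hCH : C * H = 1 := by
      ext l i
      have e1 := congrFun ((hψ (v i)).trans (hv i)) l
      simp only [Matrix.toLin'_apply, Matrix.mulVec, dotProduct, Basis.equivFun_apply] at e1
      have e2 : ∀ j, c'.repr (v i : V) j = ((c.repr (v i) j : ℤ) : ℝ) := fun j =>
        c.ofZLatticeBasis_repr_apply ℝ _ (v i) j
      simp only [e2] at e1
      have e3 : (((C * H) l i : ℤ) : ℝ) = (((1 : Matrix (Fin k) (Fin k) ℤ) l i : ℤ) : ℝ) := by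
        rw [Matrix.mul_apply]; push_cast
        refine e1.trans ?_
        by_cases h : l = i <;> simp [Pi.single_apply, Matrix.one_apply, h]
      exact_mod_cast e3
    have := congrArg Matrix.det hCH
    rw [Matrix.det_mul, Matrix.det_one] at this
    rcases Int.eq_one_or_neg_one_of_mul_eq_one this with h | h <;> simp [h]

lemma relVol_simplex {n k : ℕ} (p : EuclideanSpace ℝ (Fin n))
    (d : Fin k → EuclideanSpace ℝ (Fin n))
    (hd : ∀ j i, ∃ m : ℤ, d j i = m) (t : Fin k → Fin n)
    (htri : ∀ i j, i < j → d j (t i) = 0) (hdiag : ∀ j, d j (t j) ≠ 0) :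
    relVol (intLat n) (convexHull ℝ (insert p (Set.range fun j => p + d j))) p ≤
        (∏ j, |d j (t j)|) / k.factorial ∧
      ∀ i₀ : Fin n, (∀ j, ∑ i, d j i = 0) →
        (∀ i, i = i₀ ∨ (∃ j, i = t j) ∨ ∀ j, d j i = 0) →
        relVol (intLat n) (convexHull ℝ (insert p (Set.range fun j => p + d j))) p =
          (∏ j, |d j (t j)|) / k.factorial := by
  classical
  have hdet : (Matrix.of fun i j => d j (t i)).det = ∏ j, d j (t j) := by
    rw [Matrix.det_of_lowerTriangular]
    · rfl
    · intro i j h; exact htri i j h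
  have hD : (Matrix.of fun i j => d j (t i)).det ≠ 0 := by
    rw [hdet]; exact Finset.prod_ne_zero_iff.2 fun j _ => hdiag j
  obtain ⟨N, hN, h1, h2⟩ := core p d hd t hD _ (dir_eq p d)
  have h3 : relVol (intLat n) (convexHull ℝ (insert p (Set.range fun j => p + d j))) p =
      (∏ j, |d j (t j)|) / (k.factorial * |(N : ℝ)|) := by
    rw [← Finset.abs_prod, ← hdet, ← h1, relVol, ratioIn, ratio, comap_intLat, ← hull_eq]
    rfl
  have hf : (0 : ℝ) < k.factorial := by positivity
  refine ⟨?_, fun i₀ hsum hcov => ?_⟩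
  · rw [h3]
    have : (1 : ℝ) ≤ |(N : ℝ)| := by exact_mod_cast Int.one_le_abs hN
    apply div_le_div_of_nonneg_left (by positivity) hf
    nlinarith
  · have : |N| = 1 := by
      refine h2 fun v hv hint => ?_
      rw [dir_eq] at hv
      obtain ⟨x, rfl⟩ := (Submodule.mem_span_range_iff_exists_fun ℝ).1 hv
      have hne : ∀ i, i ≠ i₀ → ∃ m : ℤ, (∑ j, x j • d j) i = m := by
        intro i hi
        rcases hcov i with h | ⟨j, rfl⟩ | h
        · exact absurd h hi
        · exact hint j
        · exact ⟨0, by simp [h]⟩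
      choose! m hm using hne
      intro i
      by_cases hi : i = i₀
      · subst hi
        have hs : ∑ l, (∑ j, x j • d j) l = 0 := by
          simp only [WithLp.ofLp_sum, WithLp.ofLp_smul, Finset.sum_apply, Pi.smul_apply,
            smul_eq_mul]
          rw [Finset.sum_comm]
          simp [← Finset.mul_sum, hsum]
        rw [← Finset.add_sum_erase _ _ (Finset.mem_univ i),
          Finset.sum_congr rfl fun l hl => hm l (Finset.ne_of_mem_erase hl)] at hs
        exact ⟨-∑ l ∈ Finset.univ.erase i, m l, by push_cast; linarith⟩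
      · exact ⟨m i, hm i hi⟩
    have h4 : |(N : ℝ)| = 1 := by exact_mod_cast this
    rw [h3, h4, mul_one]

end Pool.Agent.StackSort
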