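import Pool.Agent.P.MP_f1060b_co.QRun

namespace Pool.Agent.StackSort

open Finset

variable {n k : ℕ} {p v : ℕ → ℕ → ℕ} {P w : ℕ → ℕ}

/-- The first descent at time `t` is at place `a`. -/
def Desc (n : ℕ) (v : ℕ → ℕ → ℕ) (t a : ℕ) : Prop :=
  a + 1 < n ∧ v t (a + 1) < v t a ∧ ∀ b < a, v t b < v t (b + 1)

lemma Desc.mono {t a b c : ℕ} (h : Desc n v t a) (hbc : b < c) (hc : c ≤ a) : v t b < v t c := by
  induction c, hbc using Nat.le_induction with
  | base => exact h.2.2 b (by omega)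
  | succ c _ ih => exact (ih (by omega)).trans (h.2.2 c (by omega))

lemma Desc.mono' {t a b c : ℕ} (h : Desc n v t a) (hbc : b ≤ c) (hc : c ≤ a) : v t b ≤ v t c := by
  rcases hbc.eq_or_lt with rfl | e
  · exact le_rfl
  · exact (h.mono e hc).le

lemma run_exists {U : ℕ → ℕ} {L b lam r : ℕ} (h1 : ∀ m, m + 1 ≤ L → U (m + 1) ≤ U m)
    (h2 : ∀ m, m + 2 ≤ L → U (m + 2) < U (m + 1) → U (m + 2) + b ≤ U m)
    (h3 : r * (lam + 2) ≤ L) (h4 : U 0 < r * b) :
    ∃ m, m + lam ≤ L ∧ ∀ s ≤ lam, U (m + s) = U m := by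
  by_contra hc
  have anti : ∀ a c, a ≤ c → c ≤ L → U c ≤ U a := by
    intro a c hac
    induction c, hac using Nat.le_induction with
    | base => intro _; exact le_rfl
    | succ c _ ih => intro h; exact (h1 c h).trans (ih (by omega))
  have chg : ∀ m, m + lam ≤ L → ∃ s < lam, U (m + s + 1) < U (m + s) := by
    intro m hm
    by_contra hn
    refine hc ⟨m, hm, fun s hs => ?_⟩
    induction s with
    | zero => rfl
    | succ s ih =>
      have := h1 (m + s) (by omega)
      have : ¬U (m + s + 1) < U (m + s) := fun e => hn ⟨s, by omega, e⟩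
      have := ih (by omega)
      show U (m + s + 1) = U m
      omega
  have key : ∀ i ≤ r, U (i * (lam + 2)) + i * b ≤ U 0 := by
    intro i
    induction i with
    | zero => simp
    | succ i ih =>
      intro hi
      have e := (Nat.mul_le_mul_right (lam + 2) hi).trans h3
      rw [add_mul, one_mul] at e ⊢
      obtain ⟨s, s1, s2⟩ := chg (i * (lam + 2) + 1) (by omega)
      rw [show i * (lam + 2) + 1 + s = i * (lam + 2) + s + 1 by ring] at s2
      have a1 := h2 (i * (lam + 2) + s) (by omega) s2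
      have a2 := anti (i * (lam + 2)) (i * (lam + 2) + s) (by omega) (by omega)
      have a3 := anti (i * (lam + 2) + s + 2) (i * (lam + 2) + (lam + 2)) (by omega) e
      have := ih (by omega)
      rw [add_mul, one_mul]
      omega
  have := key r le_rfl
  omega

lemma mu_eq {j g a b : ℕ} (h1 : b * j < a * (j + 1)) (h2 : a * (j + 1) ≤ b * j + g) (hg : g ≤ j)
    (ha : a ≤ j) (ha1 : 1 ≤ a) : b = a := by
  rcases lt_trichotomy b a with h | h | h
  · nlinarith [Nat.mul_le_mul_right j (by omega : b + 1 ≤ a)]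
  · exact h
  · nlinarith [Nat.mul_le_mul_right j (by omega : a + 1 ≤ b)]

namespace Dyn

variable (D : Dyn n k p v P w)
include D

lemma exists_desc {t : ℕ} (hn : 1 ≤ n) (h : 0 < p t 1) : ∃ a, a < p t 1 ∧ Desc n v t a := by
  classical
  have h1 := D.lt t 1 le_rfl hn
  have hw : v t (p t 1 - 1 + 1) < v t (p t 1 - 1) := by
    have a1 := D.pv t (p t 1 - 1) (by omega)
    rw [show p t 1 - 1 + 1 = p t 1 by omega, D.vp t 1 le_rfl hn]
    by_contra hc
    have : v t (p t 1 - 1) = 1 := by omega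
    rw [this] at a1
    omega
  have hex : ∃ a, v t (a + 1) < v t a := ⟨_, hw⟩
  have hle := Nat.find_min' hex hw
  refine ⟨Nat.find hex, by omega, by omega, Nat.find_spec hex, fun b hb => ?_⟩
  have a1 := Nat.find_min hex hb
  have a2 := D.pv t b (by omega)
  have a3 := D.pv t (b + 1) (by omega)
  by_contra hc
  have : v t b = v t (b + 1) := by omega
  rw [this] at a2
  omega

lemma d1 {t a b : ℕ} (h : Desc n v t a) (hb : b < a) : p (t + 1) (v t b) = b := by
  have h1 := h.1
  have e := D.pv t b (by omega)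
  refine (D.pos_eq e.1 e.2.1).trans (Eq.trans ?_ ((D.pos_eq e.1 e.2.1).symm.trans e.2.2))
  refine congrArg card (filter_congr fun c hc => ?_)
  rw [mem_Icc] at hc
  have pre : p t c < p t (v t b) → c < v t b := fun hh => by
    have := h.mono (b := p t c) (c := b) (by omega) hb.le
    rwa [D.vp t c hc.1 hc.2] at this
  rcases lt_trichotomy c (v t b) with l | l | l
  · refine ⟨fun hh => ?_, D.ninv_le (Nat.le_succ t) hc.1 l e.2.1⟩
    by_contra hn
    have f := D.pv t (b + 1) (by omega)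
    have f2 := h.2.2 b hb
    have a1 := D.tri t hc.1 hc.2 e.1 e.2.1 l.ne
    have a2 := D.tri t hc.1 hc.2 f.1 f.2.1 (by omega)
    have := (D.rule t (v t b) c hc.1 l e.2.1).2 ⟨v t (b + 1), f2, f.2.1, by omega, by omega⟩
    omega
  · subst l; simp
  · refine ⟨fun hh => D.inv_le (Nat.le_succ t) e.1 l hc.2 hh, fun hh => ?_⟩
    have := pre hh
    omega

lemma d1' {t a b : ℕ} (h : Desc n v t a) (hb : b < a) : v (t + 1) b = v t b := by
  have e := D.pv t b (by have := h.1; omega)
  conv_lhs => rw [← D.d1 h hb]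
  exact D.vp _ _ e.1 e.2.1

/-- Letters outside the increasing prefix stay outside. -/
lemma out {t a c : ℕ} (h : Desc n v t a) (c1 : 1 ≤ c) (c2 : c ≤ n) :
    a ≤ p (t + 1) c ↔ a ≤ p t c := by
  have h1 := h.1
  constructor
  · intro hh
    by_contra hc
    have := D.d1 h (not_le.1 hc)
    rw [D.vp t c c1 c2] at this
    omega
  · intro hh
    by_contra hc
    have e := D.d1' h (not_le.1 hc)
    rw [D.vp _ c c1 c2] at e
    have := (D.pv t (p (t + 1) c) (by omega)).2.2
    rw [← e] at this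
    omega

lemma d2 {t a : ℕ} (h : Desc n v t a) : a < p t (v (t + 1) a) ∧ v (t + 1) a ≤ v t (a + 1) ∧
    (a + 2 < n → v (t + 1) a ≤ v t (a + 2) ∧
      (v t (a + 1) < v t (a + 2) → v (t + 1) a = v t (a + 1))) := by
  have h1 := h.1
  have U := D.pv (t + 1) a (by omega)
  have A := D.pv t a (by omega)
  have B := D.pv t (a + 1) h1
  have u1 := (D.out h U.1 U.2.1).1 U.2.2.ge
  have b1 := (D.out h B.1 B.2.1).2 (by omega)
  have u2 : a < p t (v (t + 1) a) := by
    by_contra hc
    have e : v (t + 1) a = v t a := D.inj U.1 U.2.1 A.1 A.2.1 (t := t) (by omega)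
    have a1 := D.tri (t + 1) A.1 A.2.1 B.1 B.2.1 (by have := h.2.1; omega)
    rw [e] at U
    obtain ⟨c, -, -, c3, c4⟩ := (D.rule t _ _ B.1 h.2.1 A.2.1).1 (by omega)
    omega
  have le : ∀ i, a < i → i ≤ a + 2 → i < n → v (t + 1) a ≤ v t i := by
    intro i i1 i2 i3
    have C := D.pv t i i3
    have c1 := (D.out h C.1 C.2.1).2 (by omega)
    by_contra hc
    have a1 := D.tri (t + 1) U.1 U.2.1 C.1 C.2.1 (by omega)
    obtain ⟨c, -, -, c3, c4⟩ := (D.rule t _ _ C.1 (not_le.1 hc) U.2.1).1 (by omega)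
    omega
  refine ⟨u2, le _ (by omega) (by omega) h1, fun h2 => ⟨le _ (by omega) le_rfl h2, fun h3 => ?_⟩⟩
  have C := D.pv t (a + 2) h2
  have l1 := le _ (by omega) (by omega) h1
  by_contra hc
  have a1 := D.tri t U.1 U.2.1 B.1 B.2.1 hc
  have a2 := D.tri t U.1 U.2.1 C.1 C.2.1 (by omega)
  have := (D.rule t _ _ U.1 (lt_of_le_of_ne l1 hc) B.2.1).2
    ⟨v t (a + 2), h3, C.2.1, by omega, by omega⟩
  omega

lemma dead_pre {t a d : ℕ} (ha : a < n) (d1 : 1 ≤ d) (hd : el n p t d = 0) (h2 : d < v t a) :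
    p t d < a := by
  have A := D.pv t a ha
  have := (D.el_zero d1 (by omega)).1 hd _ h2 A.2.1
  omega

lemma gap {t a g c : ℕ} (h : Desc n v t a)
    (dense : ∀ c, 1 ≤ c → c + g ≤ n + 1 → ∃ d, c ≤ d ∧ d < c + g ∧ el n p t d = 0)
    {b : ℕ} (hb : b ≤ a) (hc : c + g < v t b) : 0 < b ∧ c < v t (b - 1) := by
  have h1 := h.1
  have A := D.pv t b (by omega)
  obtain ⟨d, d1, d2, d3⟩ := dense (c + 1) (by omega) (by omega)
  have e := D.dead_pre (a := b) (by omega) (by omega) d3 (by omega)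
  have := h.mono' (b := p t d) (c := b - 1) (by omega) (by omega)
  rw [D.vp t d (by omega) (by omega)] at this
  omega

lemma pre_le {t a g : ℕ} (h : Desc n v t a)
    (dense : ∀ c, 1 ≤ c → c + g ≤ n + 1 → ∃ d, c ≤ d ∧ d < c + g ∧ el n p t d = 0)
    (b : ℕ) (hb : b ≤ a) : v t b ≤ (b + 1) * g := by
  induction b with
  | zero =>
    by_contra hc
    have := (D.gap (c := 0) h dense hb (by omega)).1
    omega
  | succ b ih =>
    by_contra hc
    rw [add_mul, one_mul] at hc
    have := (D.gap h dense hb (not_le.1 hc)).2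
    have := ih (by omega)
    rw [Nat.add_sub_cancel] at *
    omega

lemma desc_step {t a g j : ℕ} (h : Desc n v t a) (hg : g < j)
    (dense : ∀ c, 1 ≤ c → c + g ≤ n + 1 → ∃ d, c ≤ d ∧ d < c + g ∧ el n p t d = 0)
    (cong : (j : ℤ) ∣ (v t a : ℤ) - v (t + 1) a) :
    0 < a ∧ Desc n v (t + 1) (a - 1) ∧ v (t + 1) (a - 1) = v t (a - 1) ∧
      v t (a - 1) < v t a ∧ v t a ≤ v t (a - 1) + g := by
  have h1 := h.1
  have h2 := h.2.1
  have e := (D.d2 h).2.1
  have e2 := Int.le_of_dvd (by omega) cong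
  obtain ⟨a1, a2⟩ := D.gap (c := v (t + 1) a) h dense le_rfl (by omega)
  have e3 := D.d1' h (by omega : a - 1 < a)
  refine ⟨a1, ⟨by omega, ?_, fun b hb => ?_⟩, e3, h.mono (by omega) le_rfl, ?_⟩
  · rw [e3, show a - 1 + 1 = a by omega]
    exact a2
  · rw [D.d1' h (by omega), D.d1' h (by omega)]
    exact h.2.2 b (by omega)
  · by_contra hc
    have := (D.gap h dense le_rfl (not_le.1 hc)).2
    omega

/-- The walk of the first descent. -/
lemma descent {x s L g b lam r B N : ℕ} (g2 : G2 n x (p 0)) (g4 : G4 n x (p 0)) (hn : 1 ≤ n)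
    (alive : ∀ m ≤ L, el n p (s + m) 1 ≠ 0) (hB : el n p s 1 * g ≤ B) (hg : g < b)
    (hb : s + L + b ≤ k) (hr : B < r * b) (hr2 : r ≤ b) (hL : r * (lam + 2) ≤ L)
    (hlam : 2 * x ≤ lam) (hx : 1 ≤ x) (hB2 : 3 * B + 2 ≤ n) (hN : x * n ≤ N * lam)
    (dense : ∀ t, s ≤ t → ∀ c, 1 ≤ c → c + g ≤ n + 1 → ∃ d, c ≤ d ∧ d < c + g ∧ el n p t d = 0)
    (cong : ∀ t, s ≤ t → t ≤ s + L → ∀ a < n, ((k - t : ℕ) : ℤ) ∣ (v t a : ℤ) - v (t + 1) a) :
    n ≤ p 0 1 + N := by
  have pos1 : ∀ m ≤ L, 0 < p (s + m) 1 := fun m hm => by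
    have := alive m hm
    have := D.el_le_pos (t := s + m) le_rfl hn
    omega
  obtain ⟨a, a1, a2⟩ := D.exists_desc hn (pos1 0 (Nat.zero_le L))
  rw [add_zero] at a1 a2
  have wk : ∀ m ≤ L + 1, Desc n v (s + m) (a - m) ∧ m ≤ a := by
    intro m
    induction m with
    | zero => exact fun _ => ⟨a2, Nat.zero_le a⟩
    | succ m ih =>
      intro hm
      obtain ⟨i1, i2⟩ := ih (by omega)
      have := D.desc_step (j := k - (s + m)) i1 (by omega) (dense _ (by omega))
        (cong _ (by omega) (by omega) _ (by have := i1.1; omega))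
      exact ⟨this.2.1, by omega⟩
  set V : ℕ → ℕ := fun m => v (s + m) (a - m) with hV
  set U : ℕ → ℕ := fun m => v (s + m + 1) (a - m) with hU
  have st : ∀ m ≤ L, V (m + 1) = v (s + m) (a - m - 1) ∧ V (m + 1) < V m ∧ V m ≤ V (m + 1) + g := by
    intro m hm
    obtain ⟨i1, i2⟩ := wk m (by omega)
    have := D.desc_step (j := k - (s + m)) i1 (by omega) (dense _ (by omega))
      (cong _ (by omega) (by omega) _ (by have := i1.1; omega))
    have e : V (m + 1) = v (s + m) (a - m - 1) := this.2.2.1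
    exact ⟨e, e ▸ this.2.2.2.1, e ▸ this.2.2.2.2⟩
  have V0 : V 0 ≤ B := by
    have e1 := D.pre_le a2 (dense s le_rfl) a le_rfl
    have e2 := D.pos_le (t := s) le_rfl hn
    exact (e1.trans (Nat.mul_le_mul_right g (by omega))).trans hB
  have VB : ∀ m ≤ L, V m ≤ B := by
    intro m
    induction m with
    | zero => exact fun _ => V0
    | succ m ih => intro hm; exact (st m (by omega)).2.1.le.trans (ih (by omega))
  have UV : ∀ m ≤ L, 1 ≤ U m ∧ U m < V m := fun m hm => by
    have i1 := (wk m (by omega)).1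
    exact ⟨(D.pv _ _ (by have := i1.1; omega)).1, (D.d2 i1).2.1.trans_lt i1.2.1⟩
  have U1 : ∀ m, m + 1 ≤ L → U (m + 1) ≤ U m := by
    intro m hm
    obtain ⟨i1, i2⟩ := wk (m + 1) (by omega)
    have := (D.d2 i1).2.1
    rwa [show a - (m + 1) + 1 = a - m by omega] at this
  have U2 : ∀ m, m + 2 ≤ L → U (m + 2) < U (m + 1) → U (m + 2) + b ≤ U m := by
    intro m hm hlt
    obtain ⟨i1, i2⟩ := wk (m + 2) (by omega)
    have i0 := (wk m (by omega)).1.1
    obtain ⟨e1, e2⟩ := (D.d2 i1).2.2 (by omega)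
    rw [show a - (m + 2) + 2 = a - m by omega] at e1 e2
    rw [show a - (m + 2) + 1 = a - (m + 1) by omega] at e2
    have e1 : U (m + 2) ≤ v (s + m + 1 + 1) (a - m) := e1
    have e2 : U (m + 1) < v (s + m + 1 + 1) (a - m) → U (m + 2) = U (m + 1) := e2
    have e3 : U (m + 1) ≠ v (s + m + 1 + 1) (a - m) := fun e => by
      have f1 : p (s + m + 1 + 1) (U (m + 1)) = a - (m + 1) := (D.pv _ _ (by omega)).2.2
      rw [e, (D.pv _ _ (by omega)).2.2] at f1
      omega
    have e4 := U1 m (by omega)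
    have e5 : ((k - (s + m + 1) : ℕ) : ℤ) ∣ (U m : ℤ) - v (s + m + 1 + 1) (a - m) :=
      cong (s + m + 1) (by omega) (by omega) (a - m) (by omega)
    have := Int.le_of_dvd (by omega) e5
    omega
  obtain ⟨m, m1, m2⟩ := run_exists U1 U2 hL ((UV 0 (Nat.zero_le L)).2.trans (V0.trans_lt hr))
  have mu : ∀ i ≤ L, ∃ c, 1 ≤ c ∧ c < r ∧ V i = U i + c * (k - (s + i)) := by
    intro i hi
    have e := cong (s + i) (by omega) (by omega) (a - i) (by have := (wk i (by omega)).1.1; omega)
    have e1 := UV i hi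
    have e : ((k - (s + i) : ℕ) : ℤ) ∣ (V i : ℤ) - U i := e
    rw [← Nat.cast_sub e1.2.le, Int.natCast_dvd_natCast] at e
    obtain ⟨c, hc⟩ := e
    rw [mul_comm] at hc
    refine ⟨c, ?_, ?_, by omega⟩
    · rcases c with _ | c <;> omega
    · by_contra hh
      have := Nat.mul_le_mul (not_lt.1 hh) (by omega : b ≤ k - (s + i))
      have := VB i hi
      omega
  obtain ⟨c, c1, c2, c3⟩ := mu m (by omega)
  have lin : ∀ i ≤ lam, V (m + i) = U m + c * (k - (s + (m + i))) := by
    intro i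
    induction i with
    | zero => exact fun _ => c3
    | succ i ih =>
      intro hi
      obtain ⟨d, -, -, d3⟩ := mu (m + (i + 1)) (by omega)
      have e := ih (by omega)
      obtain ⟨-, f1, f2⟩ := st (m + i) (by omega)
      rw [m2 _ hi] at d3
      rw [show k - (s + (m + i)) = k - (s + (m + (i + 1))) + 1 by omega] at e
      rw [add_assoc m i 1] at f1 f2
      rw [d3, mu_eq (j := k - (s + (m + (i + 1)))) (g := g) (a := c) (b := d) (by omega) (by omega)
        (by omega) (by omega) c1]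
  have lin2 : ∀ i ≤ lam, V (m + i) + c * i = V m := fun i hi => by
    rw [lin i hi, c3, add_assoc, ← mul_add]
    congr 2
    omega
  have hm0 := UV m (by omega)
  have hmB := VB m (by omega)
  rcases c1.eq_or_lt with rfl | c1
  · have e0 := UV (m + lam) m1
    have e1 := lin2 lam le_rfl
    rw [m2 lam le_rfl] at e0
    have e2 : n ≤ p 0 (U m) + N := by
      refine D.end_of_inv (t := 0) (c := V m - lam - 1) (d := V m) g2 hm0.1 (by omega) (by omega)
        (hN.trans (Nat.mul_le_mul_left _ (by omega))) fun z z1 z2 => ?_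
      have f1 := lin2 (V m - z) (by omega)
      have f2 : V (m + (V m - z)) = z := by omega
      have i1 := (wk (m + (V m - z)) (by omega)).1
      have f3 : a - (m + (V m - z)) < p _ (U (m + (V m - z))) := (D.d2 i1).1
      have f4 : p _ (V (m + (V m - z))) = _ := (D.pv _ _ (by have := i1.1; omega)).2.2
      rw [m2 _ (by omega)] at f3
      rw [f2] at f4
      exact D.inv_le (Nat.zero_le (s + (m + (V m - z)))) hm0.1 (by omega) (by omega) (by omega)
    rcases hm0.1.eq_or_lt with e | e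
    · rwa [← e] at e2
    · have i1 := (wk m (by omega)).1
      have f1 : a - m ≤ p (s + m) 1 := by
        by_contra hc
        have := i1.mono (pos1 m (by omega)) (not_le.1 hc).le
        rw [D.vp _ 1 le_rfl hn] at this
        have := (D.pv (s + m) 0 hn).1
        omega
      have f2 := (D.out i1 le_rfl hn).2 f1
      have f3 : p (s + m + 1) (U m) = a - m := (D.pv _ _ (by have := i1.1; omega)).2.2
      have f4 := D.tri (s + m + 1) le_rfl hn hm0.1 (by omega) e.ne
      have := D.inv_le (Nat.zero_le (s + m + 1)) le_rfl e (by omega) (by omega)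
      omega
  · exfalso
    obtain ⟨y, rfl⟩ : ∃ y, x = y + 1 := ⟨x - 1, by omega⟩
    have e0 := UV (m + 2 * y) (by omega)
    have e1 := lin2 (2 * y) (by omega)
    have e2 := lin2 1 (by omega)
    obtain ⟨i, i1, i2⟩ := g4 (V (m + 2 * y) - 1) c (by omega) c1 (by
      have : 2 * c * (y + 1) = c * (2 * y) + 2 * c := by ring
      omega)
    obtain ⟨z, rfl⟩ : ∃ z, y = i + z := ⟨y - i, by omega⟩
    have e3 := lin2 (2 * z) (by omega)
    have e4 := lin2 (2 * z + 1) (by omega)
    have e5 : c * (2 * (i + z)) = 2 * c * i + c * (2 * z) := by ring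
    rw [show V (m + 2 * (i + z)) - 1 + 2 * c * i = V (m + 2 * z) - 1 by omega,
      show V (m + 2 * z) - 1 + 1 = V (m + 2 * z) by omega] at i2
    have e6 := (st (m + 2 * z) (by omega)).1
    rw [add_assoc m, ← Nat.sub_add_eq] at e6
    rw [mul_add, mul_one] at e4
    obtain ⟨j1, j2⟩ := wk (m + 2 * z) (by omega)
    have f4 : p _ (V (m + 2 * z)) = _ := (D.pv _ _ (by have := j1.1; omega)).2.2
    have f1 : ¬p (s + (m + 2 * z)) (V (m + 2 * z) - 1) < a - (m + 2 * z) := fun hc => by
      have := j1.mono' (b := p (s + (m + 2 * z)) (V (m + 2 * z) - 1)) (c := a - (m + 2 * z + 1))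
        (by omega) (by omega)
      rw [D.vp _ _ (by omega) (by omega)] at this
      omega
    have f2 := D.tri (s + (m + 2 * z)) (a := V (m + 2 * z) - 1) (b := V (m + 2 * z)) (by omega)
      (by omega) (by omega) (by omega) (by omega)
    have := D.inv_le (a := V (m + 2 * z)) (b := V (m + 2 * z) - 1)
      (Nat.zero_le (s + (m + 2 * z))) (by omega) (by omega) (by omega) (by omega)
    omega

end Dyn

end Pool.Agent.StackSort
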