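import Pool.Agent.P.MP_f1060b_co.QStage
import Pool.Agent.P.MP_f1060b_co.QDesc

namespace Pool.Agent.StackSort

open Finset

variable {q x n k i : ℕ} {p v : ℕ → ℕ → ℕ} {P w : ℕ → ℕ}

/-- What the first stage gives. -/
structure St (n k x : ℕ) (p : ℕ → ℕ → ℕ) (P w : ℕ → ℕ) (i : ℕ) : Prop where
  hI : i ≤ x ^ 7
  hk : i < k
  sig : el n p i (w i) ≤ el n p (i + 1) (w i) + 1
  len : i + (P i - w i) = k
  le : ∀ t < i, w t ≤ w i
  fin : n ≤ p 0 (w i) + x ^ 8
  top : n ≤ P i + 2 * x ^ 8
  sum : k + w i ≤ n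
  big : x ^ 244 ≤ 2 * (P i - w i)
  area : ∀ z, P i - w i ≤ 4 * z → x * n ≤ x ^ 8 * z
  run : ∀ t, i ≤ t → t < k → w t = w i ∧ P t + t = w i + k

namespace Dyn

variable (D : Dyn n k p v P w)
include D

lemma exists_St (h : Par q x n) (g1 : G1 n x (p 0)) (g2 : G2 n x (p 0)) (g3 : G3 n q x (p 0))
    (hF : 1 < FF k P w k) : ∃ i, St n k x p P w i ∧ FF k P w k < 2 := by
  obtain ⟨i, h1, h2, h3, h4, h5, h6, h7⟩ := D.stage1 h g1 g2 g3 hF
  have W := D.walk i h2
  have W0 := D.walk 0 (by omega)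
  have e1 := D.big_end (D.sig_G1 g1) g2 h.hM h2 h5
  have e2 : x * i ≤ x ^ 8 := (Nat.mul_le_mul_left x h1).trans (le_of_eq (by ring))
  have e3 := D.P_le (Nat.zero_le i) h2
  obtain ⟨j1, -, j3⟩ := h.js
  refine ⟨i, ⟨h1, h2, h3, h4, h6, e1.1, by omega, by omega, by omega, fun z hz => ?_,
    fun t t1 t2 => ?_⟩, h7⟩
  · calc x * n ≤ x * (2 * (n / x ^ 6) * x ^ 6) := Nat.mul_le_mul_left _ j3
      _ ≤ x * (2 * (8 * z) * x ^ 6) := by gcongr; omega
      _ = 16 * x ^ 7 * z := by ring
      _ ≤ _ := Nat.mul_le_mul_right _ (h.pw 16 7 8 (by norm_num) (by norm_num))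
  · have := D.crun h2 h3 (t - i) (by omega)
    rw [show i + (t - i) = t by omega] at this
    omega

lemma top_end (h : Par q x n) (S : St n k x p P w i) (g1 : G1 n x (p 0)) (g2 : G2 n x (p 0)) :
    ∃ z, z ≤ n ∧ n < z + x ^ 17 ∧ n ≤ p 0 z + x ^ 17 ∧ p 0 z < p 0 (w i) := by
  by_contra hc
  have W := D.walk i S.hk
  have p1 := h.pw 8 17 244 (by norm_num) (by norm_num)
  have p2 := h.pw 1 16 17 (by norm_num) (by norm_num)
  have p3 := h.pw 3 8 16 (by norm_num) (by norm_num)
  have p4 := h.pw 2 16 17 (by norm_num) (by norm_num)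
  have p5 : (x ^ 8 + 1) * x ^ 8 = x ^ 16 + x ^ 8 := by ring
  have p6 : 0 < x ^ 8 := by have := h.big; positivity
  have s1 := S.fin
  have s2 := S.top
  have s3 := S.big
  have h1 := g2.many (a := n - x ^ 17) (c := w i + 1) (d := n - x ^ 17 + 1) (by omega) (by omega)
    (S.area _ (by omega)) (x ^ 8 + 1) (by omega)
  set V := (Ico (w i + 1) (n - x ^ 17 + 1)).filter fun u =>
    n - x ^ 17 ≤ p 0 u ∧ p 0 u < n - x ^ 17 + (x ^ 8 + 1) * x ^ 8 with hV
  have hm : ∀ u ∈ V, w i < u ∧ u + x ^ 17 ≤ n ∧ n ≤ p 0 u + x ^ 17 ∧ p 0 u < p 0 (w i) := by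
    intro u hu
    simp only [hV, mem_filter, mem_Ico] at hu
    omega
  have inv : ∀ t z, z ≤ n → n < z + x ^ 17 → p t z < p t (w i) → ∀ u ∈ V, p t z < p t u := by
    intro t
    induction t with
    | zero =>
      intro z z1 z2 z3 u hu
      have := hm u hu
      by_contra hh
      exact hc ⟨z, z1, z2, by omega, z3⟩
    | succ t ih =>
      intro z z1 z2 z3 u hu
      have := hm u hu
      obtain ⟨c, c1, c2, c3, c4⟩ := (D.rule t z _ W.1 (by omega) z1).1 z3
      exact (D.rule t z u (by omega) (by omega) z1).2 ⟨c, c1, c2, c3, ih c c2 (by omega) c4 u hu⟩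
  have h2 : el n p i (w i) + V.card ≤ el n p 0 (w i) := by
    rw [el, ← card_union_of_disjoint]
    · refine card_le_card fun a ha => ?_
      rw [mem_union, mem_el] at ha
      rw [mem_el]
      rcases ha with ha | ha
      · exact ⟨ha.1, ha.2.1, D.inv_le (Nat.zero_le i) W.1 ha.1 ha.2.1 ha.2.2⟩
      · have := hm a ha
        omega
    · refine disjoint_left.2 fun a a1 a2 => ?_
      rw [mem_el] at a1
      have e1 := hm a a2
      have e2 := inv i (P i) W.2.2.1 (by omega) (D.last S.hk (by omega) le_rfl (by omega)) a a2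
      have e3 := D.le_P S.hk a1.2.1 W.1 W.2.1.le a1.2.2
      have := D.top_last S.hk S.sig a1.1 (by omega)
      omega
  have h3 := D.el_le_add W.1 (by omega) (Nat.zero_le i) (D.sig_G1 g1 0 _ W.1 (by omega))
  have e2 : x * i ≤ x ^ 8 := (Nat.mul_le_mul_left x S.hI).trans (le_of_eq (by ring))
  rw [Nat.sub_zero] at h3
  omega

lemma fixed_of_dead {t u : ℕ} (h1 : 1 ≤ u) (h2 : u ≤ n)
    (h : ∀ a, 1 ≤ a → a < u → el n p t a = 0) : p t u + 1 = el n p t u + u := by
  refine le_antisymm (D.pos_le h1 h2) ?_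
  rw [D.pos_eq h1 h2]
  have : ((Ioc u n).filter fun a => p t a < p t u).card + (Ico 1 u).card ≤
      ((Icc 1 n).filter fun a => p t a < p t u).card := by
    rw [← card_union_of_disjoint]
    · refine card_le_card fun a ha => ?_
      simp only [mem_union, mem_filter, mem_Ioc, mem_Ico, mem_Icc] at ha ⊢
      rcases ha with ha | ha
      · omega
      · exact ⟨by omega, (D.el_zero ha.1 (by omega)).1 (h a ha.1 ha.2) u ha.2 h2⟩
    · refine disjoint_left.2 fun a a1 a2 => ?_
      simp only [mem_filter, mem_Ioc, mem_Ico] at a1 a2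
      omega
  rw [Nat.card_Ico] at this
  unfold el
  omega

lemma early_late (h : Par q x n) (S : St n k x p P w i) (L : LP n k v P) (g2 : G2 n x (p 0))
    {u : ℕ} (u1 : 1 ≤ u) (u2 : u ≤ n) (hu : ∀ a, 1 ≤ a → a < u → el n p (x ^ 8) a = 0) :
    el n p (x ^ 8) u = 0 ∨ el n p (k - x ^ 8) u ≠ 0 := by
  classical
  by_contra hc
  have hex : ∃ s, el n p s u = 0 := ⟨k, D.el_fin u1 u2⟩
  have t1 := Nat.find_spec hex
  have t2 := Nat.find_min' hex (m := k - x ^ 8) (by omega)
  have t3 := fun m => Nat.find_min hex (m := m)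
  have t4 : x ^ 8 < Nat.find hex := by
    by_contra hh
    have := D.el_anti (not_lt.1 hh) u1
    omega
  obtain ⟨t, ht⟩ : ∃ t, Nat.find hex = t + 1 := ⟨Nat.find hex - 1, by omega⟩
  rw [ht] at t1 t2 t3 t4
  have p3 := h.pw 1 7 8 (by norm_num) (by norm_num)
  have s1 := S.hI
  have s2 := S.len
  have s3 := S.sum
  have dead : ∀ s, t ≤ s → ∀ a, 1 ≤ a → a < u → el n p s a = 0 := fun s hs a a1 a2 => by
    have := D.el_anti (by omega : x ^ 8 ≤ s) a1
    have := hu a a1 a2
    omega
  have fx : ∀ a, 1 ≤ a → a < u → p t a + 1 = a := fun a a1 a2 => by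
    have := D.fixed_of_dead (t := t) a1 (by omega) fun b b1 b2 => dead t le_rfl b b1 (by omega)
    have := dead t le_rfl a a1 a2
    omega
  have hd := D.div L (t := t) (a := u - 1) (by omega) (by omega) fun s s1 s2 => by
    have e1 := D.fixed_of_dead (t := s) u1 u2 (dead s s1.le)
    have e2 := D.el_anti (by omega : t + 1 ≤ s) u1
    rw [show u - 1 = p s u by omega, D.vp s u u1 u2]
    omega
  have H := D.pv t (u - 1) (by omega)
  have h1 : u < v t (u - 1) := by
    rcases lt_trichotomy (v t (u - 1)) u with e | e | e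
    · have := fx _ H.1 e
      omega
    · have := D.fixed_of_dead (t := t) u1 u2 (dead t le_rfl)
      have := t3 t (by omega)
      rw [e] at H
      omega
    · exact e
  have h2 := Int.le_of_dvd (by omega) hd
  have h3 := S.run t (by omega) (by omega)
  obtain ⟨d, d1, d2, d3, d4⟩ := g2 0 (t + 1) u (u + (k - t)) (by omega) u1 (by omega) (by
    rw [Nat.sub_zero, Nat.add_sub_cancel_left]
    rcases le_total (t + 1) (k - t) with e | e
    · exact (S.area (k - t) (by omega)).trans (Nat.mul_le_mul_right _ (by omega))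
    · rw [mul_comm (t + 1)]
      exact (S.area (t + 1) (by omega)).trans (Nat.mul_le_mul_right _ (by omega)))
  have h4 := D.dead_pre (a := u - 1) (by omega) (by omega)
    (D.dead (t := t) (d := d) (by omega) (by omega) (by omega)) (by omega)
  have h5 := fx (p t d + 1) (by omega) (by omega)
  have := D.inj (t := t) (a := p t d + 1) (b := d) (by omega) (by omega) (by omega) (by omega)
    (by omega)
  omega

lemma left_of (h : Par q x n) (S : St n k x p P w i) (g1 : G1 n x (p 0)) (g2 : G2 n x (p 0))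
    (hy : x ^ 10 < w i) {u : ℕ} (u1 : 1 ≤ u) (u2 : u ≤ 2) : p 0 u < p 0 (w i) := by
  have W := D.walk i S.hk
  have p1 := h.pw 8 9 10 (by norm_num) (by norm_num)
  have p2 := h.pw 1 8 9 (by norm_num) (by norm_num)
  have p3 := h.pw 1 7 8 (by norm_num) (by norm_num)
  have p4 := h.pw 4 8 244 (by norm_num) (by norm_num)
  have p6 : 0 < x ^ 8 := by have := h.big; positivity
  have s1 := S.hI
  have s2 := S.len
  have s3 := S.sum
  have s4 := S.big
  have s5 := S.fin
  rcases D.tri 0 (a := u) (b := w i) u1 (by omega) W.1 (by omega) (by omega) with e | e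
  · exact e
  have a1 := D.inc (Nat.zero_le i) u1 (by omega) e (P i) W.2.1 W.2.2.1
    (D.last S.hk (by omega) le_rfl (by omega))
  have a2 := D.rset g2 S.hk S.sig (S.area _ (by omega)) (by omega) u1 (by omega) a1
  have a3 := D.el_le_mul u1 (by omega) (by omega) a2
  have a4 := D.el_le_add u1 (by omega) (Nat.zero_le (i + x ^ 8)) (D.sig_G1 g1 0 _ u1 (by omega))
  have a5 : x * (i + x ^ 8 - 0) ≤ x * (2 * x ^ 8) := Nat.mul_le_mul_left x (by omega)
  have a6 : x * (2 * x ^ 8) = 2 * x ^ 9 := by ring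
  have a7 := D.pos_le (t := 0) u1 (by omega)
  omega

lemma one_case {S : ℕ} (L : LP n k v P) (hw : ∀ t < k, w t = 1) (hk : 3 ≤ k) (hS : 4 ≤ S)
    (hn : 2 * S < n) (hF : 1 < FF k P w k) {z : ℕ} (z1 : z ≤ n) (z2 : n < z + S)
    (z3 : n ≤ p 0 z + S) (z4 : p 0 z < p 0 1) : MainP n (p 0) ∨ Three n S (p 0) := by
  have W0 := D.walk 0 (by omega)
  have W1 := D.walk 1 (by omega)
  have W2 := D.walk 2 (by omega)
  have E0 := D.el_walk (t := 0) (by omega)
  have E1 := D.el_walk (t := 1) (by omega)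
  have E2 := D.el_walk (t := 2) (by omega)
  rw [hw _ (by omega)] at W0 W1 W2 E0 E1 E2
  have sp1 : Spec n S (p 0) 1 := ⟨le_rfl, by omega, by omega, by omega⟩
  rcases W0.2.2.1.eq_or_lt with h0 | h0
  swap
  · have := D.fix 0 (by omega) n h0 le_rfl
    exact Or.inr ⟨z, n, 1, by rintro rfl; omega, by omega, by omega,
      ⟨by omega, z1, by omega, by omega⟩, ⟨by omega, le_rfl, by omega, by omega⟩, sp1⟩
  have h1 : P 1 + 2 ≤ n := by
    by_contra hc
    have := FF_add_le (k := k) (P := P) (w := w) (c := ((1 : ℕ) : ℝ)) 0 k fun t _ t2 =>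
      D.f_le (by omega) (by
        rw [hw t (by omega)]
        exact D.sig_le le_rfl (by omega) (Nat.zero_le t) (by rw [zero_add]; omega))
    rw [zero_add, FF, FF, prod_range_zero] at this
    simp only [Nat.cast_one, one_pow, mul_one] at this
    exact absurd (hF.trans_le this) (lt_irrefl _)
  have col : ∀ a, a + 1 < n → 1 ≤ a → (∀ s, 0 < s → s < k → p s (a + 1) = a) → p 0 (a + 1) = a := by
    intro a a1 a2 ha
    have hd := D.div L (t := 0) (a := a) (by omega) (by omega) fun s s1 s2 => by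
      conv_lhs => rw [← ha s s1 s2]
      exact D.vp s _ (by omega) (by omega)
    have H := D.pv 0 a (by omega)
    rw [hw 0 (by omega)] at hd
    have h3 : v 0 a ≠ 1 := fun e => by rw [e] at H; omega
    have := Int.eq_zero_of_abs_lt_dvd hd (by rw [abs_lt]; omega)
    rw [show a + 1 = v 0 a by omega]
    exact H.2.2
  have h2 : p 0 (n - 1) = n - 2 := by
    have := col (n - 2) (by omega) (by omega) fun s s1 s2 => by
      have := D.P_le (s := 1) s1 s2
      have := D.fix s s2 (n - 2 + 1) (by omega) (by omega)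
      omega
    rwa [show n - 2 + 1 = n - 1 by omega] at this
  have lo : ∀ a, 2 ≤ a → a ≤ n → a ≠ n - 1 → p 0 a < n - 2 := fun a a1 a2 a3 => by
    have := D.lt 0 a (by omega) a2
    have := D.tri 0 (a := a) (b := 1) (by omega) a2 le_rfl (by omega) (by omega)
    have := D.tri 0 (a := a) (b := n - 1) (by omega) a2 (by omega) (by omega) a3
    omega
  have inl : ∀ a, 2 ≤ a → a + 2 ≤ n → p 1 a < p 1 1 := fun a a1 a2 =>
    (D.rule 0 a 1 le_rfl a1 (by omega)).2 ⟨n - 1, by omega, by omega,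
      by have := lo a a1 (by omega) (by omega); omega, by omega⟩
  have h3 : P 1 + 2 = n := by
    have := D.le_P (t := 1) (a := n - 2) (by omega) (by omega) le_rfl (by omega)
      (inl _ (by omega) (by omega))
    omega
  have sp2 : Spec n S (p 0) (n - 1) := ⟨by omega, by omega, by omega, by omega⟩
  rcases D.tri 0 (a := n) (b := n - 2) (by omega) le_rfl (by omega) (by omega) (by omega)
    with e | e
  · exact Or.inl ⟨by omega, by omega, e⟩
  right
  by_cases h4 : p 0 n = n - 3
  · exact ⟨n, n - 1, 1, by omega, by omega, by omega, ⟨by omega, le_rfl, by omega, by omega⟩,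
      sp2, sp1⟩
  have l1 := lo n (by omega) le_rfl (by omega)
  have B := D.pv 0 (n - 3) (by omega)
  have b1 : v 0 (n - 3) ≠ 1 := fun e => by rw [e] at B; omega
  have b2 : v 0 (n - 3) ≠ n - 1 := fun e => by rw [e] at B; omega
  have b3 : v 0 (n - 3) ≠ n - 2 := fun e => by rw [e] at B; omega
  have b4 : v 0 (n - 3) ≠ n := fun e => by rw [e] at B; omega
  have b5 := (D.rule 0 (n - 2) _ B.1 (by omega) (by omega)).2 ⟨n, by omega, le_rfl, e, by omega⟩
  have b6 := inl (v 0 (n - 3)) (by omega) (by omega)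
  rw [zero_add] at b5
  have H := D.pv 1 (n - 4) (by omega)
  have c1 : v 1 (n - 4) ≠ 1 := fun e => by rw [e] at H; omega
  have c2 : v 1 (n - 4) ≠ n - 2 := fun e => by rw [e] at H; omega
  have c3 := D.le_P (t := 1) (by omega) H.2.1 le_rfl (by omega) (by omega : p 1 _ < p 1 1)
  have c4 : P 2 < v 1 (n - 4) := by
    by_contra hc
    have := D.last (t := 2) (by omega) H.1 (not_lt.1 hc) (by rw [hw 2 (by omega)]; exact c1)
    rw [hw 2 (by omega)] at this
    obtain ⟨c, -, -, _, _⟩ := (D.rule 1 _ 1 le_rfl (by omega) H.2.1).1 this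
    omega
  have c5 := D.conv 0 1 le_rfl (by omega)
  simp only [zero_add] at c5
  have h5 := col (n - 4) (by omega) (by omega) fun s s1 s2 => by
    rcases (show s = 1 ∨ 2 ≤ s by omega) with rfl | s3
    · rw [show n - 4 + 1 = v 1 (n - 4) by omega]
      exact H.2.2
    · have := D.P_le s3 s2
      have := D.fix s s2 (n - 4 + 1) (by omega) (by omega)
      omega
  exact ⟨n - 4 + 1, n - 1, 1, by omega, by omega, by omega,
    ⟨by omega, by omega, by omega, by omega⟩, sp2, sp1⟩

lemma clean_pos {J : ℕ} (S : St n k x p P w i) (g1 : G1 n x (p 0)) (hx : 1 ≤ x) (hJ : i + J ≤ k)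
    (hc : ∀ u, 1 ≤ u → u ≤ n → u ≠ w i → u ≤ w i + x * J → w i ≤ u + x * J →
      el n p (k - J) u = 0) {t c : ℕ} (t1 : k - J ≤ t) (t2 : t < k) (c1 : w i < c)
    (c2 : c ≤ P t) : p t c + 2 = c := by
  have W := D.walk t t2
  obtain ⟨r1, r2⟩ := S.run t (by omega) t2
  have hJ2 : J ≤ x * J := Nat.le_mul_of_pos_left _ hx
  have dead : ∀ u, 1 ≤ u → u ≤ n → u ≠ w i → u ≤ w i + x * J → w i ≤ u + x * J →
      el n p t u = 0 := fun u a1 a2 a3 a4 a5 => by
    have := D.el_anti t1 a1
    have := hc u a1 a2 a3 a4 a5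
    omega
  have low : ∀ m u, 1 ≤ u → u < w i → w i - u ≤ m → ∀ b, w i < b → b ≤ n → p t u < p t b := by
    intro m
    induction m with
    | zero => intro u _ _ _; omega
    | succ m ih =>
      intro u a1 a2 a3 b b1 b2
      by_contra hh
      have e0 := D.tri t a1 (by omega) (by omega : 1 ≤ b) b2 (by omega)
      have e1 : insert b (Ioo u (w i)) ⊆ (Ioc u n).filter fun a => p t a < p t u := by
        intro a ha
        rw [mem_insert, mem_Ioo] at ha
        rw [mem_el]
        rcases ha with rfl | ha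
        · omega
        · have := ih a (by omega) ha.2 (by omega) b b1 b2
          omega
      have e2 := card_le_card e1
      rw [card_insert_of_notMem (by simp; omega), Nat.card_Ioo] at e2
      have e3 := D.el_le_mul a1 (by omega) t2.le (D.sig_G1 g1 t u a1 (by omega))
      have e4 := Nat.mul_le_mul_left x (by omega : k - t ≤ J)
      have := dead u a1 (by omega) (by omega) (by omega) (by unfold el at e3; omega)
      unfold el at this
      omega
  have : ((Icc 1 n).filter fun a => p t a < p t c) = (Ico 1 c).erase (w i) := by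
    ext a
    simp only [mem_filter, mem_Icc, mem_erase, mem_Ico]
    constructor
    · rintro ⟨⟨a1, a2⟩, a3⟩
      have e1 := D.last t2 (by omega : 1 ≤ c) c2 (by omega)
      refine ⟨by rintro rfl; rw [r1] at e1; omega, a1, ?_⟩
      by_contra hh
      have e2 : a ≠ c := by rintro rfl; omega
      have := (D.el_zero (by omega) (by omega)).1
        (dead c (by omega) (by omega) (by omega) (by omega) (by omega)) a (by omega) a2
      omega
    · rintro ⟨a1, a2, a3⟩
      refine ⟨⟨a2, by omega⟩, ?_⟩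
      rcases lt_or_gt_of_ne a1 with e | e
      · exact low _ a a2 e le_rfl c c1 (by omega)
      · exact (D.el_zero a2 (by omega)).1
          (dead a a2 (by omega) a1 (by omega) (by omega)) c a3 (by omega)
  rw [D.pos_eq (by omega) (by omega), this, card_erase_of_mem (mem_Ico.2 ⟨by omega, c1⟩),
    Nat.card_Ico]
  omega

lemma clean_cong {s : ℕ} (S : St n k x p P w i) (L : LP n k v P) (hs : i ≤ s)
    (hc : ∀ t c, s ≤ t → t < k → w i < c → c ≤ P t → p t c + 2 = c) {t a : ℕ} (t1 : s ≤ t)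
    (t2 : t + 1 < k) (ha : a < n) : ((k - t : ℕ) : ℤ) ∣ (v t a : ℤ) - v (t + 1) a := by
  obtain ⟨c, h⟩ := L a ha
  have row : ∀ t, s ≤ t → t < k → ∑ j ∈ range k, c j * ((v t (P j - 1) : ℤ) - P j) =
      -(c t * (k - t : ℕ)) + ∑ j ∈ Ico (t + 1) k, c j := by
    intro t t1 t2
    have W := D.walk t t2
    obtain ⟨r1, r2⟩ := S.run t (by omega) t2
    rw [← sum_range_add_sum_Ico _ (by omega : t + 1 ≤ k), sum_range_succ, sum_eq_zero, zero_add,
      D.piv_diag t2]
    · congr 1
      · rw [show (w t : ℤ) - P t = -((k - t : ℕ) : ℤ) by omega, mul_neg]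
      · refine sum_congr rfl fun j hj => ?_
        rw [mem_Ico] at hj
        have W' := D.walk j hj.2
        obtain ⟨r3, r4⟩ := S.run j (by omega) hj.2
        have := hc t (P j + 1) t1 t2 (by omega) (by omega)
        rw [show P j - 1 = p t (P j + 1) by omega, D.vp t _ (by omega) (by omega)]
        simp
    · intro j hj
      rw [D.piv_zero (mem_range.1 hj) t2, sub_self, mul_zero]
  have e1 := h t (by omega)
  have e2 := h (t + 1) t2
  rw [row t t1 (by omega), sum_eq_sum_Ico_succ_bot t2] at e1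
  rw [row _ (by omega) t2] at e2
  refine ⟨c (t + 1) - c t, ?_⟩
  rw [show ((k - t : ℕ) : ℤ) = (k - (t + 1) : ℕ) + 1 by omega] at e1 ⊢
  linear_combination e1 - e2

lemma unclean (h : Par q x n) (S : St n k x p P w i) (g2 : G2 n x (p 0)) {u : ℕ} (u1 : 1 ≤ u)
    (u3 : u ≤ w i + x ^ 83) (u4 : w i ≤ u + x ^ 83) (hu : el n p (k - x ^ 82) u ≠ 0) :
    n ≤ p 0 u + x ^ 92 := by
  by_contra hc
  have W := D.walk i S.hk
  have p1 := h.pw 3 91 92 (by norm_num) (by norm_num)
  have p2 := h.pw 8 83 244 (by norm_num) (by norm_num)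
  have p3 := h.pw 2 82 83 (by norm_num) (by norm_num)
  have p4 := h.pw 4 8 83 (by norm_num) (by norm_num)
  have p5 : 3 * x ^ 83 * x ^ 8 = 3 * x ^ 91 := by ring
  have s2 := S.len
  have s3 := S.top
  have s4 := S.big
  have h1 := g2.many (a := p 0 u + 1) (c := u + 1) (d := n + 1) (by omega) le_rfl
    (S.area _ (by omega)) (3 * x ^ 83) (by omega)
  have h2 : el n p 0 u + ((Ico (u + 1) (n + 1)).filter fun b =>
      p 0 u + 1 ≤ p 0 b ∧ p 0 b < p 0 u + 1 + 3 * x ^ 83 * x ^ 8).card ≤ (Ioc u n).card := by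
    rw [el, ← card_union_of_disjoint]
    · refine card_le_card fun a ha => ?_
      simp only [mem_union, mem_filter, mem_Ioc, mem_Ico] at ha ⊢
      omega
    · refine disjoint_left.2 fun a a1 a2 => ?_
      simp only [mem_filter] at a1 a2
      omega
  have h3 := D.el_drop (s := 0) u1 (k - x ^ 82)
  rw [Nat.card_Ioc] at h2
  rw [zero_add] at h3
  omega

theorem outcome (h : Par q x n) (g1 : G1 n x (p 0)) (g2 : G2 n x (p 0)) (g3 : G3 n q x (p 0))
    (g4 : G4 n x (p 0)) (T : ℕ → ℕ)
    (hT : ∀ u t, 1 ≤ u → u ≤ n → (el n p t u = 0 ↔ T u ≤ t)) (hF : 1 < FF k P w k)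
    (hL : FF k P w k < 2 → LP n k v P) :
    MainP n (p 0) ∨ Three n (x ^ 17) (p 0) ∨ Eps n (x ^ 17) (n / x ^ 70 + 1) (p 0) T ∨
      Del n (x ^ 17) (x ^ 92) (x ^ 83) (p 0) T := by
  obtain ⟨i, S, h2⟩ := D.exists_St h g1 g2 g3 hF
  have L := hL h2
  obtain ⟨z, z1, z2, z3, z4⟩ := D.top_end h S g1 g2
  have W := D.walk i S.hk
  have hx := h.big
  have p0 : 4 ≤ x ^ 7 := by
    have := h.pw 4 0 7 (by norm_num) (by norm_num)
    rwa [pow_zero] at this
  have p1 := h.pw 8 7 8 (by norm_num) (by norm_num)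
  have p2 := h.pw 8 8 9 (by norm_num) (by norm_num)
  have p3 := h.pw 8 9 10 (by norm_num) (by norm_num)
  have p4 := h.pw 8 10 17 (by norm_num) (by norm_num)
  have p5 := h.pw 8 17 81 (by norm_num) (by norm_num)
  have p6 := h.pw 8000 81 82 (by norm_num) (by norm_num)
  have p7 := h.pw 8 82 83 (by norm_num) (by norm_num)
  have p8 := h.pw 8 83 91 (by norm_num) (by norm_num)
  have p9 := h.pw 8 91 92 (by norm_num) (by norm_num)
  have p10 := h.pw 8 92 244 (by norm_num) (by norm_num)
  have p11 : x ^ 92 ≤ n / x ^ 70 := (Nat.le_div_iff_mul_le (by positivity)).2 (by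
    rw [← pow_add]
    exact (Nat.pow_le_pow_right (by omega) (by norm_num)).trans h.lo)
  have p12 : x * x ^ 8 = x ^ 9 := by ring
  have p13 : x * x ^ 82 = x ^ 83 := by ring
  have s1 := S.hI
  have s2 := S.len
  have s3 := S.sum
  have s4 := S.big
  have s5 := S.fin
  have s6 := S.top
  have hn : 2 ≤ n := by omega
  have early : ∀ u, 1 ≤ u → u ≤ 2 → el n p (x ^ 8) u = 0 → p 0 u ≤ x ^ 9 + 1 := by
    intro u a1 a2 a3
    have := D.el_le_add a1 (by omega) (Nat.zero_le (x ^ 8)) (D.sig_G1 g1 0 u a1 (by omega))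
    have := D.pos_le (t := 0) a1 (by omega)
    rw [Nat.sub_zero] at *
    omega
  have spz : Spec n (x ^ 17) (p 0) z := ⟨by omega, z1, Or.inr z2, Or.inr z3⟩
  have tez : TE n (x ^ 17) (p 0) z := ⟨by omega, z1, z2, z3⟩
  have zy : z ≠ w i := by rintro rfl; omega
  rcases W.1.eq_or_lt with y1 | y1
  · have hw : ∀ t < k, w t = 1 := fun t ht => by
      have := (D.walk t ht).1
      rcases lt_or_ge t i with e | e
      · have := S.le t e
        omega
      · have := (S.run t e ht).1
        omega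
    rw [← y1] at z4
    rcases D.one_case L hw (by omega) (by omega) (by omega) hF z1 z2 z3 z4 with e | e
    · exact Or.inl e
    · exact Or.inr (Or.inl e)
  right
  have el1 := D.early_late h S L g2 (u := 1) le_rfl (by omega) fun a _ _ => by omega
  rcases le_or_gt (w i) (x ^ 10) with y2 | y2
  · refine Or.inl ⟨z, w i, 1, zy, by omega, by omega, spz,
      ⟨W.1, by omega, by omega, by omega⟩, le_rfl, by omega, by omega, ?_⟩
    rcases el1 with e | e
    · have := early 1 le_rfl (by omega) e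
      omega
    · have := D.el_drop (s := 0) (u := 1) le_rfl (k - x ^ 8)
      have := D.el_le_pos (t := 0) (u := 1) le_rfl (by omega)
      rw [zero_add] at *
      omega
  have pin : ∀ u, 1 ≤ u → u ≤ 2 → el n p (k - x ^ 8) u ≠ 0 → Pin n (x ^ 17) (p 0) T u (w i) := by
    intro u a1 a2 a3
    have b1 := (hT u k a1 (by omega)).1 (D.el_fin a1 (by omega))
    have b2 := mt (hT u (k - x ^ 8) a1 (by omega)).2 a3
    exact ⟨by omega, by omega, D.left_of h S g1 g2 y2 a1 a2, by omega, by omega, by omega⟩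
  rcases el1 with e | e
  · have a1 := early 1 le_rfl (by omega) e
    rcases D.early_late h S L g2 (u := 2) (by omega) hn fun a _ _ => by
      rwa [show a = 1 by omega] with e2 | e2
    · have a2 := early 2 (by omega) le_rfl e2
      exact Or.inl ⟨z, 1, 2, by omega, by omega, by omega, spz,
        ⟨le_rfl, by omega, by omega, by omega⟩, ⟨by omega, hn, by omega, by omega⟩⟩
    · exact Or.inr (Or.inl ⟨2, w i, z, Or.inr rfl, pin 2 (by omega) le_rfl e2, tez, zy, by omega⟩)
  right
  have pn := pin 1 le_rfl (by omega) e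
  by_cases hc : ∀ u, 1 ≤ u → u ≤ n → u ≠ w i → u ≤ w i + x * x ^ 82 → w i ≤ u + x * x ^ 82 →
      el n p (k - x ^ 82) u = 0
  · refine Or.inl ⟨1, w i, z, Or.inl rfl, pn, tez, zy, Or.inr ?_⟩
    refine D.descent (s := k - x ^ 82) (L := 1000 * x ^ 81) (g := x ^ 8) (b := 1000 * x ^ 81)
      (lam := x ^ 71) (r := x ^ 10) (B := x ^ 91) g2 g4 (by omega) (fun m hm => ?_) ?_ (by omega)
      (by omega) ?_ (by omega) ?_ ?_ (by omega) (by omega) ?_ (fun t ht c c1 c2 => ?_)
      fun t t1 t2 a ha => ?_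
    · have := D.el_anti (by omega : k - x ^ 82 + m ≤ k - x ^ 8) (le_refl 1)
      omega
    · have := D.el_le_mul (s := k - x ^ 82) le_rfl (by omega) (by omega)
        (D.sig_G1 g1 _ 1 le_rfl (by omega))
      rw [show k - (k - x ^ 82) = x ^ 82 by omega] at this
      exact (Nat.mul_le_mul_right _ this).trans (le_of_eq (by ring))
    · have : x ^ 10 * (1000 * x ^ 81) = 1000 * x ^ 91 := by ring
      omega
    · have : x ^ 10 * (x ^ 71 + 2) = x ^ 81 + 2 * x ^ 10 := by ring
      omega
    · have := h.pw 2 1 71 (by norm_num) (by norm_num)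
      rwa [pow_one] at this
    · have := Nat.lt_div_mul_add (a := n) (by positivity : 0 < x ^ 70)
      calc x * n ≤ x * (n / x ^ 70 * x ^ 70 + x ^ 70) := Nat.mul_le_mul_left _ this.le
        _ = _ := by ring
    · obtain ⟨d, d1, d2, -, d4⟩ := g2 0 (k - x ^ 82 + 1) c (c + x ^ 8) (by omega) c1 c2 (by
        rw [Nat.sub_zero, Nat.add_sub_cancel_left, mul_comm _ (x ^ 8)]
        exact S.area _ (by omega))
      have := D.dead (t := k - x ^ 82) (d := d) (by omega) (by omega) (by omega)
      have := D.el_anti ht (by omega : 1 ≤ d)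
      exact ⟨d, d1, d2, by omega⟩
    · exact D.clean_cong S L (by omega) (fun t c a1 a2 a3 a4 =>
        D.clean_pos S g1 (by omega) (by omega) hc a1 a2 a3 a4) t1 (by omega) ha
  · push Not at hc
    obtain ⟨u, u1, u2, u3, u4, u5, u6⟩ := hc
    have a1 := D.unclean h S g2 u1 (by omega) (by omega) u6
    by_cases a2 : p 0 1 < p 0 u
    · exact Or.inr ⟨w i, u, z, pn, tez, zy, by omega, u3, by
        by_contra hh
        rw [show u = 1 by omega] at a2
        omega, u2, a2, a1, by omega, by omega⟩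
    · exact Or.inl ⟨1, w i, z, Or.inl rfl, pn, tez, zy, by omega⟩

end Dyn

end Pool.Agent.StackSort
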