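import Pool.Agent.P.MP_f1060b_co.QDefs

namespace Pool.Agent.StackSort

open Finset

lemma gs_mono (v : ℕ) : StrictMono (gs v) := by
  intro a b h
  unfold gs
  split_ifs <;> omega

lemma gs_ne (v a : ℕ) : gs v a ≠ v := by
  unfold gs
  split_ifs <;> omega

lemma qc_mem {n a : ℕ} {l : List ℕ} (hl : l ∈ Sn n) : a ∈ l ↔ 1 ≤ a ∧ a ≤ n := by
  rw [(mem_Sn.1 hl).mem_iff, List.mem_range'_1]
  omega

lemma qc_len {n : ℕ} {l : List ℕ} (hl : l ∈ Sn n) : l.length = n := by
  rw [(mem_Sn.1 hl).length_eq, List.length_range']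

lemma qc_nodup {n : ℕ} {l : List ℕ} (hl : l ∈ Sn n) : l.Nodup :=
  (mem_Sn.1 hl).nodup_iff.2 List.nodup_range'

lemma qc_of {n : ℕ} {l : List ℕ} (h1 : l.Nodup) (h2 : ∀ a ∈ l, 1 ≤ a ∧ a ≤ n)
    (h3 : l.length = n) : l ∈ Sn n := by
  refine mem_Sn.2 ((h1.subperm fun a ha => ?_).perm_of_length_le (by simp [h3]))
  have := h2 a ha
  rw [List.mem_range'_1]
  omega

lemma exists_ins {n v : ℕ} {l : List ℕ} (hl : l ∈ Sn (n + 1)) (h1 : 1 ≤ v) (h2 : v ≤ n + 1) :
    ∃ r ∈ Sn n, l = ins (px l v) v r := by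
  obtain ⟨A, B, rfl, hA⟩ := List.eq_append_cons_of_mem ((qc_mem hl).2 ⟨h1, h2⟩)
  obtain ⟨h3, h4⟩ := List.nodup_cons.1 (List.nodup_middle.1 (qc_nodup hl))
  have h5 : ((A ++ B).map fun a => if a < v then a else a - 1).map (gs v) = A ++ B := by
    rw [List.map_map]
    refine (List.map_congr_left fun a ha => ?_).trans (List.map_id _)
    have : a ≠ v := fun e => h3 (e ▸ ha)
    simp only [Function.comp, gs, id]
    split_ifs <;> omega
  refine ⟨(A ++ B).map fun a => if a < v then a else a - 1,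
    qc_of (List.Nodup.of_map (gs v) (h5.symm ▸ h4)) (fun a ha => ?_) ?_, ?_⟩
  · have h6 : gs v a ∈ A ++ B := h5 ▸ List.mem_map_of_mem ha
    have h7 := (qc_mem hl).1 (List.perm_middle.mem_iff.2 (List.mem_cons_of_mem v h6))
    unfold gs at h7
    split_ifs at h7 <;> omega
  · have := qc_len hl
    simp only [List.length_append, List.length_cons, List.length_map] at this ⊢
    omega
  · have h6 : A.length = px (A ++ v :: B) v := by
      rw [px, List.idxOf_append_of_notMem hA, List.idxOf_cons_self, add_zero]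
    rw [ins, h5, List.take_left' h6, List.drop_left' h6]

lemma px_lt {n u : ℕ} {l : List ℕ} (hl : l ∈ Sn n) (h1 : 1 ≤ u) (h2 : u ≤ n) : px l u < n :=
  (List.idxOf_lt_length_of_mem ((qc_mem hl).2 ⟨h1, h2⟩)).trans_eq (qc_len hl)

lemma qc_map {f : ℕ → ℕ} (hf : Function.Injective f) (a : ℕ) (r : List ℕ) :
    px (r.map f) (f a) = px r a := by
  unfold px
  induction r with
  | nil => rfl
  | cons b r ih =>
    by_cases h : b = a
    · simp [h]
    · rw [List.map_cons, List.idxOf_cons_ne _ h, List.idxOf_cons_ne _ (hf.ne h), ih]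

lemma qc_mid {v b : ℕ} (A B : List ℕ) (h : v ≠ b) :
    px (A ++ v :: B) b = gs A.length (px (A ++ B) b) := by
  unfold px gs
  by_cases hb : b ∈ A
  · rw [List.idxOf_append_of_mem hb, List.idxOf_append_of_mem hb,
      if_pos (List.idxOf_lt_length_of_mem hb)]
  · rw [List.idxOf_append_of_notMem hb, List.idxOf_append_of_notMem hb, List.idxOf_cons_ne _ h,
      if_neg (by omega)]
    rfl

lemma px_ins {n p v a : ℕ} {r : List ℕ} (hr : r ∈ Sn n) (hp : p ≤ n) (h1 : 1 ≤ a) (h2 : a ≤ n) :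
    px (ins p v r) (gs v a) = gs p (px r a) := by
  have _h := h1.trans h2
  rw [ins, qc_mid _ _ (gs_ne v a).symm, List.take_append_drop, qc_map (gs_mono v).injective,
    List.length_take, List.length_map, qc_len hr, min_eq_left hp]

lemma qc_self {n p v : ℕ} {r : List ℕ} (hr : r ∈ Sn n) (hp : p ≤ n) : px (ins p v r) v = p := by
  have h : v ∉ (r.map (gs v)).take p := fun h => by
    obtain ⟨a, -, ha⟩ := List.mem_map.1 (List.mem_of_mem_take h)
    exact gs_ne v a ha
  rw [ins, px, List.idxOf_append_of_notMem h, List.idxOf_cons_self, List.length_take,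
    List.length_map, qc_len hr, min_eq_left hp, add_zero]

lemma qc_ins {n v : ℕ} (p : ℕ) {r : List ℕ} (hr : r ∈ Sn n) (h1 : 1 ≤ v) (h2 : v ≤ n + 1) :
    ins p v r ∈ Sn (n + 1) := by
  have h : (ins p v r).Perm (v :: r.map (gs v)) := by
    refine List.perm_middle.trans ?_
    rw [List.take_append_drop]
  refine qc_of (h.nodup_iff.2 (List.nodup_cons.2 ⟨fun h => ?_,
    (qc_nodup hr).map (gs_mono v).injective⟩)) (fun a ha => ?_) (by simp [h.length_eq, qc_len hr])
  · obtain ⟨a, -, ha⟩ := List.mem_map.1 h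
    exact gs_ne v a ha
  · rcases List.mem_cons.1 (h.mem_iff.1 ha) with rfl | ha
    · exact ⟨h1, h2⟩
    · obtain ⟨b, hb, rfl⟩ := List.mem_map.1 ha
      have := (qc_mem hr).1 hb
      unfold gs
      split_ifs <;> omega

lemma qc_ins_inj {n p v : ℕ} {r s : List ℕ} (hr : r ∈ Sn n) (hs : s ∈ Sn n)
    (h : ins p v r = ins p v s) : r = s := by
  obtain ⟨h1, h2⟩ := List.append_inj h (by simp [qc_len hr, qc_len hs])
  refine List.map_injective_iff.2 (gs_mono v).injective ?_
  rw [← List.take_append_drop p (r.map _), h1, (List.cons.inj h2).2, List.take_append_drop]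

lemma qc_inj {n a b : ℕ} {l : List ℕ} (hl : l ∈ Sn n) (h1 : 1 ≤ a) (h2 : a ≤ n)
    (h : px l a = px l b) : a = b :=
  (List.idxOf_inj ((qc_mem hl).2 ⟨h1, h2⟩)).1 h

lemma qc_surj {n i : ℕ} {l : List ℕ} (hl : l ∈ Sn n) (hi : i < n) :
    ∃ c, 1 ≤ c ∧ c ≤ n ∧ px l c = i := by
  have h : i < l.length := hi.trans_eq (qc_len hl).symm
  obtain ⟨h1, h2⟩ := (qc_mem hl).1 (List.getElem_mem h)
  exact ⟨_, h1, h2, (qc_nodup hl).idxOf_getElem i h⟩

lemma LL_ins {n p v u : ℕ} {r : List ℕ} (hr : r ∈ Sn n) (hp : p ≤ n) (h1 : 1 ≤ u) (h2 : u ≤ n)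
    (huv : u < v) (hup : px r u < p) : LL u (ins p v r) = (LL u r).map (gs v) := by
  have _h := hp
  obtain ⟨A, B, rfl, hA⟩ := List.eq_append_cons_of_mem ((qc_mem hr).2 ⟨h1, h2⟩)
  rw [px, List.idxOf_append_of_notMem hA, List.idxOf_cons_self] at hup
  have h3 : gs v u = u := if_pos huv
  have h4 : u ∉ A.map (gs v) := fun h =>
    hA ((List.mem_map_of_injective (gs_mono v).injective).1 (h3.symm ▸ h))
  obtain ⟨k, hk⟩ : ∃ k, p - A.length = k + 1 := ⟨p - A.length - 1, by omega⟩
  rw [ins, List.map_append, List.map_cons, h3, List.take_append,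
    List.take_of_length_le (by rw [List.length_map]; omega), List.length_map, hk,
    List.take_succ_cons, List.append_assoc, List.cons_append, LL_split _ h4, LL_split _ hA,
    List.filter_map]
  congr 1
  refine List.filter_congr fun a _ => decide_eq_decide.2 ?_
  unfold gs
  split_ifs <;> omega

lemma qc_outp {f : ℕ → ℕ} (hf : StrictMono f) (xs : List ℕ) :
    ∀ st : List ℕ, outp (st.map f) (xs.map f) = (outp st xs).map f := by
  induction xs with
  | nil => intro st; simp [outp]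
  | cons x xs ih =>
    intro st
    have h : ((fun a => decide (a < f x)) ∘ f) = fun a => decide (a < x) := by
      funext a
      simp [hf.lt_iff_lt]
    rw [List.map_cons, outp, outp, List.takeWhile_map, List.dropWhile_map, h, ← List.map_cons, ih,
      List.map_append]

lemma life_map {f : ℕ → ℕ} (hf : StrictMono f) (W : List ℕ) : life (W.map f) = life W := by
  have h : ∀ t, (outp [])^[t] (W.map f) = ((outp [])^[t] W).map f := by
    intro t
    induction t with
    | zero => rfl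
    | succ t ih =>
      rw [Function.iterate_succ_apply', Function.iterate_succ_apply', ih]
      exact qc_outp hf _ []
  simp only [life, h, List.map_eq_nil_iff]

lemma qc_cov {ι : Type} (I : Finset ι) (E : Finset (List ℕ)) (B : ι → Finset (List ℕ)) (m : ℕ)
    (hE : ∀ l ∈ E, ∃ i ∈ I, l ∈ B i) (hB : ∀ i ∈ I, (B i).card ≤ m) : E.card ≤ I.card * m :=
  ((card_le_card fun l hl => mem_biUnion.2 (hE l hl)).trans card_biUnion_le).trans
    (sum_le_card_nsmul _ _ _ hB)

lemma cover (E E' : Finset (List ℕ)) (C : List ℕ → Finset (ℕ × ℕ)) (m : ℕ)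
    (hC : ∀ r ∈ E', (C r).card ≤ m) (h : ∀ l ∈ E, ∃ r ∈ E', ∃ c ∈ C r, l = ins c.1 c.2 r) :
    E.card ≤ m * E'.card := by
  rw [mul_comm]
  refine qc_cov E' E (fun r => (C r).image fun c => ins c.1 c.2 r) m (fun l hl => ?_)
    fun r hr => card_image_le.trans (hC r hr)
  obtain ⟨r, hr, c, hc, e⟩ := h l hl
  exact ⟨r, hr, mem_image.2 ⟨c, hc, e.symm⟩⟩

lemma qc_F2 (m : ℕ) : ∀ (n : ℕ) (J T : Finset ℕ), J ⊆ Icc 1 n → m ≤ J.card →
    ((Sn n).filter fun l => ∀ v ∈ J, px l v ∈ T).card ≤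
      T.card.descFactorial m * (n - m).factorial := by
  induction m with
  | zero =>
    intro n J T _ _
    simpa [card_Sn] using card_filter_le (Sn n) fun l => ∀ v ∈ J, px l v ∈ T
  | succ m ih =>
    intro n J T hJ hm
    obtain ⟨v, hv⟩ : J.Nonempty := card_pos.1 (by omega)
    obtain ⟨h1, h2⟩ := mem_Icc.1 (hJ hv)
    obtain ⟨n, rfl⟩ : ∃ k, n = k + 1 := ⟨n - 1, by omega⟩
    obtain ⟨K, hK⟩ : ∃ K : Finset ℕ, ∀ a, a ∈ K ↔ a ∈ Icc 1 n ∧ gs v a ∈ J :=
      ⟨_, fun _ => mem_filter⟩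
    obtain ⟨U, hU⟩ : ∃ U : ℕ → Finset ℕ, ∀ p i, i ∈ U p ↔ i ∈ range n ∧ gs p i ∈ T :=
      ⟨fun p => (range n).filter fun i => gs p i ∈ T, fun _ _ => mem_filter⟩
    have h3 : m ≤ K.card := by
      refine le_trans (le_trans (by rw [card_erase_of_mem hv]; omega) (card_le_card
        (s := J.erase v) fun b hb => ?_)) (card_image_le (f := gs v))
      obtain ⟨h4, h5⟩ := mem_erase.1 hb
      have h6 := mem_Icc.1 (hJ h5)
      have h7 : gs v (if b < v then b else b - 1) = b := by
        unfold gs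
        split_ifs <;> omega
      refine mem_image.2 ⟨_, (hK _).2 ⟨mem_Icc.2 ?_, h7.symm ▸ h5⟩, h7⟩
      split_ifs <;> omega
    refine (qc_cov T _ (fun p => ((Sn n).filter fun r => ∀ a ∈ K, px r a ∈ U p).image (ins p v))
      ((T.card - 1).descFactorial m * (n - m).factorial) (fun l hl => ?_) fun p hp => ?_).trans ?_
    · obtain ⟨h4, h5⟩ := mem_filter.1 hl
      obtain ⟨r, hr, e⟩ := exists_ins h4 h1 h2
      refine ⟨_, h5 v hv, mem_image.2 ⟨r, mem_filter.2 ⟨hr, fun a ha => ?_⟩, e.symm⟩⟩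
      obtain ⟨h6, h7⟩ := (hK a).1 ha
      obtain ⟨h8, h9⟩ := mem_Icc.1 h6
      refine (hU _ _).2 ⟨mem_range.2 (px_lt hr h8 h9), ?_⟩
      rw [← px_ins (v := v) hr (Nat.le_of_lt_succ (px_lt h4 h1 h2)) h8 h9, ← e]
      exact h5 _ h7
    · refine card_image_le.trans ((ih n _ _ (fun a ha => ((hK a).1 ha).1) h3).trans
        (Nat.mul_le_mul_right _ (Nat.descFactorial_le _ ?_)))
      rw [← card_erase_of_mem hp]
      exact card_le_card_of_injOn (gs p)
        (fun i hi => mem_erase.2 ⟨gs_ne p i, ((hU p i).1 hi).2⟩) (gs_mono p).injective.injOn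
    · rw [Nat.add_sub_add_right, ← mul_assoc]
      refine Nat.mul_le_mul_right _ ?_
      rcases T.card with _ | c
      · simp
      · rw [Nat.succ_descFactorial_succ, Nat.add_sub_cancel]

lemma card_F2 (m : ℕ) : ∀ (n : ℕ) (J T : Finset ℕ), J ⊆ Icc 1 n → J.card = m →
    ((Sn n).filter fun l => ∀ v ∈ J, px l v ∈ T).card ≤
      T.card.descFactorial m * (n - m).factorial :=
  fun n J T h1 h2 => qc_F2 m n J T h1 h2.ge

/-- Renaming the letters by an injective map of `1..n` into itself. -/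
lemma qc_ren {n : ℕ} {l : List ℕ} {g : ℕ → ℕ} (hl : l ∈ Sn n) (hg : Function.Injective g)
    (h : ∀ b, 1 ≤ b → b ≤ n → 1 ≤ g b ∧ g b ≤ n) : l.map g ∈ Sn n := by
  refine qc_of ((qc_nodup hl).map hg) (fun b hb => ?_) (by rw [List.length_map, qc_len hl])
  obtain ⟨c, hc, rfl⟩ := List.mem_map.1 hb
  exact h c ((qc_mem hl).1 hc).1 ((qc_mem hl).1 hc).2

lemma qc_perm {n a i j k : ℕ} (S : Finset ℕ) (h1 : 1 ≤ a) (h2 : a + 2 ≤ n)
    (h3 : ∀ b ∈ S, b + 3 ≤ a ∨ a + 3 ≤ b)
    (h4 : a ≤ i ∧ i ≤ a + 2 ∧ a ≤ j ∧ j ≤ a + 2 ∧ a ≤ k ∧ k ≤ a + 2 ∧ i ≠ j ∧ i ≠ k ∧ j ≠ k) :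
    (((Sn n).filter fun l => ∀ b ∈ S, NI (px l) b).filter
      fun l => px l i < px l j ∧ px l j < px l k).card ≤
    (((Sn n).filter fun l => ∀ b ∈ S, NI (px l) b).filter fun l => ¬NI (px l) a).card := by
  obtain ⟨g, hg⟩ : ∃ g : ℕ → ℕ, ∀ b, g b =
      if b = i then a else if b = j then a + 1 else if b = k then a + 2 else b := ⟨_, fun _ => rfl⟩
  have hi : Function.Injective g := by
    intro b c e
    rw [hg, hg] at e
    split_ifs at e <;> omega
  refine card_le_card_of_injOn (List.map g) (fun l hl => ?_) (List.map_injective_iff.2 hi).injOn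
  obtain ⟨h5, h6, h7⟩ := mem_filter.1 (mem_coe.1 hl)
  obtain ⟨h8, h9⟩ := mem_filter.1 h5
  have e : ∀ b c, g b = c → px (l.map g) c = px l b := fun b c e => e ▸ qc_map hi b l
  refine mem_coe.2 (mem_filter.2 ⟨mem_filter.2 ⟨qc_ren h8 hi fun b _ _ => ?_, fun b hb => ?_⟩, ?_⟩)
  · rw [hg]
    split_ifs <;> omega
  · have := h3 b hb
    rw [NI, e b b, e (b + 1) (b + 1), e (b + 2) (b + 2)]
    · exact h9 b hb
    all_goals
      rw [hg]
      split_ifs <;> omega
  · rw [NI, e i a, e j (a + 1), e k (a + 2)]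
    · omega
    all_goals
      rw [hg]
      split_ifs <;> omega

lemma card_triples (n : ℕ) (S : Finset ℕ) (h1 : ∀ a ∈ S, 1 ≤ a ∧ a + 2 ≤ n)
    (h2 : ∀ a ∈ S, ∀ b ∈ S, a < b → a + 3 ≤ b) :
    6 ^ S.card * ((Sn n).filter fun l => ∀ a ∈ S, NI (px l) a).card ≤
      5 ^ S.card * n.factorial := by
  induction S using Finset.induction_on with
  | empty => simp [card_Sn]
  | insert a S ha ih =>
    have h3 := ih (fun b hb => h1 b (mem_insert_of_mem hb))
      fun b hb c hc => h2 b (mem_insert_of_mem hb) c (mem_insert_of_mem hc)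
    obtain ⟨h4, h5⟩ := h1 a (mem_insert_self _ _)
    have h6 : ∀ b ∈ S, b + 3 ≤ a ∨ a + 3 ≤ b := fun b hb => by
      have := h2 a (mem_insert_self _ _) b (mem_insert_of_mem hb)
      have := h2 b (mem_insert_of_mem hb) a (mem_insert_self _ _)
      have : b ≠ a := fun e => ha (e ▸ hb)
      omega
    have h7 := qc_cov ({(a, a + 1, a + 2), (a, a + 2, a + 1), (a + 1, a, a + 2), (a + 1, a + 2, a),
      (a + 2, a, a + 1), (a + 2, a + 1, a)} : Finset (ℕ × ℕ × ℕ))
      ((Sn n).filter fun l => ∀ b ∈ S, NI (px l) b)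
      (fun c => ((Sn n).filter fun l => ∀ b ∈ S, NI (px l) b).filter
        fun l => px l c.1 < px l c.2.1 ∧ px l c.2.1 < px l c.2.2) _ (fun l hl => by
        have h8 := (mem_filter.1 hl).1
        have := mt (qc_inj (a := a) (b := a + 1) h8 h4 (by omega)) (by omega)
        have := mt (qc_inj (a := a) (b := a + 2) h8 h4 (by omega)) (by omega)
        have := mt (qc_inj (a := a + 1) (b := a + 2) h8 (by omega) (by omega)) (by omega)
        have e : ∀ (P : List ℕ → Prop) [DecidablePred P],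
            l ∈ ((Sn n).filter fun l => ∀ b ∈ S, NI (px l) b).filter P ↔ P l :=
          fun P _ => mem_filter.trans (and_iff_right hl)
        simp only [mem_insert, mem_singleton, exists_eq_or_imp, exists_eq_left, e]
        omega)
      fun c hc => qc_perm S h4 h5 h6 (by
        simp only [mem_insert, mem_singleton] at hc
        rcases hc with rfl | rfl | rfl | rfl | rfl | rfl <;> dsimp only <;> omega)
    have h8 := h7.trans (Nat.mul_le_mul_right _ card_le_six)
    have h9 := card_filter_add_card_filter_not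
      (s := (Sn n).filter fun l => ∀ b ∈ S, NI (px l) b) fun l => NI (px l) a
    have h10 : ((Sn n).filter fun l => ∀ b ∈ insert a S, NI (px l) b).card =
        (((Sn n).filter fun l => ∀ b ∈ S, NI (px l) b).filter fun l => NI (px l) a).card := by
      rw [filter_filter]
      simp only [forall_mem_insert, and_comm]
    rw [card_insert_of_notMem ha, pow_succ, pow_succ, h10, mul_assoc, mul_right_comm]
    refine le_trans ?_ (Nat.mul_le_mul_right 5 h3)
    rw [mul_assoc]
    exact Nat.mul_le_mul_left _ (by omega)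

lemma qc_rcd {n s p : ℕ} (u : ℕ) {r : List ℕ} (hr : r ∈ Sn n) (hs : s ≤ n) (hp : p ≤ n + 1) :
    rcd (n + 1) (px (ins s 1 r)) p u ≤
      rcd n (px r) (if s < p then p - 1 else p) (u - 1) + if s = p - 1 then 1 else 0 := by
  have e : ∀ a, 1 ≤ a → a ≤ n → px (ins s 1 r) (a + 1) = gs s (px r a) := fun a h1 h2 => by
    rw [← px_ins (v := 1) hr hs h1 h2, gs, if_neg (by omega)]
  have h0 : (({1} : Finset ℕ).filter fun _ => s = p - 1).card = if s = p - 1 then 1 else 0 := by
    rw [card_filter, sum_singleton]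
  rw [rcd, rcd, ← h0]
  refine le_trans ((card_le_card fun a ha => ?_).trans (card_union_le _ _))
    (Nat.add_le_add_right (card_image_le (f := (· + 1))) _)
  obtain ⟨h1, h2, h3⟩ := mem_filter.1 ha
  rw [mem_Ioc] at h1
  obtain ⟨b, rfl⟩ : ∃ b, a = b + 1 := ⟨a - 1, by omega⟩
  rcases Nat.eq_zero_or_pos b with rfl | hb
  · refine mem_union_right _ (mem_filter.2 ⟨mem_singleton_self _, ?_⟩)
    rw [zero_add, qc_self hr hs] at h2 h3
    by_contra h4
    obtain ⟨c, h5, h6, h7⟩ := qc_surj hr (i := s) (by omega)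
    refine h3 (c + 1) (mem_Ioc.2 (by omega)) ?_
    rw [e c h5 h6, h7, gs, if_neg (lt_irrefl _)]
    omega
  · refine mem_union_left _ (mem_image.2 ⟨b, mem_filter.2 ⟨mem_Ioc.2 (by omega), ?_,
      fun c hc h4 => ?_⟩, rfl⟩)
    · rw [e b hb (by omega), gs] at h2
      split_ifs at h2 ⊢ <;> omega
    · rw [mem_Ioc] at hc
      refine h3 (c + 1) (mem_Ioc.2 (by omega)) ?_
      rw [e b hb (by omega), e c (by omega) hc.2, gs, gs]
      split_ifs at h4 ⊢ <;> omega

lemma sum_rcd (n : ℕ) : ∀ p u, p ≤ n → ∑ l ∈ Sn n, 2 ^ rcd n (px l) p u ≤ (n + 1).factorial := by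
  induction n with
  | zero => intro p u _; simp [rcd, card_Sn]
  | succ n ih =>
    intro p u hp
    have h1 : Sn (n + 1) ⊆ (range (n + 1) ×ˢ Sn n).image fun c => ins c.1 1 c.2 := fun l hl => by
      obtain ⟨r, hr, e⟩ := exists_ins hl le_rfl (by omega)
      exact mem_image.2 ⟨(px l 1, r),
        mem_product.2 ⟨mem_range.2 (px_lt hl le_rfl (by omega)), hr⟩, e.symm⟩
    refine ((sum_le_sum_of_subset h1).trans
      (sum_image_le_of_nonneg fun _ _ => Nat.zero_le _)).trans ?_
    rw [sum_product]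
    calc _ ≤ ∑ s ∈ range (n + 1), (1 + if s = p - 1 then 1 else 0) * (n + 1).factorial := by
          refine sum_le_sum fun s hs => ?_
          have h2 : s ≤ n := Nat.le_of_lt_succ (mem_range.1 hs)
          refine le_trans ?_ (Nat.mul_le_mul_left _
            (ih (if s < p then p - 1 else p) (u - 1) (by split_ifs <;> omega)))
          rw [mul_sum]
          refine sum_le_sum fun r hr =>
            (Nat.pow_le_pow_right (by norm_num) (qc_rcd u hr h2 hp)).trans (le_of_eq ?_)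
          rw [pow_add, mul_comm]
          split_ifs <;> rfl
      _ ≤ _ := by
          rw [← sum_mul, Nat.factorial_succ (n + 1), sum_add_distrib, sum_ite_eq']
          refine Nat.mul_le_mul_right _ ?_
          rw [sum_const, card_range, smul_eq_mul]
          split_ifs <;> omega

end Pool.Agent.StackSort
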