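import Pool.Agent.P.MP_f1060b_co.Bounds

namespace Pool.Agent.StackSort

open Finset

/-- All rearrangements of `1 2 ... n`. -/
def Sn (n : ℕ) : Finset (List ℕ) := (List.range' 1 n).permutations.toFinset

lemma mem_Sn {n : ℕ} {l : List ℕ} : l ∈ Sn n ↔ l.Perm (List.range' 1 n) := by
  simp [Sn]

lemma card_Sn (n : ℕ) : (Sn n).card = n.factorial := by
  rw [Sn, List.toFinset_card_of_nodup (List.nodup_permutations _ List.nodup_range'),
    List.length_permutations, List.length_range']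

/-- The place of a letter. -/
def px (l : List ℕ) (u : ℕ) : ℕ := l.idxOf u

/-- Skip the value `v`. -/
def gs (v a : ℕ) : ℕ := if a < v then a else a + 1

/-- Insert the letter `v` at place `p`, raising the letters `≥ v`. -/
def ins (p v : ℕ) (r : List ℕ) : List ℕ :=
  (r.map (gs v)).take p ++ v :: (r.map (gs v)).drop p

/-- The number of rounds until the word is used up. -/
noncomputable def life (W : List ℕ) : ℕ := sInf {t | (outp [])^[t] W = []}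

/-- The number of larger letters to the left of `u` at time `t`. -/
def el (n : ℕ) (p : ℕ → ℕ → ℕ) (t u : ℕ) : ℕ :=
  ((Ioc u n).filter fun a => p t a < p t u).card

/-- The orbit as a family of places `p t u`, letters `v t i`, last moving places `P t` and the
letters `w t` standing there. -/
structure Dyn (n k : ℕ) (p v : ℕ → ℕ → ℕ) (P w : ℕ → ℕ) : Prop where
  lt : ∀ t u, 1 ≤ u → u ≤ n → p t u < n
  vp : ∀ t u, 1 ≤ u → u ≤ n → v t (p t u) = u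
  pv : ∀ t i, i < n → 1 ≤ v t i ∧ v t i ≤ n ∧ p t (v t i) = i
  rule : ∀ t a b, 1 ≤ b → b < a → a ≤ n → (p (t + 1) a < p (t + 1) b ↔
    ∃ c, a < c ∧ c ≤ n ∧ p t a < p t c ∧ p t c < p t b)
  conv : ∀ t u, 1 ≤ u → u ≤ n → 2 * el n p (t + 1) u ≤ el n p t u + el n p (t + 2) u
  fin : ∀ u, 1 ≤ u → u ≤ n → p k u + 1 = u
  walk : ∀ t, t < k → 1 ≤ w t ∧ w t < P t ∧ P t ≤ n ∧ p t (w t) + 1 = P t
  fix : ∀ t, t < k → ∀ a, P t < a → a ≤ n → p t a + 1 = a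
  dec : ∀ t, t + 1 < k → P (t + 1) < P t

/-- Every column is an integer combination of the pivot columns. -/
def LP (n k : ℕ) (v : ℕ → ℕ → ℕ) (P : ℕ → ℕ) : Prop :=
  ∀ a < n, ∃ c : ℕ → ℤ, ∀ t < k,
    (v t a : ℤ) - (a + 1) = ∑ i ∈ range k, c i * ((v t (P i - 1) : ℤ) - P i)

/-- The product of the first `i` factors of the upper bound for the volume. -/
noncomputable def FF (k : ℕ) (P w : ℕ → ℕ) (i : ℕ) : ℝ :=
  ∏ t ∈ range i, ((P t - w t : ℕ) : ℝ) / (k - t : ℕ)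

/-- Right-to-left maxima among the letters above `u` at the places below `p`. -/
def rcd (n : ℕ) (π : ℕ → ℕ) (p u : ℕ) : ℕ :=
  ((Ioc u n).filter fun a => π a < p ∧ ∀ c ∈ Ioc a n, ¬(π a < π c ∧ π c < p)).card

/-- The letters `a, a+1, a+2` are not in increasing order. -/
def NI (π : ℕ → ℕ) (a : ℕ) : Prop := π (a + 1) < π a ∨ π (a + 2) < π (a + 1)

instance (π : ℕ → ℕ) : DecidablePred (NI π) := fun _ => by unfold NI; infer_instance

/-- The number of windows of `3 s` values above `v` without an increasing triple. -/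
def badW (n s : ℕ) (π : ℕ → ℕ) (v : ℕ) : ℕ :=
  ((range n).filter fun i => v ≤ 3 * s * i ∧ 3 * s * (i + 1) ≤ n ∧
    ∀ r < s, NI π (3 * s * i + 1 + 3 * r)).card

def G1 (n x : ℕ) (π : ℕ → ℕ) : Prop := ∀ p ≤ n, ∀ u ≤ n, rcd n π p u ≤ x

def G2 (n x : ℕ) (π : ℕ → ℕ) : Prop :=
  ∀ a b c d, b ≤ n → 1 ≤ c → d ≤ n + 1 → x * n ≤ (b - a) * (d - c) →
    ∃ u, c ≤ u ∧ u < d ∧ a ≤ π u ∧ π u < b

def G3 (n q x : ℕ) (π : ℕ → ℕ) : Prop :=
  ∀ v ≤ n, badW n (28 * q) π v ≤ (n - v) / x ^ 5 + 760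

def G4 (n x : ℕ) (π : ℕ → ℕ) : Prop :=
  ∀ b m, 1 ≤ b → 2 ≤ m → b + 2 * m * x + 2 ≤ n →
    ∃ i < x, π (b + 2 * m * i) < π (b + 2 * m * i + 1)

/-- The range of the parameters. -/
structure Par (q x n : ℕ) : Prop where
  hq : 10000 ≤ q
  hx : x = 2 ^ q
  lo : x ^ 250 ≤ n
  hi : n ≤ x ^ 251

/-- An extreme letter at an extreme place. -/
def Spec (n S : ℕ) (π : ℕ → ℕ) (u : ℕ) : Prop :=
  1 ≤ u ∧ u ≤ n ∧ (u ≤ S ∨ n < u + S) ∧ (π u < S ∨ n ≤ π u + S)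

/-- A top letter near the end. -/
def TE (n S : ℕ) (π : ℕ → ℕ) (z : ℕ) : Prop := 2 ≤ z ∧ z ≤ n ∧ n < z + S ∧ n ≤ π z + S

def Three (n S : ℕ) (π : ℕ → ℕ) : Prop :=
  ∃ a b c, a ≠ b ∧ a ≠ c ∧ b ≠ c ∧ Spec n S π a ∧ Spec n S π b ∧ Spec n S π c

/-- The letter `y` near the end, right of `u`, is fixed up to `S` by `T u`. -/
def Pin (n S : ℕ) (π T : ℕ → ℕ) (u y : ℕ) : Prop :=
  u < y ∧ y ≤ n ∧ π u < π y ∧ n ≤ π y + S ∧ y + T u ≤ n ∧ n ≤ y + T u + S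

def Eps (n S N : ℕ) (π T : ℕ → ℕ) : Prop :=
  ∃ u y z, (u = 1 ∨ u = 2) ∧ Pin n S π T u y ∧ TE n S π z ∧ z ≠ y ∧ (π 1 < N ∨ n ≤ π 1 + N)

def Del (n S A B : ℕ) (π T : ℕ → ℕ) : Prop :=
  ∃ y u z, Pin n S π T 1 y ∧ TE n S π z ∧ z ≠ y ∧ z ≠ u ∧ u ≠ y ∧ 1 < u ∧ u ≤ n ∧ π 1 < π u ∧
    n ≤ π u + A ∧ u ≤ y + B ∧ y ≤ u + B

def MainP (n : ℕ) (π : ℕ → ℕ) : Prop := π 1 + 1 = n ∧ π (n - 1) + 2 = n ∧ π n < π (n - 2)

lemma Par.sq {q x n : ℕ} (h : Par q x n) : 10000 * q ≤ x := by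
  have h1 : ∀ m, 4 ≤ m → m * m ≤ 2 ^ m := by
    intro m hm
    induction m, hm using Nat.le_induction with
    | base => norm_num
    | succ m hm ih => rw [pow_succ]; nlinarith
  have := h1 q (by have := h.hq; omega)
  rw [h.hx]
  nlinarith [h.hq]

lemma Par.big {q x n : ℕ} (h : Par q x n) : 100000000 ≤ x := by
  have := h.sq; have := h.hq; omega

/-- A constant times a smaller power is below a larger power. -/
lemma Par.pw {q x n : ℕ} (h : Par q x n) (c a b : ℕ) (hc : c ≤ 100000000) (hab : a < b) :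
    c * x ^ a ≤ x ^ b := by
  have := h.big
  calc c * x ^ a ≤ x * x ^ a := Nat.mul_le_mul_right _ (by omega)
    _ = x ^ (a + 1) := by ring
    _ ≤ x ^ b := Nat.pow_le_pow_right (by omega) hab

end Pool.Agent.StackSort
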