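import Pool.Agent.P.MP_f1060b_co.QCount

namespace Pool.Agent.StackSort

open Finset Classical

variable {q x n : ℕ}

lemma qg_cov {ι : Type} (I : Finset ι) (E : Finset (List ℕ)) (B : ι → Finset (List ℕ)) (K F : ℕ)
    (hE : ∀ l ∈ E, ∃ i ∈ I, l ∈ B i) (hB : ∀ i ∈ I, K * (B i).card ≤ F) :
    K * E.card ≤ I.card * F := by
  have h1 : E.card ≤ ∑ i ∈ I, (B i).card :=
    (card_le_card fun l hl => mem_biUnion.2 (hE l hl)).trans card_biUnion_le
  calc K * E.card ≤ K * ∑ i ∈ I, (B i).card := Nat.mul_le_mul_left _ h1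
    _ = ∑ i ∈ I, K * (B i).card := mul_sum _ _ _
    _ ≤ I.card • F := sum_le_card_nsmul _ _ _ hB
    _ = I.card * F := smul_eq_mul _ _

lemma qg_n (h : Par q x n) : 2 ≤ n ∧ n + 2 ≤ x ^ 252 := by
  have h1 := h.pw 3 251 252 (by norm_num) (by norm_num)
  have h2 := h.pw 2 0 250 (by norm_num) (by norm_num)
  have h3 := h.lo
  have h4 := h.hi
  have h5 := h.pw 1 250 251 (by norm_num) (by norm_num)
  rw [pow_zero] at h2
  omega

/-- The last step: `m` events, each of measure at most `1 / K`. -/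
lemma qg_fin (h : Par q x n) {K e m a b : ℕ} (h1 : K * e ≤ m * (n + 1).factorial)
    (hm : m ≤ (n + 2) ^ a) (hb : 252 * (a + 3) + 1 ≤ b) (hK : x ^ b ≤ K) :
    x * e ≤ (n - 2).factorial := by
  obtain ⟨h2, h3⟩ := qg_n h
  have hx := h.big
  obtain ⟨k, rfl⟩ := Nat.exists_eq_add_of_le' h2
  have h4 : (k + 2 + 1).factorial ≤ (k + 2 + 2) ^ 3 * k.factorial := by
    rw [Nat.factorial_succ, Nat.factorial_succ, Nat.factorial_succ, ← mul_assoc, ← mul_assoc,
      pow_succ, pow_two]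
    gcongr <;> omega
  have h5 : x * ((k + 2 + 2) ^ a * (k + 2 + 2) ^ 3) ≤ K := by
    refine le_trans ?_ hK
    calc x * ((k + 2 + 2) ^ a * (k + 2 + 2) ^ 3) ≤ x * ((x ^ 252) ^ a * (x ^ 252) ^ 3) := by gcongr
      _ = x ^ (252 * (a + 3) + 1) := by ring
      _ ≤ x ^ b := Nat.pow_le_pow_right (by omega) hb
  have h0 : 0 < K := lt_of_lt_of_le (Nat.pow_pos (by omega)) hK
  refine Nat.le_of_mul_le_mul_left ?_ h0
  calc K * (x * e) = x * (K * e) := by ring
    _ ≤ x * ((k + 2 + 2) ^ a * ((k + 2 + 2) ^ 3 * k.factorial)) :=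
      Nat.mul_le_mul_left _ (h1.trans (Nat.mul_le_mul hm h4))
    _ = x * ((k + 2 + 2) ^ a * (k + 2 + 2) ^ 3) * k.factorial := by ring
    _ ≤ K * (k + 2 - 2).factorial := Nat.mul_le_mul_right _ h5

lemma qg_two (h : Par q x n) {b : ℕ} (hb : b ≤ 10000) : x ^ b ≤ 2 ^ x := by
  have h1 := h.sq
  calc x ^ b = 2 ^ (q * b) := by rw [pow_mul, ← h.hx]
    _ ≤ 2 ^ x := Nat.pow_le_pow_right (by norm_num) (by nlinarith)

lemma qg_six {k t c F : ℕ} (h : 4 * k ≤ t) (h1 : 6 ^ t * c ≤ 5 ^ t * F) : 2 ^ k * c ≤ F := by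
  obtain ⟨r, rfl⟩ := Nat.exists_eq_add_of_le h
  have h2 : 5 ^ (4 * k + r) * 2 ^ k ≤ 6 ^ (4 * k + r) := by
    calc 5 ^ (4 * k + r) * 2 ^ k = (5 ^ 4 * 2) ^ k * 5 ^ r := by rw [mul_pow, ← pow_mul]; ring
      _ ≤ (6 ^ 4) ^ k * 6 ^ r := by gcongr <;> norm_num
      _ = 6 ^ (4 * k + r) := by rw [← pow_mul, pow_add]
  refine Nat.le_of_mul_le_mul_left (c := 5 ^ (4 * k + r)) ?_ (by positivity)
  rw [← mul_assoc]
  exact (Nat.mul_le_mul_right _ h2).trans h1

lemma bad1 (h : Par q x n) :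
    x * ((Sn n).filter fun l => ¬G1 n x (px l)).card ≤ (n - 2).factorial := by
  refine qg_fin h (a := 2) (b := 10000) (qg_cov (range (n + 1) ×ˢ range (n + 1)) _
    (fun i => (Sn n).filter fun l => x ≤ rcd n (px l) i.1 i.2) (2 ^ x) _ ?_ ?_) ?_ (by norm_num)
    (qg_two h le_rfl)
  · intro l hl
    obtain ⟨h1, h2⟩ := mem_filter.1 hl
    simp only [G1, not_forall, not_le] at h2
    obtain ⟨p, hp, u, hu, h3⟩ := h2
    exact ⟨(p, u), by simp; omega, mem_filter.2 ⟨h1, h3.le⟩⟩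
  · rintro ⟨p, u⟩ hi
    have hp : p ≤ n := by simp at hi; omega
    refine le_trans ?_ ((sum_le_sum_of_subset (filter_subset (fun l => x ≤ rcd n (px l) p u) _)).trans
      (sum_rcd n p u hp))
    rw [mul_comm]
    exact card_nsmul_le_sum _ _ _ fun l hl => Nat.pow_le_pow_right (by norm_num) (mem_filter.1 hl).2
  · rw [card_product, card_range, pow_two]
    gcongr <;> omega

lemma qg_desc (n i s : ℕ) : (n - i).descFactorial s * n ^ s ≤ (n - i) ^ s * n.descFactorial s := by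
  induction s with
  | zero => simp
  | succ s ih =>
    have h1 : (n - i - s) * n ≤ (n - i) * (n - s) := by
      rw [Nat.sub_mul, Nat.mul_sub]
      exact Nat.sub_le_sub_left (by rw [mul_comm]; exact Nat.mul_le_mul_left _ (Nat.sub_le _ _)) _
    calc (n - i).descFactorial (s + 1) * n ^ (s + 1)
        = (n - i - s) * n * ((n - i).descFactorial s * n ^ s) := by
          rw [Nat.descFactorial_succ]; ring
      _ ≤ (n - i) * (n - s) * ((n - i) ^ s * n.descFactorial s) := Nat.mul_le_mul h1 ih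
      _ = _ := by rw [Nat.descFactorial_succ]; ring

lemma qg_exp {n i s x : ℕ} (hn : 0 < n) (hi : i ≤ n) (h : x * n ≤ i * s) :
    2 ^ x * (n - i) ^ s ≤ n ^ s := by
  have h0 : (0 : ℝ) < n := by exact_mod_cast hn
  have h1 : ((n - i : ℕ) : ℝ) ≤ n * Real.exp (-(i / n)) := by
    have := mul_le_mul_of_nonneg_left (Real.add_one_le_exp (-(i / n : ℝ))) h0.le
    rw [Nat.cast_sub hi]
    refine le_trans (le_of_eq ?_) this
    field_simp
    ring
  have h2 : (2 : ℝ) ^ x ≤ Real.exp x := by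
    rw [← Real.exp_one_pow]
    exact pow_le_pow_left₀ (by norm_num) (by linarith [Real.add_one_le_exp 1]) _
  have h3 : (x : ℝ) + s * -(i / n) ≤ 0 := by
    have : (x : ℝ) * n ≤ i * s := by exact_mod_cast h
    have h4 : (x : ℝ) ≤ i * s / n := (le_div_iff₀ h0).2 this
    have h5 : (i * s / n : ℝ) = s * (i / n) := by ring
    linarith
  have h4 : (2 : ℝ) ^ x * ((n - i : ℕ) : ℝ) ^ s ≤ (n : ℝ) ^ s := by
    calc (2 : ℝ) ^ x * ((n - i : ℕ) : ℝ) ^ s ≤ Real.exp x * (n * Real.exp (-(i / n))) ^ s := by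
          gcongr
      _ = n ^ s * Real.exp (x + s * -(i / n)) := by
          rw [mul_pow, ← Real.exp_nat_mul, Real.exp_add]; ring
      _ ≤ n ^ s * 1 := by gcongr; exact Real.exp_le_one_iff.2 h3
      _ = n ^ s := mul_one _
  exact_mod_cast h4

lemma bad2 (h : Par q x n) :
    x * ((Sn n).filter fun l => ¬G2 n x (px l)).card ≤ (n - 2).factorial := by
  have hn := (qg_n h).1
  have hx := h.big
  refine qg_fin h (a := 4) (b := 10000) (qg_cov
    (((range (n + 2) ×ˢ range (n + 2)) ×ˢ range (n + 2) ×ˢ range (n + 2)).filter fun i =>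
      i.1.2 ≤ n ∧ 1 ≤ i.2.1 ∧ x * n ≤ (i.1.2 - i.1.1) * (i.2.2 - i.2.1)) _
    (fun i => (Sn n).filter fun l => ∀ v ∈ Ico i.2.1 i.2.2, px l v ∈ range n \ Ico i.1.1 i.1.2)
    (2 ^ x) _ ?_ ?_) ?_ (by norm_num) (qg_two h le_rfl)
  · intro l hl
    obtain ⟨h1, h2⟩ := mem_filter.1 hl
    simp only [G2, not_forall, not_exists, not_and] at h2
    obtain ⟨a, b, c, d, h3, h4, h5, h6, h7⟩ := h2
    have h8 : 0 < (b - a) * (d - c) := lt_of_lt_of_le (Nat.mul_pos (by omega) (by omega)) h6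
    have h9 := Nat.pos_of_mul_pos_left h8
    have h10 := Nat.pos_of_mul_pos_right h8
    refine ⟨((a, b), c, d), mem_filter.2 ⟨by simp; omega, h3, h4, h6⟩, mem_filter.2 ⟨h1, ?_⟩⟩
    intro v hv
    dsimp only at hv ⊢
    rw [mem_Ico] at hv
    have := h7 v hv.1 hv.2
    have := px_lt h1 (u := v) (by omega) (by omega)
    simp only [mem_sdiff, mem_range, mem_Ico]
    omega
  · rintro ⟨⟨a, b⟩, c, d⟩ hi
    obtain ⟨h1, h2, h3, h4⟩ := mem_filter.1 hi
    have hd : d ≤ n + 1 := by simp at h1; omega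
    dsimp only at h2 h3 h4 ⊢
    have h5 := card_F2 (d - c) n (Ico c d) (range n \ Ico a b)
      (fun v hv => by rw [mem_Ico] at hv; rw [mem_Icc]; omega) (Nat.card_Ico _ _)
    rw [card_sdiff_of_subset (fun v hv => by rw [mem_Ico] at hv; rw [mem_range]; omega),
      card_range, Nat.card_Ico] at h5
    have h6 := qg_exp (by omega) (by omega : b - a ≤ n) h4
    have h7 : 2 ^ x * (n - (b - a)).descFactorial (d - c) ≤ n.descFactorial (d - c) := by
      refine Nat.le_of_mul_le_mul_right (c := n ^ (d - c)) ?_ (Nat.pow_pos (by omega))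
      calc _ ≤ 2 ^ x * ((n - (b - a)) ^ (d - c) * n.descFactorial (d - c)) := by
            rw [mul_assoc]; exact Nat.mul_le_mul_left _ (qg_desc _ _ _)
        _ ≤ _ := by rw [← mul_assoc, mul_comm]; exact Nat.mul_le_mul_left _ h6
    calc _ ≤ 2 ^ x * ((n - (b - a)).descFactorial (d - c) * (n - (d - c)).factorial) :=
          Nat.mul_le_mul_left _ h5
      _ ≤ n.descFactorial (d - c) * (n - (d - c)).factorial := by
          rw [← mul_assoc]; exact Nat.mul_le_mul_right _ h7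
      _ = n.factorial := by rw [mul_comm, Nat.factorial_mul_descFactorial (by omega)]
      _ ≤ _ := Nat.factorial_le (by omega)
  · refine (card_filter_le _ _).trans (le_of_eq ?_)
    simp only [card_product, card_range]
    ring

/-- The words with no increasing triple at the starts in `S`. -/
def qgB (n : ℕ) (S : Finset ℕ) : Finset (List ℕ) := (Sn n).filter fun l => ∀ a ∈ S, NI (px l) a

lemma mem_qgB {S : Finset ℕ} {l : List ℕ} : l ∈ qgB n S ↔ l ∈ Sn n ∧ ∀ a ∈ S, NI (px l) a :=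
  mem_filter

lemma qg_tri {k : ℕ} {S : Finset ℕ} (h1 : ∀ a ∈ S, 1 ≤ a ∧ a + 2 ≤ n)
    (h2 : ∀ a ∈ S, ∀ b ∈ S, a < b → a + 3 ≤ b) (hk : 4 * k ≤ S.card) :
    2 ^ k * (qgB n S).card ≤ n.factorial :=
  qg_six hk (card_triples n S h1 h2)

lemma qg_choose {N t y : ℕ} (h : N ≤ t * y) : N.choose t ≤ (3 * y) ^ t := by
  have h1 : (t : ℝ) ^ t / t.factorial ≤ Real.exp t :=
    Real.pow_div_factorial_le_exp _ (by positivity) t
  have h2 : Real.exp t ≤ 3 ^ t := by
    rw [← Real.exp_one_pow]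
    exact pow_le_pow_left₀ (Real.exp_pos 1).le (by linarith [Real.exp_one_lt_d9]) _
  have h3 : t ^ t ≤ 3 ^ t * t.factorial := by
    exact_mod_cast (div_le_iff₀ (by positivity)).1 (h1.trans h2)
  have h4 : t.factorial * N.choose t ≤ N ^ t := by
    rw [← Nat.descFactorial_eq_factorial_mul_choose]
    exact Nat.descFactorial_le_pow _ _
  refine Nat.le_of_mul_le_mul_left (c := t.factorial) ?_ (Nat.factorial_pos _)
  calc _ ≤ N ^ t := h4
    _ ≤ (t * y) ^ t := Nat.pow_le_pow_left h _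
    _ = t ^ t * y ^ t := mul_pow _ _ _
    _ ≤ 3 ^ t * t.factorial * y ^ t := Nat.mul_le_mul_right _ h3
    _ = _ := by rw [mul_pow]; ring

lemma qg_div {s i j a b : ℕ} (ha : a < s) (hb : b < s) (h : s * i + a = s * j + b) : i = j := by
  have := congrArg (· / s) h
  simpa [Nat.mul_add_div (by omega : 0 < s), Nat.div_eq_of_lt ha, Nat.div_eq_of_lt hb] using this

/-- At least `t` bad windows above `v`. -/
lemma qg_win {s t k : ℕ} (v : ℕ) (hs : 0 < s) (hk : 4 * k ≤ t * s) :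
    2 ^ k * ((Sn n).filter fun l => t ≤ badW n s (px l) v).card ≤
      (n - v).choose t * n.factorial := by
  have hW : ((range n).filter fun i => v ≤ 3 * s * i ∧ 3 * s * (i + 1) ≤ n).card ≤ n - v := by
    rw [← Nat.card_Ico]
    refine card_le_card_of_injOn (fun i => 3 * s * i) (fun i hi => ?_) fun i _ j _ e =>
      Nat.eq_of_mul_eq_mul_left (by omega) e
    have h1 := (mem_filter.1 (mem_coe.1 hi)).2
    rw [mul_add] at h1
    simp only [coe_Ico, Set.mem_Ico]
    omega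
  refine (qg_cov (powersetCard t ((range n).filter fun i => v ≤ 3 * s * i ∧ 3 * s * (i + 1) ≤ n)) _
    (fun A => qgB n ((A ×ˢ range s).image fun i => 3 * s * i.1 + 1 + 3 * i.2)) _ n.factorial
    ?_ ?_).trans ?_
  · intro l hl
    obtain ⟨h1, h2⟩ := mem_filter.1 hl
    obtain ⟨A, hA, h3⟩ := exists_subset_card_eq h2
    refine ⟨A, mem_powersetCard.2 ⟨fun i hi => ?_, h3⟩, mem_qgB.2 ⟨h1, fun a ha => ?_⟩⟩
    · obtain ⟨h4, h5, h6, -⟩ := mem_filter.1 (hA hi)
      exact mem_filter.2 ⟨h4, h5, h6⟩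
    · obtain ⟨i, hi, rfl⟩ := mem_image.1 ha
      obtain ⟨h4, h5⟩ := mem_product.1 hi
      exact (mem_filter.1 (hA h4)).2.2.2 _ (mem_range.1 h5)
  · intro A hA
    obtain ⟨h1, h2⟩ := mem_powersetCard.1 hA
    refine qg_tri (fun a ha => ?_) (fun a ha b hb hab => ?_) ?_
    · obtain ⟨i, hi, rfl⟩ := mem_image.1 ha
      obtain ⟨h4, h5⟩ := mem_product.1 hi
      have h6 := (mem_filter.1 (h1 h4)).2.2
      rw [mul_add] at h6
      rw [mem_range] at h5
      omega
    · obtain ⟨i, -, rfl⟩ := mem_image.1 ha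
      obtain ⟨j, -, rfl⟩ := mem_image.1 hb
      rw [mul_assoc, mul_assoc] at hab ⊢
      omega
    · rw [card_image_of_injOn, card_product, card_range, h2]
      · exact hk
      · intro i hi j hj e
        have h3 := mem_range.1 (mem_product.1 (mem_coe.1 hi)).2
        have h4 := mem_range.1 (mem_product.1 (mem_coe.1 hj)).2
        simp only [mul_assoc] at e
        have h5 := qg_div (i := i.1) (j := j.1) h3 h4 (by omega)
        rw [h5] at e
        exact Prod.ext h5 (by omega)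
  · rw [card_powersetCard]
    exact Nat.mul_le_mul_right _ (Nat.choose_le_choose _ hW)

lemma bad3 (h : Par q x n) :
    x * ((Sn n).filter fun l => ¬G3 n q x (px l)).card ≤ (n - 2).factorial := by
  have hx := h.big
  have hq := h.hq
  refine qg_fin h (m := 1) (a := 0) (b := 761) ((qg_cov (range (n + 1)) _
    (fun v => (Sn n).filter fun l => (n - v) / x ^ 5 + 761 ≤ badW n (28 * q) (px l) v)
    (x ^ 761) n.factorial ?_ ?_).trans ?_) (by simp) (by norm_num) le_rfl
  · intro l hl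
    obtain ⟨h1, h2⟩ := mem_filter.1 hl
    simp only [G3, not_forall, not_le] at h2
    obtain ⟨v, hv, h3⟩ := h2
    exact ⟨v, mem_range.2 (by omega), mem_filter.2 ⟨h1, h3⟩⟩
  · intro v _
    obtain ⟨t, ht⟩ : ∃ t, t = (n - v) / x ^ 5 + 761 := ⟨_, rfl⟩
    have h1 : n - v ≤ t * x ^ 5 := by
      refine (Nat.lt_mul_div_succ (n - v) (Nat.pow_pos (by omega : 0 < x) (n := 5))).le.trans ?_
      rw [mul_comm]
      exact Nat.mul_le_mul_right _ (ht ▸ Nat.add_le_add_left (by norm_num) _)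
    have h2 := qg_win (n := n) (s := 28 * q) (t := t) (k := q * (7 * t)) v (by omega)
      (le_of_eq (by ring))
    have h3 : (n - v).choose t ≤ (x ^ 6) ^ t :=
      (qg_choose h1).trans (Nat.pow_le_pow_left (h.pw 3 5 6 (by norm_num) (by norm_num)) _)
    have h4 : 761 ≤ t := ht ▸ Nat.le_add_left _ _
    rw [pow_mul, ← h.hx] at h2
    rw [← ht]
    refine le_trans (Nat.mul_le_mul_right _ (Nat.pow_le_pow_right (by omega : 0 < x) h4))
      (Nat.le_of_mul_le_mul_left (c := (x ^ 6) ^ t) ?_ (by positivity))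
    refine le_trans (le_of_eq ?_) (h2.trans (Nat.mul_le_mul_right _ h3))
    rw [← mul_assoc, ← mul_pow, ← pow_succ, pow_mul]
  · rw [card_range, one_mul, Nat.factorial_succ]

lemma qg_inj {l : List ℕ} (hl : l ∈ Sn n) {a b : ℕ} (h1 : 1 ≤ a) (h2 : a ≤ n)
    (h : px l a = px l b) : a = b :=
  (List.idxOf_inj ((mem_Sn.1 hl).mem_iff.2 (List.mem_range'_1.2 ⟨h1, by omega⟩))).1 h

lemma bad4 (h : Par q x n) :
    x * ((Sn n).filter fun l => ¬G4 n x (px l)).card ≤ (n - 2).factorial := by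
  have hx := h.big
  have hq := h.sq
  refine qg_fin h (a := 2) (b := 2000) (qg_cov
    ((range (n + 2) ×ˢ range (n + 2)).filter fun i =>
      1 ≤ i.1 ∧ 2 ≤ i.2 ∧ i.1 + 2 * i.2 * x + 2 ≤ n) _
    (fun i => qgB n ((range x).image fun j => i.1 + 2 * i.2 * j))
    (2 ^ (q * 2000)) _ ?_ ?_) ?_ (by norm_num) (by rw [pow_mul, ← h.hx])
  · intro l hl
    obtain ⟨h1, h2⟩ := mem_filter.1 hl
    simp only [G4, not_forall, not_exists, not_and, not_lt] at h2
    obtain ⟨b, m, h3, h4, h5, h6⟩ := h2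
    have h7 : m ≤ 2 * m * x := by nlinarith
    refine ⟨(b, m), mem_filter.2 ⟨by simp; omega, h3, h4, h5⟩, mem_qgB.2 ⟨h1, ?_⟩⟩
    intro a ha
    obtain ⟨j, hj, rfl⟩ := mem_image.1 ha
    rw [mem_range] at hj
    have h8 : 2 * m * j ≤ 2 * m * x := Nat.mul_le_mul_left _ hj.le
    dsimp only
    refine Or.inl (lt_of_le_of_ne (h6 j hj) fun e => ?_)
    have := qg_inj h1 (by omega) (by omega) e
    omega
  · rintro ⟨b, m⟩ hi
    obtain ⟨-, h2, h3, h4⟩ := mem_filter.1 hi
    dsimp only at h2 h3 h4 ⊢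
    refine (qg_tri (fun a ha => ?_) (fun a ha c hc hac => ?_) ?_).trans
      (Nat.factorial_le (Nat.le_succ n))
    · obtain ⟨j, hj, rfl⟩ := mem_image.1 ha
      have : 2 * m * j ≤ 2 * m * x := Nat.mul_le_mul_left _ (mem_range.1 hj).le
      omega
    · obtain ⟨j, -, rfl⟩ := mem_image.1 ha
      obtain ⟨k, -, rfl⟩ := mem_image.1 hc
      have : j < k := lt_of_mul_lt_mul_left (a := 2 * m) (by omega) (Nat.zero_le _)
      have : 2 * m * (j + 1) ≤ 2 * m * k := Nat.mul_le_mul_left _ this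
      rw [mul_add] at this
      omega
    · rw [card_image_of_injective _ fun j k e => Nat.eq_of_mul_eq_mul_left (by omega : 0 < 2 * m)
        (Nat.add_left_cancel e), card_range]
      omega
  · refine (card_filter_le _ _).trans (le_of_eq ?_)
    simp only [card_product, card_range]
    ring

end Pool.Agent.StackSort
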