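import Pool.Agent.P.MP_f1060b_co.Geo2

namespace Pool.Agent.StackSort

open MeasureTheory Module

lemma core2 {n k : ℕ} (p : EuclideanSpace ℝ (Fin n)) (d : Fin k → EuclideanSpace ℝ (Fin n))
    (hd : ∀ j i, ∃ m : ℤ, d j i = m) (t : Fin k → Fin n)
    (hD : (Matrix.of fun i j => d j (t i)).det ≠ 0)
    (V : Submodule ℝ (EuclideanSpace ℝ (Fin n))) (hV : V = Submodule.span ℝ (Set.range d)) :
    ∃ N : ℤ, N ≠ 0 ∧
      volume.real {v : V | p + v.1 ∈ (fun x : Fin k → ℝ => p + ∑ j, x j • d j) '' corner k 1} /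
        ZLattice.covolume (intPts V) volume =
        |(Matrix.of fun i j => d j (t i)).det| / (k.factorial * |(N : ℝ)|) ∧
      (|N| = 1 → ∀ a, ∃ c : Fin k → ℤ, ∀ j, d j a = ∑ i, c i * d j (t i)) := by
  classical
  set D : Matrix (Fin k) (Fin k) ℝ := Matrix.of fun i j => d j (t i) with hDdef
  have hmem : ∀ j, d j ∈ V := fun j => hV ▸ Submodule.subset_span ⟨j, rfl⟩
  let dV : Fin k → V := fun j => ⟨d j, hmem j⟩
  let φ₀ : EuclideanSpace ℝ (Fin n) →ₗ[ℝ] (Fin k → ℝ) :=
    { toFun := fun v i => v (t i)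
      map_add' := fun _ _ => rfl
      map_smul' := fun _ _ => rfl }
  let φ : V →ₗ[ℝ] (Fin k → ℝ) := φ₀ ∘ₗ V.subtype
  have hli : LinearIndependent ℝ d := by
    apply LinearIndependent.of_comp φ₀
    have := Matrix.linearIndependent_cols_iff_isUnit.2
      ((Matrix.isUnit_iff_isUnit_det D).2 (isUnit_iff_ne_zero.2 hD))
    exact this
  have hrank : finrank ℝ V = k := by
    rw [hV, finrank_span_eq_card hli, Fintype.card_fin]
  have hspan : ∀ v : V, ∃ x : Fin k → ℝ, v = ∑ j, x j • dV j := by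
    intro v
    have : v.1 ∈ Submodule.span ℝ (Set.range d) := hV ▸ v.2
    obtain ⟨x, hx⟩ := (Submodule.mem_span_range_iff_exists_fun ℝ).1 this
    refine ⟨x, Subtype.ext ?_⟩
    rw [← hx]; simp [dV]
  haveI hL : IsZLattice ℝ (intPts V) := by
    refine ⟨eq_top_iff.2 fun v _ => ?_⟩
    obtain ⟨x, rfl⟩ := hspan v
    exact Submodule.sum_mem _ fun j _ =>
      Submodule.smul_mem _ _ (Submodule.subset_span (fun i => hd j i))
  let c : Basis (Fin k) ℤ (intPts V) :=
    Module.finBasisOfFinrankEq ℤ (intPts V) (by rw [ZLattice.rank ℝ, hrank])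
  let c' : Basis (Fin k) ℝ V := c.ofZLatticeBasis ℝ (intPts V)
  choose Cz hCz using fun j i => (c j).2 (t i)
  let C : Matrix (Fin k) (Fin k) ℤ := Matrix.of fun i j => Cz j i
  let Cr : Matrix (Fin k) (Fin k) ℝ := C.map (Int.castRingHom ℝ)
  have hφc : ∀ j i, φ (c' j) i = Cr i j := by
    intro j i
    have : c' j = (c j : V) := c.ofZLatticeBasis_apply ℝ _ j
    rw [this]; exact hCz j i
  have hψ : ∀ v : V, Matrix.toLin' Cr (c'.equivFun v) = φ v := by
    intro v
    conv_rhs => rw [← c'.sum_repr v]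
    ext i
    simp only [Matrix.toLin'_apply, Matrix.mulVec, dotProduct, map_sum, map_smul,
      Finset.sum_apply, Pi.smul_apply, hφc, smul_eq_mul, Basis.equivFun_apply, mul_comm]
  have hδ : ∀ x : Fin k → ℝ, φ (∑ j, x j • dV j) = Matrix.toLin' D x := by
    intro x
    ext i
    simp only [Matrix.toLin'_apply, Matrix.mulVec, dotProduct, map_sum, map_smul,
      Finset.sum_apply, Pi.smul_apply, smul_eq_mul, mul_comm]
    rfl
  set S : Set V := {v : V | p + v.1 ∈ (fun x : Fin k → ℝ => p + ∑ j, x j • d j) '' corner k 1}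
    with hS
  let g : (Fin k → ℝ) →ₗ[ℝ] V := Fintype.linearCombination ℝ dV
  have hg : ∀ x, g x = ∑ j, x j • dV j := fun x => Fintype.linearCombination_apply _ _ _
  have hSg : S = g '' corner k 1 := by
    ext v
    simp only [hS, Set.mem_setOf_eq, Set.mem_image, add_right_inj, hg]
    refine exists_congr fun x => and_congr_right fun _ => ?_
    rw [Subtype.ext_iff]; simp [dV]
  have hSm : NullMeasurableSet S volume := by
    rw [hSg]; exact ((corner_convex k).linear_image g).nullMeasurableSet _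
  have h1 := ZLattice.volume_image_eq_volume_div_covolume' (intPts V) c hSm
  have h2 : Matrix.toLin' Cr '' (c'.equivFun '' S) = Matrix.toLin' D '' corner k 1 := by
    rw [hSg, Set.image_image, Set.image_image]
    refine Set.image_congr fun x _ => ?_
    rw [hψ, hg, hδ]
  have h3 := congrArg volume h2
  rw [Measure.addHaar_image_linearMap, Measure.addHaar_image_linearMap, h1,
    volume_corner k 1 zero_le_one, LinearMap.det_toLin', LinearMap.det_toLin'] at h3
  have h4 := congrArg ENNReal.toReal h3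
  have hcov := ZLattice.covolume_pos (intPts V) volume
  simp only [ENNReal.toReal_mul, ENNReal.toReal_div, ENNReal.toReal_ofReal (abs_nonneg _),
    ENNReal.toReal_ofReal hcov.le, one_pow] at h4
  rw [ENNReal.toReal_ofReal (by positivity)] at h4
  have hdet : Cr.det = ((C.det : ℤ) : ℝ) := ((Int.castRingHom ℝ).map_det C).symm
  have hf : (0 : ℝ) < k.factorial := by positivity
  have hDp : 0 < |D.det| := abs_pos.2 hD
  have hC0 : Cr.det ≠ 0 := by
    intro h0
    rw [h0, abs_zero, zero_mul] at h4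
    exact absurd h4 (by positivity : (0 : ℝ) < |D.det| * (1 / k.factorial)).ne
  refine ⟨C.det, fun h0 => hC0 (by rw [hdet, h0]; simp), ?_, fun hN a => ?_⟩
  · rw [← hdet, Measure.real]
    have : 0 < |Cr.det| := abs_pos.2 hC0
    rw [eq_div_iff (by positivity)]
    field_simp at h4 ⊢
    linarith
  · have hu : IsUnit C.det := by
      rcases (abs_eq (by norm_num : (0 : ℤ) ≤ 1)).1 hN with e | e <;> simp [e]
    choose z hz using fun m => (c m).2 a
    refine ⟨fun i => ∑ m, z m * C⁻¹ m i, fun j => ?_⟩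
    have e1 : ∀ i, d j (t i) = ∑ m, (C i m : ℝ) * c'.repr (dV j) m := fun i => by
      have := congrFun (hψ (dV j)) i
      simp only [Matrix.toLin'_apply, Matrix.mulVec, dotProduct, Basis.equivFun_apply] at this
      exact this.symm
    have e2 : d j a = ∑ m, (z m : ℝ) * c'.repr (dV j) m := by
      have := congrArg (fun v : V => v.1 a) (c'.sum_repr (dV j)).symm
      simp only [Submodule.coe_sum, Submodule.coe_smul, WithLp.ofLp_sum, WithLp.ofLp_smul,
        Finset.sum_apply, Pi.smul_apply, smul_eq_mul] at this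
      refine this.trans (Finset.sum_congr rfl fun m _ => ?_)
      have h5 : c' m = (c m : V) := c.ofZLatticeBasis_apply ℝ _ m
      rw [h5, hz m, mul_comm]
    have e3 : ∀ m l, ∑ i, ((C⁻¹ m i : ℤ) : ℝ) * C i l = if m = l then 1 else 0 := fun m l => by
      have := congrFun (congrFun (Matrix.nonsing_inv_mul C hu) m) l
      rw [Matrix.mul_apply, Matrix.one_apply] at this
      exact_mod_cast congrArg (Int.cast : ℤ → ℝ) this
    rw [e2]
    simp only [e1, Int.cast_sum, Int.cast_mul, Finset.sum_mul]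
    rw [Finset.sum_comm]
    refine Finset.sum_congr rfl fun m _ => ?_
    simp only [Finset.mul_sum]
    rw [Finset.sum_comm]
    have : ∀ l, ∑ i, (z m : ℝ) * (C⁻¹ m i : ℤ) * ((C i l : ℝ) * c'.repr (dV j) l) =
        z m * (if m = l then 1 else 0) * c'.repr (dV j) l := fun l => by
      rw [← e3, Finset.mul_sum, Finset.sum_mul]
      exact Finset.sum_congr rfl fun i _ => by ring
    simp [this]

lemma relVol_int {n k : ℕ} (p : EuclideanSpace ℝ (Fin n))
    (d : Fin k → EuclideanSpace ℝ (Fin n))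
    (hd : ∀ j i, ∃ m : ℤ, d j i = m) (t : Fin k → Fin n)
    (htri : ∀ i j, i < j → d j (t i) = 0) (hdiag : ∀ j, d j (t j) ≠ 0)
    (h : (∏ j, |d j (t j)|) / k.factorial <
      2 * relVol (intLat n) (convexHull ℝ (insert p (Set.range fun j => p + d j))) p) (a : Fin n) :
    ∃ c : Fin k → ℤ, ∀ j, d j a = ∑ i, c i * d j (t i) := by
  classical
  have hdet : (Matrix.of fun i j => d j (t i)).det = ∏ j, d j (t j) := by
    rw [Matrix.det_of_isLowerTriangular]
    · rfl
    · intro i j h; exact htri i j h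
  have hD : (Matrix.of fun i j => d j (t i)).det ≠ 0 := by
    rw [hdet]; exact Finset.prod_ne_zero_iff.2 fun j _ => hdiag j
  obtain ⟨N, hN, h1, h2⟩ := core2 p d hd t hD _ (dir_eq p d)
  have h3 : relVol (intLat n) (convexHull ℝ (insert p (Set.range fun j => p + d j))) p =
      (∏ j, |d j (t j)|) / (k.factorial * |(N : ℝ)|) := by
    rw [← Finset.abs_prod, ← hdet, ← h1, relVol, ratioIn, ratio, comap_intLat, ← hull_eq]
    rfl
  refine h2 ?_ a
  have hf : (0 : ℝ) < k.factorial := by positivity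
  have hp : 0 < ∏ j, |d j (t j)| := Finset.prod_pos fun j _ => abs_pos.2 (hdiag j)
  have hN1 : (0 : ℝ) < |(N : ℝ)| := abs_pos.2 (by exact_mod_cast hN)
  rw [h3, ← div_div, ← mul_div_assoc, lt_div_iff₀ hN1, mul_comm,
    mul_lt_mul_iff_left₀ (by positivity)] at h
  have h4 : |N| < 2 := by exact_mod_cast h
  have := Int.one_le_abs hN
  omega

end Pool.Agent.StackSort
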