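import Pool.Agent.P.MP_f1060b_co.QDefs
import Pool.Agent.P.MP_f1060b_co.QLat

namespace Pool.Agent.StackSort

open Finset

/-- The places of the letters along the orbit. -/
def pp (l : List ℕ) (t : ℕ) : ℕ → ℕ := px (stackSort^[t] l)

/-- The letters along the orbit. -/
def vv (l : List ℕ) (t i : ℕ) : ℕ := (stackSort^[t] l).getD i 0

lemma mem_outp (a : ℕ) (xs : List ℕ) : ∀ st : List ℕ, st.Pairwise (· ≤ ·) →
    (a ∈ outp st xs ↔ (a ∈ st ∧ ∃ c ∈ xs, a < c) ∨ ∃ c, a < c ∧ [a, c].Sublist xs) := by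
  induction xs with
  | nil => intro st _; simp [outp]
  | cons x xs ih =>
    intro st h
    rw [outp, List.mem_append, ih _ (push_sorted h x), (take_eq h x).1, (take_eq h x).2]
    simp only [List.mem_filter, decide_eq_true_eq, List.mem_cons, List.cons_sublist_cons',
      List.singleton_sublist]
    constructor
    · rintro (⟨h1, h2⟩ | ⟨rfl | ⟨h1, h2⟩, c, h3, h4⟩ | ⟨c, h1, h2⟩)
      · exact Or.inl ⟨h1, x, Or.inl rfl, h2⟩
      · exact Or.inr ⟨c, h4, Or.inr ⟨rfl, h3⟩⟩
      · exact Or.inl ⟨h1, c, Or.inr h3, h4⟩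
      · exact Or.inr ⟨c, h1, Or.inl h2⟩
    · rintro (⟨h1, c, rfl | h3, h4⟩ | ⟨c, h1, h2 | ⟨rfl, h2⟩⟩)
      · exact Or.inl ⟨h1, h4⟩
      · rcases lt_or_ge a x with e | e
        · exact Or.inl ⟨h1, e⟩
        · exact Or.inr (Or.inl ⟨Or.inr ⟨h1, e⟩, c, h3, h4⟩)
      · exact Or.inr (Or.inr ⟨c, h1, h2⟩)
      · exact Or.inr (Or.inl ⟨Or.inl rfl, c, h2, h1⟩)

lemma pair_sub {a c : ℕ} {l : List ℕ} (h : l.Nodup) :
    [a, c].Sublist l ↔ c ∈ l ∧ l.idxOf a < l.idxOf c := by
  induction l with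
  | nil => simp
  | cons x l ih =>
    rw [List.nodup_cons] at h
    rw [List.cons_sublist_cons', ih h.2, List.singleton_sublist, List.mem_cons]
    by_cases hc : x = c
    · subst hc
      simp [h.1]
    · by_cases ha : x = a
      · subst ha
        simp +contextual [List.idxOf_cons_ne _ hc, Ne.symm hc]
      · simp [List.idxOf_cons_ne _ hc, List.idxOf_cons_ne _ ha, Ne.symm hc, Ne.symm ha]

lemma idx_split {b : ℕ} {A B : List ℕ} (hb : b ∉ A) :
    (A ++ b :: B).idxOf b = A.length ∧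
      ∀ a, (a ∈ A → (A ++ b :: B).idxOf a = A.idxOf a) ∧
        (a ∈ A ↔ (A ++ b :: B).idxOf a < A.length) := by
  refine ⟨by simp [List.idxOf_append, hb], fun a => ⟨fun h => by simp [List.idxOf_append, h], ?_⟩⟩
  by_cases h : a ∈ A
  · simp [List.idxOf_append, h, List.idxOf_lt_length_iff]
  · simp [List.idxOf_append, h]

lemma mem_LL {a b : ℕ} {l : List ℕ} (h : l.Nodup) (hb : b ∈ l) :
    a ∈ LL b l ↔ b < a ∧ l.idxOf a < l.idxOf b := by
  obtain ⟨A, B, rfl⟩ := List.append_of_mem hb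
  have hA : b ∉ A := fun e =>
    (List.nodup_cons.1 (List.nodup_middle.1 h)).1 (List.mem_append_left _ e)
  rw [LL_split B hA, List.mem_filter, (idx_split hA).1, ← ((idx_split hA).2 a).2, decide_eq_true_eq]
  constructor
  · rintro ⟨h1, h2⟩
    exact ⟨lt_of_le_of_ne h2 (by rintro rfl; exact hA h1), h1⟩
  · exact fun h => ⟨h.2, h.1.le⟩

lemma pair_LL {a b c : ℕ} {l : List ℕ} (h : l.Nodup) (hb : b ∈ l) (hab : b < a) (hac : a < c) :
    [a, c].Sublist (LL b l) ↔ l.idxOf a < l.idxOf c ∧ l.idxOf c < l.idxOf b := by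
  obtain ⟨A, B, rfl⟩ := List.append_of_mem hb
  have hA : b ∉ A := fun e =>
    (List.nodup_cons.1 (List.nodup_middle.1 h)).1 (List.mem_append_left _ e)
  obtain ⟨e1, e2⟩ := idx_split (B := B) hA
  rw [LL_split B hA, e1]
  constructor
  · intro hs
    have hs := hs.trans List.filter_sublist
    exact ⟨((pair_sub h).1 (hs.trans (List.sublist_append_left _ _))).2,
      (e2 c).2.1 (hs.subset (by simp))⟩
  · rintro ⟨h1, h2⟩
    have c1 := (e2 c).2.2 h2
    have a1 := (e2 a).2.2 (h1.trans h2)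
    rw [(e2 a).1 a1, (e2 c).1 c1] at h1
    have := ((pair_sub (List.nodup_append.1 h).1).2 ⟨c1, h1⟩).filter (b ≤ ·)
    rwa [List.filter_eq_self.2 (by simp; omega)] at this

lemma Sn_nodup {n : ℕ} {l : List ℕ} (h : l ∈ Sn n) : l.Nodup :=
  (mem_Sn.1 h).nodup_iff.2 List.nodup_range'

lemma Sn_mem {n a : ℕ} {l : List ℕ} (h : l ∈ Sn n) : a ∈ l ↔ 1 ≤ a ∧ a ≤ n := by
  rw [(mem_Sn.1 h).mem_iff, List.mem_range'_1]
  omega

lemma Sn_length {n : ℕ} {l : List ℕ} (h : l ∈ Sn n) : l.length = n := by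
  simpa using (mem_Sn.1 h).length_eq

lemma Sn_iter {n : ℕ} {l : List ℕ} (h : l ∈ Sn n) (t : ℕ) : stackSort^[t] l ∈ Sn n :=
  mem_Sn.2 ((iter_perm l t).trans (mem_Sn.1 h))

/-- One pass keeps an inversion exactly when a larger letter stands between. -/
lemma rule_list {n a b : ℕ} {l : List ℕ} (h : l ∈ Sn n) (hb : 1 ≤ b) (hab : b < a) (ha : a ≤ n) :
    px (stackSort l) a < px (stackSort l) b ↔
      ∃ c, a < c ∧ c ≤ n ∧ px l a < px l c ∧ px l c < px l b := by
  have hb' : b ∈ l := (Sn_mem h).2 ⟨hb, by omega⟩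
  have e := mem_LL (a := a) (Sn_nodup (Sn_iter h 1)) ((stackSort_perm l).symm.subset hb')
  rw [Function.iterate_one, LL_stackSort (Sn_nodup h) hb', mem_outp _ _ _ List.Pairwise.nil] at e
  simp only [List.not_mem_nil, false_and, false_or, hab, true_and] at e
  unfold px
  rw [← e]
  refine exists_congr fun c => and_congr_right fun hc => ?_
  rw [pair_LL (Sn_nodup h) hb' hab hc]
  refine ⟨fun hh => ⟨?_, hh⟩, fun hh => hh.2⟩
  have := List.idxOf_lt_length_iff.2 hb'
  exact ((Sn_mem h).1 (List.idxOf_lt_length_iff.1 (hh.2.trans this))).2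

lemma el_eq {n u : ℕ} {l : List ℕ} (h : l ∈ Sn n) (h1 : 1 ≤ u) (h2 : u ≤ n) (t : ℕ) :
    el n (pp l) t u = (LL u (stackSort^[t] l)).length := by
  have ht := Sn_iter h t
  have hu := (Sn_mem ht).2 ⟨h1, h2⟩
  rw [← List.toFinset_card_of_nodup (LL_nodup (Sn_nodup ht)), el]
  congr 1
  ext a
  rw [List.mem_toFinset, mem_LL (Sn_nodup ht) hu, mem_filter, mem_Ioc]
  refine ⟨fun hh => ⟨hh.1.1, hh.2⟩, fun hh => ⟨⟨hh.1, ?_⟩, hh.2⟩⟩
  have := List.idxOf_lt_length_iff.2 hu
  exact ((Sn_mem ht).1 (List.idxOf_lt_length_iff.1 (hh.2.trans this))).2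

lemma el_life {n u : ℕ} {l : List ℕ} (h : l ∈ Sn n) (h1 : 1 ≤ u) (h2 : u ≤ n) (t : ℕ) :
    el n (pp l) t u = 0 ↔ life (LL u l) ≤ t := by
  have hu := (Sn_mem h).2 ⟨h1, h2⟩
  have e : ∀ t, LL u (stackSort^[t] l) = (outp [])^[t] (LL u l) := fun t => by
    induction t with
    | zero => rfl
    | succ t ih => rw [LL_succ (mem_Sn.1 h) hu, ih, Function.iterate_succ_apply']
  rw [el_eq h h1 h2, List.length_eq_zero_iff, e]
  refine ⟨fun hh => Nat.sInf_le hh, fun hh => ?_⟩
  have h0 : (outp [])^[life (LL u l)] (LL u l) = [] :=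
    Nat.sInf_mem (s := {t | (outp [])^[t] (LL u l) = []}) ⟨passes n l, by
      rw [Set.mem_setOf_eq, ← e, (passes_spec (mem_Sn.1 h)).1, LL_id ((mem_Sn.1 h).subset hu)]⟩
  obtain ⟨m, rfl⟩ := Nat.exists_eq_add_of_le' hh
  rw [Function.iterate_add_apply, h0]
  exact Function.iterate_fixed rfl m

lemma px_getD {n i : ℕ} {l : List ℕ} (h : l ∈ Sn n) (hi : i < n) :
    1 ≤ l.getD i 0 ∧ l.getD i 0 ≤ n ∧ px l (l.getD i 0) = i := by
  have e := Sn_length h
  rw [List.getD_eq_getElem _ _ (by omega), ← and_assoc, ← Sn_mem h]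
  exact ⟨List.getElem_mem _, (Sn_nodup h).idxOf_getElem _ _⟩

lemma exists_dyn {n : ℕ} {l : List ℕ} (h : l ∈ Sn n) :
    ∃ P w, Dyn n (passes n l) (pp l) (vv l) P w := by
  have hp := mem_Sn.1 h
  have hex : ∀ j, j < passes n l → _ := fun j hj =>
    structure_lemma ((iter_perm l j).trans hp) ((passes_spec hp).2 j hj)
  choose! t w e1 e2 e3 e4 e5 e6 e7 using hex
  have lt : ∀ t u, 1 ≤ u → u ≤ n → pp l t u < n := fun t u h1 h2 => by
    have := List.idxOf_lt_length_iff.2 ((Sn_mem (Sn_iter h t)).2 ⟨h1, h2⟩)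
    rwa [Sn_length (Sn_iter h t)] at this
  refine ⟨fun j => t j + 1, w, lt, fun s u h1 h2 => ?_, fun s i hi => px_getD (Sn_iter h s) hi,
    fun s a b h1 h2 h3 => ?_, fun s u h1 h2 => ?_, fun u h1 h2 => ?_, fun s hs => ?_,
    fun s hs a h1 h2 => ?_, fun j hj => ?_⟩
  · have := List.idxOf_lt_length_iff.2 ((Sn_mem (Sn_iter h s)).2 ⟨h1, h2⟩)
    exact (List.getD_eq_getElem _ _ this).trans (List.getElem_idxOf this)
  · rw [pp, Function.iterate_succ_apply']
    exact rule_list (Sn_iter h s) h1 h2 h3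
  · have hu := (Sn_mem h).2 ⟨h1, h2⟩
    have a1 := LL_step hp hu s
    have a2 := LL_step hp hu (s + 1)
    have a3 := sig_anti hp hu (Nat.le_succ s)
    simp only [el_eq h h1 h2, Nat.succ_eq_add_one] at a3 ⊢
    rw [show s + 1 + 1 = s + 2 from rfl] at a2
    omega
  · have := (px_getD (Sn_iter h (passes n l)) (by omega : u - 1 < n)).2.2
    rw [pp]
    rw [(passes_spec hp).1] at this ⊢
    rw [getD_id (by omega), show u - 1 + 1 = u by omega] at this
    omega
  · have := px_getD (Sn_iter h s) (e1 s hs)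
    rw [e4 s hs] at this
    have := e1 s hs
    have := e2 s hs
    unfold pp
    omega
  · have := px_getD (Sn_iter h s) (by omega : a - 1 < n)
    rw [e6 s hs _ (by omega) (by omega), show a - 1 + 1 = a by omega] at this
    unfold pp
    omega
  · by_contra hc
    have a1 := e7 j (by omega) (t (j + 1)) (by omega) (e1 _ hj)
    rw [← Function.iterate_succ_apply' stackSort, e4 _ hj] at a1
    have := e2 _ hj
    omega

section
variable {n : ℕ} {l : List ℕ} {P w : ℕ → ℕ} (h : l ∈ Sn n)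
  (D : Dyn n (passes n l) (pp l) (vv l) P w)
include h D

lemma piv_facts : (∀ j < passes n l, P j - 1 < n) ∧ (∀ j < passes n l, w j ≤ P j - 1) ∧
    (∀ j < passes n l, (stackSort^[j] l).getD (P j - 1) 0 = w j) ∧
    (∀ i j, i < j → j < passes n l → (stackSort^[j] l).getD (P i - 1) 0 = P i - 1 + 1) ∧
    FF (passes n l) P w (passes n l) = ∏ j ∈ range (passes n l),
      ((P j - 1 + 1 - w j : ℕ) : ℝ) / (passes n l - j : ℕ) := by
  refine ⟨fun j hj => by have := D.walk j hj; omega, fun j hj => by have := D.walk j hj; omega,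
    fun j hj => ?_, fun i j hij hj => ?_, prod_congr rfl fun j hj => ?_⟩
  · have W := D.walk j hj
    have := D.vp j _ W.1 (by omega)
    rwa [show pp l j (w j) = P j - 1 by omega] at this
  · have W := D.walk i (by omega)
    have hanti : P j < P i := by
      induction j, hij using Nat.le_induction with
      | base => exact D.dec i hj
      | succ j _ ih => exact (D.dec j hj).trans (ih (by omega))
    have e := D.fix j hj _ hanti W.2.2.1
    have := D.vp j (P i) (by omega) W.2.2.1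
    rw [show pp l j (P i) = P i - 1 by omega] at this
    rw [show P i - 1 + 1 = P i by omega]
    exact this
  · have := D.walk j (mem_range.1 hj)
    rw [show P j - 1 + 1 = P j by omega]

lemma vol_le_FF : vol n l ≤ FF (passes n l) P w (passes n l) := by
  obtain ⟨h1, h2, h3, h4, h5⟩ := piv_facts h D
  rw [h5]
  exact (vol_tri (mem_Sn.1 h) rfl _ w h1 h2 h3 h4).1

lemma vol_eq_FF (hn : 0 < n)
    (hc : ∀ i < n, i = 0 ∨ (∃ t < passes n l, i + 1 = P t) ∨ ∀ t < passes n l, vv l t i = i + 1) :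
    vol n l = FF (passes n l) P w (passes n l) := by
  obtain ⟨h1, h2, h3, h4, h5⟩ := piv_facts h D
  rw [h5]
  refine (vol_tri (mem_Sn.1 h) rfl _ w h1 h2 h3 h4).2 0 hn fun i hi => ?_
  rcases hc i hi with e | ⟨t, e1, e2⟩ | e
  · exact Or.inl e
  · exact Or.inr (Or.inl ⟨t, e1, by omega⟩)
  · exact Or.inr (Or.inr e)

/-- If the pivot minor is less than twice the index, it is the index. -/
lemma LP_of_vol (hv : FF (passes n l) P w (passes n l) < 2 * vol n l) :
    LP n (passes n l) (vv l) P := by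
  obtain ⟨ht, hw, h3, htri, h5⟩ := piv_facts h D
  rw [h5] at hv
  generalize hk : passes n l = k at *
  set p := pt n (List.range' 1 n) with hp
  let d : Fin k → EuclideanSpace ℝ (Fin n) := fun j => pt n (stackSort^[j] l) - p
  have hd : ∀ (j : Fin k) (i : Fin n), d j i = ((stackSort^[j] l).getD i 0 : ℝ) - (i + 1 : ℕ) := by
    intro j i
    simp only [d, hp, pt, PiLp.sub_apply, getD_id i.2]
  have hP : polytope n l = convexHull ℝ (insert p (Set.range fun j => p + d j)) := by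
    rw [polytope, hk]
    congr 1
    ext x
    simp only [Set.mem_setOf_eq, Set.mem_insert_iff, Set.mem_range, d, add_sub_cancel]
    have hs := (passes_spec (mem_Sn.1 h)).1
    rw [hk] at hs
    constructor
    · rintro ⟨j, hj, rfl⟩
      rcases hj.eq_or_lt with rfl | hj
      · left; rw [hs]
      · right; exact ⟨⟨j, hj⟩, rfl⟩
    · rintro (rfl | ⟨j, rfl⟩)
      · exact ⟨k, le_rfl, by rw [hs]⟩
      · exact ⟨j, j.2.le, rfl⟩
  let t' : Fin k → Fin n := fun j => ⟨P j - 1, ht j j.2⟩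
  have hdiag : ∀ j : Fin k, |d j (t' j)| = ((P j - 1 + 1 - w j : ℕ) : ℝ) := by
    intro j
    have := hw j j.2
    rw [hd, Nat.cast_sub (by omega), abs_sub_comm]
    simp only [t', h3 j j.2]
    exact abs_of_nonneg (sub_nonneg.2 (by exact_mod_cast (by omega : w j ≤ P j - 1 + 1)))
  have key := relVol_int p d (fun j i => ⟨((stackSort^[j] l).getD i 0 : ℕ) - (i + 1 : ℕ), by
      rw [hd]; push_cast; rfl⟩) t'
    (fun i j hij => by rw [hd]; simp only [t', htri i j hij j.2, sub_self])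
    (fun j => by
      rw [← abs_pos, hdiag]
      have := hw j j.2
      exact Nat.cast_pos.2 (by omega))
    (by
      simp only [hdiag]
      rw [Fin.prod_univ_eq_prod_range (fun j => ((P j - 1 + 1 - w j : ℕ) : ℝ)) k,
        ← Nat.descFactorial_self, Nat.descFactorial_eq_prod_range, Nat.cast_prod,
        ← prod_div_distrib, ← hP]
      exact hv)
  intro a ha
  obtain ⟨c, hc⟩ := key ⟨a, ha⟩
  refine ⟨fun i => if hi : i < k then c ⟨i, hi⟩ else 0, fun t ht2 => ?_⟩
  have e := hc ⟨t, ht2⟩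
  simp only [hd, t'] at e
  rw [← Fin.sum_univ_eq_sum_range (fun i => (if hi : i < k then c ⟨i, hi⟩ else 0) *
    ((vv l t (P i - 1) : ℤ) - P i)) k]
  have e2 : ∀ i : Fin k, P i - 1 + 1 = P i := fun i => by
    have := D.walk i i.2
    omega
  simp only [e2] at e
  simp only [Fin.is_lt, dif_pos, Fin.eta, vv]
  exact_mod_cast e

end

end Pool.Agent.StackSort
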