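import Pool.Agent.P.MP_f1060b_co.QCount

namespace Pool.Agent.StackSort

open Finset Classical

variable {q x n : ℕ}

lemma qp_gs_le (v a : ℕ) : a ≤ gs v a ∧ gs v a ≤ a + 1 := by
  unfold gs
  split_ifs <;> omega

lemma qp_gs_lt {v a : ℕ} (h : a < v) : gs v a = a := by
  unfold gs
  rw [if_pos h]

lemma qp_lt_of_gs {v a : ℕ} (h : gs v a < v) : a < v := by
  have := qp_gs_le v a
  omega

lemma qp_pre {m v z : ℕ} (h1 : 1 ≤ v) (h2 : v ≤ m + 1) (h3 : 1 ≤ z) (h4 : z ≤ m + 1)
    (h5 : z ≠ v) : ∃ a, 1 ≤ a ∧ a ≤ m ∧ gs v a = z := by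
  by_cases h : z < v
  · exact ⟨z, h3, by omega, qp_gs_lt h⟩
  · refine ⟨z - 1, by omega, by omega, ?_⟩
    unfold gs
    split_ifs <;> omega

/-- Deleting one letter. -/
lemma qp_del {m v : ℕ} {l : List ℕ} (hl : l ∈ Sn (m + 1)) (h1 : 1 ≤ v) (h2 : v ≤ m + 1) :
    ∃ r ∈ Sn m, l = ins (px l v) v r ∧ px l v ≤ m ∧
      (∀ a, 1 ≤ a → a ≤ m → px l (gs v a) = gs (px l v) (px r a)) ∧
      ∀ u, 1 ≤ u → u < v → px l u < px l v → life (LL u l) = life (LL u r) := by
  obtain ⟨r, hr, e⟩ := exists_ins hl h1 h2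
  have hp : px l v ≤ m := by have := px_lt hl h1 h2; omega
  have hpx : ∀ a, 1 ≤ a → a ≤ m → px l (gs v a) = gs (px l v) (px r a) := by
    intro a ha hb
    have := px_ins (v := v) hr hp ha hb
    rwa [← e] at this
  refine ⟨r, hr, e, hp, hpx, ?_⟩
  intro u hu huv hlt
  have h3 := hpx u hu (by omega)
  rw [qp_gs_lt huv] at h3
  have h4 : px r u < px l v := qp_lt_of_gs (by rw [← h3]; exact hlt)
  have h5 := LL_ins hr hp hu (by omega) huv h4
  rw [← e] at h5
  rw [h5, life_map (gs_mono v)]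

lemma qp_TE {m S v z : ℕ} {π ρ : ℕ → ℕ} (hS : S + 2 ≤ m) (h1 : 1 ≤ v) (h2 : v ≤ m + 1)
    (hpx : ∀ a, 1 ≤ a → a ≤ m → π (gs v a) = gs (π v) (ρ a)) (hz : TE (m + 1) S π z)
    (hne : z ≠ v) : ∃ a, gs v a = z ∧ TE m S ρ a := by
  obtain ⟨z1, z2, z3, z4⟩ := hz
  obtain ⟨a, a1, a2, a3⟩ := qp_pre h1 h2 (by omega) z2 hne
  have g1 := qp_gs_le v a
  have g2 := qp_gs_le (π v) (ρ a)
  have g3 := hpx a a1 a2
  rw [a3] at g3 g1
  exact ⟨a, a3, by omega, a2, by omega, by omega⟩

lemma qp_card_TE (m S : ℕ) :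
    ((Sn m).filter fun l => ∃ z, TE m S (px l) z).card ≤ S * S * (m - 1).factorial := by
  have hsub : ((Sn m).filter fun l => ∃ z, TE m S (px l) z) ⊆
      (Ioc (m - S) m).biUnion fun z =>
        (Sn m).filter fun l => ∀ v ∈ ({z} : Finset ℕ), px l v ∈ Ico (m - S) m := by
    intro l hl
    obtain ⟨hl, z, z1, z2, z3, z4⟩ := mem_filter.1 hl
    refine mem_biUnion.2 ⟨z, mem_Ioc.2 ⟨by omega, z2⟩, mem_filter.2 ⟨hl, ?_⟩⟩
    intro v hv
    rw [mem_singleton.1 hv]
    exact mem_Ico.2 ⟨by omega, px_lt hl (by omega) z2⟩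
  refine (card_le_card hsub).trans ?_
  refine (card_biUnion_le_card_mul _ _ (S * (m - 1).factorial) ?_).trans ?_
  · intro z hz
    have hz' := mem_Ioc.1 hz
    have := card_F2 1 m {z} (Ico (m - S) m)
      (by intro v hv; rw [mem_singleton.1 hv]; exact mem_Icc.2 ⟨by omega, hz'.2⟩) (card_singleton z)
    refine this.trans ?_
    rw [Nat.descFactorial_one, Nat.card_Ico]
    exact Nat.mul_le_mul_right _ (by omega)
  · rw [Nat.card_Ioc, mul_assoc]
    exact Nat.mul_le_mul_right _ (by omega)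

lemma qp_fac {n : ℕ} (hn : 3 ≤ n) : (n - 2).factorial = (n - 2) * (n - 3).factorial := by
  obtain ⟨k, rfl⟩ : ∃ k, n = k + 3 := ⟨n - 3, by omega⟩
  have e1 : k + 3 - 2 = k + 1 := by omega
  have e2 : k + 3 - 3 = k := by omega
  rw [e1, e2, Nat.factorial_succ]

lemma qp_room (h : Par q x n) (c a : ℕ) (hc : c ≤ 100000000) (ha : a < 249) :
    c * x ^ a + 2 ≤ x ^ 250 := by
  have h1 := h.pw c a 249 hc ha
  have h2 := h.pw 3 249 250 (by norm_num) (by norm_num)
  have h3 : 1 ≤ x ^ 249 := Nat.one_le_pow _ _ (by have := h.big; omega)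
  omega

lemma cnt_three (h : Par q x n) :
    x * ((Sn n).filter fun l => Three n (x ^ 17) (px l)).card ≤ (n - 2).factorial := by
  obtain ⟨S, hS⟩ : ∃ S, S = x ^ 17 := ⟨_, rfl⟩
  rw [← hS]
  obtain ⟨V, hV⟩ : ∃ V : Finset ℕ, V = (Icc 1 n).filter fun u => u ≤ S ∨ n < u + S := ⟨_, rfl⟩
  obtain ⟨T, hT⟩ : ∃ T : Finset ℕ, T = range S ∪ Ico (n - S) n := ⟨_, rfl⟩
  have cV : V.card ≤ 2 * S := by
    have : V ⊆ Icc 1 S ∪ Ioc (n - S) n := by
      intro u hu
      rw [hV] at hu
      obtain ⟨h1, h2⟩ := mem_filter.1 hu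
      have h1' := mem_Icc.1 h1
      rw [mem_union, mem_Icc, mem_Ioc]
      omega
    refine (card_le_card this).trans ((card_union_le _ _).trans ?_)
    rw [Nat.card_Icc, Nat.card_Ioc]
    omega
  have cT : T.card ≤ 2 * S := by
    rw [hT]
    refine (card_union_le _ _).trans ?_
    rw [card_range, Nat.card_Ico]
    omega
  have hsub : ((Sn n).filter fun l => Three n S (px l)) ⊆
      (powersetCard 3 V).biUnion fun J => (Sn n).filter fun l => ∀ v ∈ J, px l v ∈ T := by
    intro l hl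
    obtain ⟨hl, a, b, c, hab, hac, hbc, ha, hb, hc⟩ := mem_filter.1 hl
    have key : ∀ u, Spec n S (px l) u → u ∈ V ∧ px l u ∈ T := by
      rintro u ⟨u1, u2, u3, u4⟩
      have := px_lt hl u1 u2
      constructor
      · rw [hV]
        exact mem_filter.2 ⟨mem_Icc.2 ⟨u1, u2⟩, u3⟩
      · rw [hT, mem_union, mem_range, mem_Ico]
        omega
    have all : ∀ v ∈ ({a, b, c} : Finset ℕ), v ∈ V ∧ px l v ∈ T := by
      intro v hv
      simp only [mem_insert, mem_singleton] at hv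
      rcases hv with rfl | rfl | rfl
      exacts [key _ ha, key _ hb, key _ hc]
    refine mem_biUnion.2 ⟨{a, b, c}, mem_powersetCard.2 ⟨fun v hv => (all v hv).1, ?_⟩,
      mem_filter.2 ⟨hl, fun v hv => (all v hv).2⟩⟩
    exact card_eq_three.2 ⟨a, b, c, hab, hac, hbc, rfl⟩
  have hcard : ((Sn n).filter fun l => Three n S (px l)).card ≤
      (2 * S) ^ 3 * ((2 * S) ^ 3 * (n - 3).factorial) := by
    refine (card_le_card hsub).trans ?_
    refine (card_biUnion_le_card_mul _ _ ((2 * S) ^ 3 * (n - 3).factorial) ?_).trans ?_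
    · intro J hJ
      obtain ⟨j1, j2⟩ := mem_powersetCard.1 hJ
      have j3 : J ⊆ Icc 1 n := by
        refine j1.trans ?_
        rw [hV]
        exact filter_subset _ _
      refine (card_F2 3 n J T j3 j2).trans (Nat.mul_le_mul_right _ ?_)
      exact (Nat.descFactorial_le_pow _ _).trans (Nat.pow_le_pow_left cT 3)
    · refine Nat.mul_le_mul_right _ ?_
      rw [card_powersetCard]
      exact (Nat.choose_le_pow _ _).trans (Nat.pow_le_pow_left cV 3)
  have r1 := qp_room h 64 103 (by norm_num) (by norm_num)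
  have r2 := h.lo
  have r3 : 1 ≤ x ^ 103 := Nat.one_le_pow _ _ (by have := h.big; omega)
  rw [qp_fac (by omega)]
  calc x * ((Sn n).filter fun l => Three n S (px l)).card
      ≤ x * ((2 * S) ^ 3 * ((2 * S) ^ 3 * (n - 3).factorial)) := Nat.mul_le_mul_left _ hcard
    _ = 64 * x ^ 103 * (n - 3).factorial := by rw [hS]; ring
    _ ≤ (n - 2) * (n - 3).factorial := Nat.mul_le_mul_right _ (by omega)

/-- Second step of the count for `Eps`: delete the letter 1. -/
lemma qp_eps_two (k S N : ℕ) (hS : S + 2 ≤ k) :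
    ((Sn (k + 1)).filter fun r => (∃ z, TE (k + 1) S (px r) z) ∧
      (px r 1 < N ∨ k + 1 ≤ px r 1 + N)).card ≤ 2 * N * (S * S * (k - 1).factorial) := by
  refine (cover _ ((Sn k).filter fun l => ∃ z, TE k S (px l) z)
    (fun _ => (range N ∪ Ico (k + 1 - N) (k + 1)) ×ˢ {1}) (2 * N) ?_ ?_).trans
    (Nat.mul_le_mul_left _ (qp_card_TE k S))
  · intro r _
    rw [card_product, card_singleton, mul_one]
    refine (card_union_le _ _).trans ?_
    rw [card_range, Nat.card_Ico]
    omega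
  · intro l hl
    obtain ⟨hl, ⟨z, hz⟩, h1⟩ := mem_filter.1 hl
    obtain ⟨r, hr, e, hp, hpx, -⟩ := qp_del hl (v := 1) le_rfl (by omega)
    obtain ⟨a, -, ha⟩ := qp_TE hS le_rfl (by omega) hpx hz (by have := hz.1; omega)
    refine ⟨r, mem_filter.2 ⟨hr, a, ha⟩, (px l 1, 1), ?_, e⟩
    rw [mem_product, mem_union, mem_range, mem_Ico, mem_singleton]
    refine ⟨?_, rfl⟩
    dsimp only
    omega

lemma qp_eps (m S N : ℕ) (hS : S + 2 ≤ m) :
    ((Sn (m + 1)).filter fun l =>
      Eps (m + 1) S N (px l) fun u => life (LL u l)).card ≤ 2 * (S * (S + 1)) *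
    ((Sn m).filter fun r => (∃ z, TE m S (px r) z) ∧ (px r 1 < N ∨ m ≤ px r 1 + N)).card := by
  refine cover _ _ (fun r =>
    Ico (m + 1 - S) (m + 1) ×ˢ Icc (m + 1 - life (LL 1 r) - S) (m + 1 - life (LL 1 r)) ∪
    Ico (m + 1 - S) (m + 1) ×ˢ Icc (m + 1 - life (LL 2 r) - S) (m + 1 - life (LL 2 r))) _ ?_ ?_
  · intro r _
    refine (card_union_le _ _).trans ?_
    rw [two_mul, card_product, card_product, Nat.card_Ico, Nat.card_Icc, Nat.card_Icc]
    exact Nat.add_le_add (Nat.mul_le_mul (by omega) (by omega))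
      (Nat.mul_le_mul (by omega) (by omega))
  · intro l hl
    obtain ⟨hl, u, y, z, hu, ⟨p1, p2, p3, p4, p5, p6⟩, hz, hzy, h1⟩ := mem_filter.1 hl
    obtain ⟨r, hr, e, hp, hpx, hlife⟩ := qp_del hl (v := y) (by omega) p2
    obtain ⟨a, -, ha⟩ := qp_TE hS (by omega) p2 hpx hz hzy
    have g1 := hpx 1 le_rfl (by omega)
    rw [qp_gs_lt (show 1 < y by omega)] at g1
    have g2 := qp_gs_le (px l y) (px r 1)
    have g3 := hlife u (by omega) p1 p3
    dsimp only at p5 p6
    refine ⟨r, mem_filter.2 ⟨hr, ⟨a, ha⟩, by omega⟩, (px l y, y), ?_, e⟩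
    rw [mem_union, mem_product, mem_product, mem_Ico, mem_Icc, mem_Icc]
    dsimp only
    rcases hu with rfl | rfl
    · left
      omega
    · right
      omega

lemma cnt_eps (h : Par q x n) :
    x * ((Sn n).filter fun l =>
      Eps n (x ^ 17) (n / x ^ 70 + 1) (px l) fun u => life (LL u l)).card ≤ (n - 2).factorial := by
  have hx := h.big
  have r0 := qp_room h 8 17 (by norm_num) (by norm_num)
  have r1 := qp_room h 16 69 (by norm_num) (by norm_num)
  have r2 := h.lo
  have r3 : 1 ≤ x ^ 17 := Nat.one_le_pow _ _ (by omega)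
  have r4 : x ^ 70 * (n / x ^ 70) ≤ n := Nat.mul_div_le _ _
  obtain ⟨D, hD⟩ : ∃ D, D = n / x ^ 70 := ⟨_, rfl⟩
  rw [← hD] at r4 ⊢
  have r5 : 16 * (x ^ 69 * D) ≤ n := by
    refine le_trans ?_ r4
    rw [← mul_assoc]
    exact Nat.mul_le_mul_right _ (h.pw 16 69 70 (by norm_num) (by norm_num))
  have r6 : 32 * (x ^ 69 * D) ≤ n := by
    refine le_trans ?_ r4
    rw [← mul_assoc]
    exact Nat.mul_le_mul_right _ (h.pw 32 69 70 (by norm_num) (by norm_num))
  obtain ⟨k, rfl⟩ : ∃ k, n = k + 1 + 1 := ⟨n - 2, by omega⟩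
  have c1 := qp_eps (k + 1) (x ^ 17) (D + 1) (by omega)
  have c2 := qp_eps_two k (x ^ 17) (D + 1) (by omega)
  have c3 := c1.trans (Nat.mul_le_mul_left _ c2)
  rw [qp_fac (by omega)]
  have e1 : k + 1 + 1 - 3 = k - 1 := by omega
  rw [e1]
  refine (Nat.mul_le_mul_left _ c3).trans ?_
  calc x * (2 * (x ^ 17 * (x ^ 17 + 1)) * (2 * (D + 1) * (x ^ 17 * x ^ 17 * (k - 1).factorial)))
      ≤ x * (2 * (x ^ 17 * (2 * x ^ 17)) *
          (2 * (D + 1) * (x ^ 17 * x ^ 17 * (k - 1).factorial))) := by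
        gcongr
        omega
    _ = (8 * (x ^ 69 * D) + 8 * x ^ 69) * (k - 1).factorial := by ring
    _ ≤ (k + 1 + 1 - 2) * (k - 1).factorial := Nat.mul_le_mul_right _ (by omega)

/-- Second step of the count for `Del`: delete the letter `u`. -/
lemma qp_del_two (k S A B c : ℕ) (hS : S + 2 ≤ k) :
    ((Sn (k + 1)).filter fun r => ∃ u z, TE (k + 1) S (px r) z ∧ z ≠ u ∧ 1 < u ∧ u ≤ k + 1 ∧
      px r 1 < px r u ∧ k + 1 ≤ px r u + A ∧ u + life (LL 1 r) ≤ c + B ∧
      c ≤ u + life (LL 1 r) + (B + S + 1)).card ≤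
    A * (2 * B + S + 2) * (S * S * (k - 1).factorial) := by
  refine (cover _ ((Sn k).filter fun l => ∃ z, TE k S (px l) z)
    (fun r => Ico (k + 1 - A) (k + 1) ×ˢ
      Icc (c - life (LL 1 r) - (B + S + 1)) (c + B - life (LL 1 r))) (A * (2 * B + S + 2))
    ?_ ?_).trans (Nat.mul_le_mul_left _ (qp_card_TE k S))
  · intro r _
    rw [card_product, Nat.card_Ico, Nat.card_Icc]
    exact Nat.mul_le_mul (by omega) (by omega)
  · intro l hl
    obtain ⟨hl, u, z, hz, hzu, u1, u2, u3, u4, u5, u6⟩ := mem_filter.1 hl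
    obtain ⟨r, hr, e, hp, hpx, hlife⟩ := qp_del hl (v := u) (by omega) u2
    obtain ⟨a, -, ha⟩ := qp_TE hS (by omega) u2 hpx hz hzu
    have g3 := hlife 1 le_rfl u1 u3
    refine ⟨r, mem_filter.2 ⟨hr, a, ha⟩, (px l u, u), ?_, e⟩
    rw [mem_product, mem_Ico, mem_Icc]
    dsimp only
    omega

lemma qp_del_one (m S A B : ℕ) (hS : S + 2 ≤ m) :
    ((Sn (m + 1)).filter fun l =>
      Del (m + 1) S A B (px l) fun u => life (LL u l)).card ≤ S * (S + 1) *
    ((Sn m).filter fun r => ∃ u z, TE m S (px r) z ∧ z ≠ u ∧ 1 < u ∧ u ≤ m ∧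
      px r 1 < px r u ∧ m ≤ px r u + A ∧ u + life (LL 1 r) ≤ (m + 1) + B ∧
      m + 1 ≤ u + life (LL 1 r) + (B + S + 1)).card := by
  refine cover _ _ (fun r =>
    Ico (m + 1 - S) (m + 1) ×ˢ Icc (m + 1 - life (LL 1 r) - S) (m + 1 - life (LL 1 r))) _ ?_ ?_
  · intro r _
    rw [card_product, Nat.card_Ico, Nat.card_Icc]
    exact Nat.mul_le_mul (by omega) (by omega)
  · intro l hl
    obtain ⟨hl, y, u, z, ⟨p1, p2, p3, p4, p5, p6⟩, hz, hzy, hzu, huy, u1, u2, u3, u4, u5, u6⟩ :=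
      mem_filter.1 hl
    obtain ⟨r, hr, e, hp, hpx, hlife⟩ := qp_del hl (v := y) (by omega) p2
    obtain ⟨a, a0, ha⟩ := qp_TE hS (by omega) p2 hpx hz hzy
    obtain ⟨b, b1, b2, b3⟩ := qp_pre (m := m) (v := y) (z := u) (by omega) p2 (by omega) u2 huy
    have g1 := hpx 1 le_rfl (by omega)
    rw [qp_gs_lt p1] at g1
    have g2 := hpx b b1 b2
    rw [b3] at g2
    have g3 := hlife 1 le_rfl p1 p3
    have g4 := qp_gs_le (px l y) (px r b)
    have g5 := qp_gs_le y b
    have g6 : px r 1 < px r b := by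
      rw [← (gs_mono (px l y)).lt_iff_lt, ← g1, ← g2]
      exact u3
    have g7 : 1 < b := by
      rw [← (gs_mono y).lt_iff_lt, b3, qp_gs_lt p1]
      exact u1
    have g8 : a ≠ b := by
      rintro rfl
      exact hzu (a0.symm.trans b3)
    dsimp only at p5 p6
    refine ⟨r, mem_filter.2 ⟨hr, b, a, ha, g8, g7, b2, g6, by omega, by omega, by omega⟩,
      (px l y, y), ?_, e⟩
    rw [mem_product, mem_Ico, mem_Icc]
    dsimp only
    omega

lemma cnt_del (h : Par q x n) :
    x * ((Sn n).filter fun l =>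
      Del n (x ^ 17) (x ^ 92) (x ^ 83) (px l) fun u => life (LL u l)).card ≤ (n - 2).factorial := by
  have hx := h.big
  have r0 := qp_room h 8 17 (by norm_num) (by norm_num)
  have r1 := qp_room h 8 244 (by norm_num) (by norm_num)
  have r2 := h.lo
  have r3 : 1 ≤ x ^ 17 := Nat.one_le_pow _ _ (by omega)
  have r4 := h.pw 3 17 83 (by norm_num) (by norm_num)
  obtain ⟨k, rfl⟩ : ∃ k, n = k + 1 + 1 := ⟨n - 2, by omega⟩
  have c1 := qp_del_one (k + 1) (x ^ 17) (x ^ 92) (x ^ 83) (by omega)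
  have c2 := qp_del_two k (x ^ 17) (x ^ 92) (x ^ 83) (k + 1 + 1) (by omega)
  have c3 := c1.trans (Nat.mul_le_mul_left _ c2)
  rw [qp_fac (by omega)]
  have e1 : k + 1 + 1 - 3 = k - 1 := by omega
  rw [e1]
  refine (Nat.mul_le_mul_left _ c3).trans ?_
  calc x * (x ^ 17 * (x ^ 17 + 1) *
        (x ^ 92 * (2 * x ^ 83 + x ^ 17 + 2) * (x ^ 17 * x ^ 17 * (k - 1).factorial)))
      ≤ x * (x ^ 17 * (2 * x ^ 17) *
        (x ^ 92 * (4 * x ^ 83) * (x ^ 17 * x ^ 17 * (k - 1).factorial))) := by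
        gcongr <;> omega
    _ = 8 * x ^ 244 * (k - 1).factorial := by ring
    _ ≤ (k + 1 + 1 - 2) * (k - 1).factorial := Nat.mul_le_mul_right _ (by omega)

lemma qp_px_map {e : ℕ → ℕ} (he : Function.Injective e) (l : List ℕ) (u : ℕ) :
    px (l.map e) (e u) = px l u := by
  unfold px
  induction l with
  | nil => simp
  | cons a l ih =>
    by_cases h : a = u
    · subst h
      simp
    · rw [List.map_cons, List.idxOf_cons_ne _ (he.ne h), List.idxOf_cons_ne _ h, ih]

lemma qp_perm (k : ℕ) :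
    ((List.range' 2 (k + 1) ++ [k + 4]) ++ [k + 3, 1]).Perm (List.range' 1 (k + 4)) := by
  have e : List.range' 1 (k + 4) = 1 :: (List.range' 2 (k + 1) ++ [k + 3, k + 4]) := by
    rw [show k + 4 = (k + 1 + 1 + 1) + 1 from rfl, List.range'_succ, List.range'_concat,
      List.range'_concat]
    simp
    omega
  rw [e, List.perm_iff_count]
  intro a
  simp only [List.count_append, List.count_cons, List.count_nil]
  omega

lemma qp_card_end (k : ℕ) :
    ((Sn (k + 4)).filter fun l => px l 1 = k + 3 ∧ px l (k + 3) = k + 2).card =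
      (k + 2).factorial := by
  obtain ⟨L, hL⟩ : ∃ L, L = List.range' 2 (k + 1) ++ [k + 4] := ⟨_, rfl⟩
  have hp : (L ++ [k + 3, 1]).Perm (List.range' 1 (k + 4)) := by rw [hL]; exact qp_perm k
  have hnd : (L ++ [k + 3, 1]).Nodup := hp.nodup_iff.2 List.nodup_range'
  have hlen : L.length = k + 2 := by rw [hL]; simp
  have h1 : 1 ∉ L := by rw [hL]; simp
  have h3 : k + 3 ∉ L := by
    rw [hL]
    simp
    omega
  have himg : ((Sn (k + 4)).filter fun l => px l 1 = k + 3 ∧ px l (k + 3) = k + 2) =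
      L.permutations.toFinset.image fun r => r ++ [k + 3, 1] := by
    ext l
    rw [mem_filter, mem_image, mem_Sn]
    constructor
    · rintro ⟨hl, p1, p2⟩
      have hl4 : l.length = k + 4 := by rw [hl.length_eq, List.length_range']
      have m1 : 1 ∈ l := hl.mem_iff.2 (by simp)
      have m3 : k + 3 ∈ l := hl.mem_iff.2 (by simp; omega)
      have g1 : l[k + 3]'(by omega) = 1 := by
        have := List.getElem_idxOf (List.idxOf_lt_length_iff.2 m1)
        unfold px at p1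
        simpa only [p1] using this
      have g3 : l[k + 2]'(by omega) = k + 3 := by
        have := List.getElem_idxOf (List.idxOf_lt_length_iff.2 m3)
        unfold px at p2
        simpa only [p2] using this
      have hd : l.drop (k + 2) = [k + 3, 1] := by
        rw [List.drop_eq_getElem_cons (by omega), g3, List.drop_eq_getElem_cons (by omega), g1,
          List.drop_eq_nil_of_le (by omega)]
      have e : l.take (k + 2) ++ [k + 3, 1] = l := by rw [← hd, List.take_append_drop]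
      refine ⟨l.take (k + 2), ?_, e⟩
      rw [List.mem_toFinset, List.mem_permutations]
      refine (List.perm_append_right_iff [k + 3, 1]).1 ?_
      rw [e]
      exact hl.trans hp.symm
    · rintro ⟨r, hr, rfl⟩
      rw [List.mem_toFinset, List.mem_permutations] at hr
      have r1 : 1 ∉ r := fun h => h1 (hr.mem_iff.1 h)
      have r3 : k + 3 ∉ r := fun h => h3 (hr.mem_iff.1 h)
      have rl : r.length = k + 2 := hr.length_eq.trans hlen
      refine ⟨(hr.append_right _).trans hp, ?_, ?_⟩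
      · unfold px
        rw [List.idxOf_append_of_notMem r1, rl, List.idxOf_cons_ne _ (by omega)]
        simp
      · unfold px
        rw [List.idxOf_append_of_notMem r3, rl]
        simp
  rw [himg, card_image_of_injective _ (List.append_left_injective _),
    List.toFinset_card_of_nodup (List.nodup_permutations _ (List.Nodup.of_append_left hnd)),
    List.length_permutations, hlen]

lemma qp_swap_mem {n a b : ℕ} {l : List ℕ} (hl : l ∈ Sn n) (ha : a ∈ List.range' 1 n)
    (hb : b ∈ List.range' 1 n) : l.map (Equiv.swap a b) ∈ Sn n := by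
  rw [mem_Sn] at hl ⊢
  refine (hl.map _).trans ?_
  refine (List.perm_ext_iff_of_nodup
    (List.Nodup.map (Equiv.swap a b).injective List.nodup_range') List.nodup_range').2 ?_
  intro c
  have key : ∀ d, d ∈ List.range' 1 n → Equiv.swap a b d ∈ List.range' 1 n := by
    intro d hd
    rw [Equiv.swap_apply_def]
    split_ifs
    exacts [hb, ha, hd]
  rw [List.mem_map]
  constructor
  · rintro ⟨d, hd, rfl⟩
    exact key d hd
  · intro hc
    exact ⟨_, key c hc, Equiv.swap_apply_self _ _ _⟩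

lemma cnt_main (hn : 4 ≤ n) :
    2 * ((Sn n).filter fun l => MainP n (px l)).card = (n - 2).factorial := by
  obtain ⟨k, rfl⟩ : ∃ k, n = k + 4 := ⟨n - 4, by omega⟩
  obtain ⟨A, hA⟩ : ∃ A, A = (Sn (k + 4)).filter fun l => px l 1 = k + 3 ∧ px l (k + 3) = k + 2 :=
    ⟨_, rfl⟩
  have cA : A.card = (k + 2).factorial := by rw [hA]; exact qp_card_end k
  have m4 : k + 4 ∈ List.range' 1 (k + 4) := by simp
  have m2 : k + 2 ∈ List.range' 1 (k + 4) := by simp; omega
  have hs : ∀ l ∈ A, l.map (Equiv.swap (k + 4) (k + 2)) ∈ A ∧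
      px (l.map (Equiv.swap (k + 4) (k + 2))) (k + 4) = px l (k + 2) ∧
      px (l.map (Equiv.swap (k + 4) (k + 2))) (k + 2) = px l (k + 4) := by
    intro l hl
    rw [hA] at hl ⊢
    obtain ⟨hl, p1, p2⟩ := mem_filter.1 hl
    have f := fun u => qp_px_map (Equiv.swap (k + 4) (k + 2)).injective l u
    have f1 := f 1
    have f2 := f (k + 2)
    have f3 := f (k + 3)
    have f4 := f (k + 4)
    rw [Equiv.swap_apply_of_ne_of_ne (by omega) (by omega)] at f1 f3
    rw [Equiv.swap_apply_right] at f2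
    rw [Equiv.swap_apply_left] at f4
    exact ⟨mem_filter.2 ⟨qp_swap_mem hl m4 m2, f1.trans p1, f3.trans p2⟩, f2, f4⟩
  have hne : ∀ l ∈ A, px l (k + 4) ≠ px l (k + 2) := by
    intro l hl h
    rw [hA] at hl
    have hl' := mem_Sn.1 (mem_filter.1 hl).1
    have := (List.idxOf_inj (hl'.mem_iff.2 m4)).1 h
    omega
  have e1 : ((Sn (k + 4)).filter fun l => MainP (k + 4) (px l)) =
      A.filter fun l => px l (k + 4) < px l (k + 2) := by
    ext l
    rw [hA, mem_filter, mem_filter, mem_filter, MainP, show k + 4 - 1 = k + 3 from rfl,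
      show k + 4 - 2 = k + 2 from rfl]
    constructor
    · rintro ⟨a, b, c, d⟩
      exact ⟨⟨a, by omega, by omega⟩, d⟩
    · rintro ⟨⟨a, b, c⟩, d⟩
      exact ⟨a, by omega, by omega, d⟩
  have inv : ∀ l : List ℕ,
      (l.map (Equiv.swap (k + 4) (k + 2))).map (Equiv.swap (k + 4) (k + 2)) = l := by
    intro l
    rw [List.map_map]
    simp [Function.comp_def]
  have e2 : (A.filter fun l => px l (k + 4) < px l (k + 2)).card =
      (A.filter fun l => ¬px l (k + 4) < px l (k + 2)).card := by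
    refine card_nbij' (fun l => l.map (Equiv.swap (k + 4) (k + 2)))
      (fun l => l.map (Equiv.swap (k + 4) (k + 2))) ?_ ?_ (fun l _ => inv l) (fun l _ => inv l)
    · intro l hl
      obtain ⟨a, b⟩ := mem_filter.1 (mem_coe.1 hl)
      obtain ⟨c, d, e⟩ := hs l a
      exact mem_coe.2 (mem_filter.2 ⟨c, by rw [d, e]; omega⟩)
    · intro l hl
      obtain ⟨a, b⟩ := mem_filter.1 (mem_coe.1 hl)
      obtain ⟨c, d, e⟩ := hs l a
      have := hne l a
      exact mem_coe.2 (mem_filter.2 ⟨c, by rw [d, e]; omega⟩)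
  have e3 := card_filter_add_card_filter_not (s := A) fun l => px l (k + 4) < px l (k + 2)
  rw [e1, show k + 4 - 2 = k + 2 from rfl]
  omega

end Pool.Agent.StackSort
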