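import Pool.Agent.P.MP_f1060b_co.QCases
import Pool.Agent.P.MP_f1060b_co.QModel
import Pool.Agent.P.MP_f1060b_co.QGood
import Pool.Agent.P.MP_f1060b_co.QPin

namespace Pool.Agent.StackSort

open Finset

lemma Dyn.main {n k : ℕ} {p v : ℕ → ℕ → ℕ} {P w : ℕ → ℕ} (D : Dyn n k p v P w) (hn : 4 ≤ n)
    (h : MainP n (p 0)) : FF k P w k = (n - 1) / (n - 2) ∧
      ∀ i < n, i = 0 ∨ (∃ t < k, i + 1 = P t) ∨ ∀ t < k, v t i = i + 1 := by
  obtain ⟨h1, h2, h3⟩ := h
  have k0 : 0 < k := by
    by_contra hc
    have := D.fin 1 le_rfl (by omega)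
    rw [show k = 0 by omega] at this
    omega
  have W0 := D.walk 0 k0
  have p0 : P 0 = n := by
    by_contra hc
    have := D.fix 0 k0 n (by omega) le_rfl
    have := D.inj (t := 0) (a := n) (b := 1) (by omega) le_rfl le_rfl (by omega) (by omega)
    omega
  have w0 : w 0 = 1 := D.inj (t := 0) W0.1 (by omega) le_rfl (by omega) (by omega)
  have lo : ∀ a, 2 ≤ a → a ≤ n → a ≠ n - 1 → p 0 a < n - 2 := fun a a1 a2 a3 => by
    have := D.lt 0 a (by omega) a2
    have := D.tri 0 (a := a) (b := 1) (by omega) a2 le_rfl (by omega) (by omega)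
    have := D.tri 0 (a := a) (b := n - 1) (by omega) a2 (by omega) (by omega) a3
    omega
  have inl : ∀ a, 2 ≤ a → a + 2 ≤ n → p 1 a < p 1 1 := fun a a1 a2 =>
    (D.rule 0 a 1 le_rfl a1 (by omega)).2 ⟨n - 1, by omega, by omega,
      by have := lo a a1 (by omega) (by omega); omega, by omega⟩
  have i2 := inl (n - 2) (by omega) (by omega)
  have k1 : 1 < k := by
    by_contra hc
    have := D.fin 1 le_rfl (by omega)
    rw [show k = 1 by omega] at this
    omega
  have W1 := D.walk 1 k1
  have d0 : P 1 < P 0 := D.dec 0 k1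
  have a1 : p 1 1 < p 1 (n - 1) := by
    rcases D.tri 1 (a := 1) (b := n - 1) le_rfl (by omega) (by omega) (by omega) (by omega)
      with e | e
    · exact e
    · obtain ⟨c, -, -, _, _⟩ := (D.rule 0 (n - 1) 1 le_rfl (by omega) (by omega)).1 e
      omega
  have w1 : w 1 = 1 := by
    by_contra hc
    have := D.last (a := 1) k1 le_rfl (by omega) (Ne.symm hc)
    have := inl (w 1) (by omega) (by omega)
    omega
  have p1 : P 1 = n - 2 := by
    have := D.le_P (a := n - 2) k1 (by omega) le_rfl (by omega) i2
    by_contra hc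
    have := D.last (a := n - 1) k1 (by omega) (by omega) (by omega)
    rw [w1] at this
    omega
  have sg : el n p 1 (w 1) ≤ el n p (1 + 1) (w 1) + 1 := by
    rw [w1]
    refine D.sig_of_last le_rfl (by omega) i2 fun a b1 b2 b3 b4 => ?_
    have b5 := D.le_P k1 b2 le_rfl (by omega) b3
    refine ⟨by omega, ?_⟩
    rcases D.tri 1 (a := a) (b := n - 2) (by omega) b2 (by omega) (by omega) b4 with e | e
    · exact e
    · obtain ⟨c, c1, c2, c3, c4⟩ := (D.rule 0 (n - 2) a (by omega) (by omega) (by omega)).1 e
      have := lo a b1 b2 (by omega)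
      rcases (show c = n - 1 ∨ c = n by omega) with rfl | rfl <;> omega
  have run := fun m hm => D.crun k1 sg m hm
  rw [w1, p1] at run
  have hk : k = n - 3 + 1 := by
    have e := run (n - 4) (by omega)
    by_contra hc
    have := D.dec (1 + (n - 4)) (by omega)
    have := D.walk (1 + (n - 4) + 1) (by omega)
    omega
  refine ⟨?_, fun i hi => ?_⟩
  · rw [FF]
    conv_lhs => rw [hk, prod_range_succ']
    rw [prod_eq_one, one_mul, p0, w0, Nat.sub_zero, show n - 3 + 1 = n - 2 by omega,
      Nat.cast_sub (by omega), Nat.cast_sub (by omega)]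
    · norm_num
    · intro m hm
      have hm := mem_range.1 hm
      have e := run m (by omega)
      rw [add_comm 1 m] at e
      rw [show P (m + 1) - w (m + 1) = n - 3 + 1 - (m + 1) by omega]
      exact div_self (Nat.cast_ne_zero.2 (by omega))
  · by_cases e0 : i = 0
    · exact Or.inl e0
    by_cases e1 : i = n - 1
    · exact Or.inr (Or.inl ⟨0, k0, by omega⟩)
    by_cases e2 : i = n - 2
    · refine Or.inr (Or.inr fun t ht => ?_)
      have : p t (n - 1) = i := by
        rcases Nat.eq_zero_or_pos t with rfl | t1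
        · omega
        · have := D.P_le (s := 1) t1 ht
          have := D.fix t ht (n - 1) (by omega) (by omega)
          omega
      rw [← this, D.vp t _ (by omega) (by omega)]
      omega
    · have e := run (n - 3 - i) (by omega)
      exact Or.inr (Or.inl ⟨_, e.1, by omega⟩)

lemma main_vol {n : ℕ} {l : List ℕ} (hn : 4 ≤ n) (hl : l ∈ Sn n) (h : MainP n (px l)) :
    vol n l = (n - 1) / (n - 2) := by
  obtain ⟨P, w, D⟩ := exists_dyn hl
  obtain ⟨h1, h2⟩ := D.main hn h
  rw [vol_eq_FF hl D (by omega) h2, h1]

lemma main_iff {n : ℕ} {l : List ℕ} (hn : 4 ≤ n) (hl : l ∈ Sn n) :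
    (∃ L M, l = L ++ n :: M ++ [n - 1, 1] ∧ n - 2 ∈ M) ↔ MainP n (px l) := by
  have nd := Sn_nodup hl
  have len := Sn_length hl
  constructor
  · rintro ⟨L, M, rfl, hM⟩
    have s1 : [n, n - 2].Sublist (L ++ n :: M ++ [n - 1, 1]) :=
      (((List.singleton_sublist.2 hM).cons_cons n).trans (List.sublist_append_right _ _)).trans
        (List.sublist_append_left _ _)
    have d := List.nodup_append.1 nd
    have e1 : (n - 1) ∉ L ++ n :: M := fun h => d.2.2 _ h _ (by simp) rfl
    have e2 : 1 ∉ L ++ n :: M := fun h => d.2.2 _ h _ (by simp) rfl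
    rw [List.length_append] at len
    refine ⟨?_, ?_, ((pair_sub nd).1 s1).2⟩
    · rw [px, List.idxOf_append, if_neg e2, List.idxOf_cons_ne _ (by omega), List.idxOf_cons_self]
      simp only [List.length_cons, List.length_nil] at len
      omega
    · rw [px, List.idxOf_append, if_neg e1, List.idxOf_cons_self]
      simp only [List.length_cons, List.length_nil] at len
      omega
  · rintro ⟨h1, h2, h3⟩
    obtain ⟨A, a, rfl⟩ := (List.eq_nil_or_concat' l).resolve_left (by rintro rfl; simp at len; omega)
    obtain ⟨B, b, rfl⟩ := (List.eq_nil_or_concat' A).resolve_left (by rintro rfl; simp at len; omega)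
    simp only [List.length_append, List.length_singleton] at len
    have ea : a = 1 := by
      have := (px_getD hl (by omega : n - 1 < n)).2.2
      rw [List.getD_append_right _ _ _ _ (by simp; omega)] at this
      simp only [List.length_append, List.length_singleton, show n - 1 - (B.length + 1) = 0 by omega,
        List.getD_cons_zero] at this
      exact (List.idxOf_inj (by simp)).1 (this.trans (by unfold px at h1; omega))
    have eb : b = n - 1 := by
      have := (px_getD hl (by omega : n - 2 < n)).2.2
      rw [List.getD_append _ _ _ _ (by simp; omega), List.getD_append_right _ _ _ _ (by omega)] at this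
      simp only [show n - 2 - B.length = 0 by omega, List.getD_cons_zero] at this
      exact (List.idxOf_inj (by simp)).1 (this.trans (by unfold px at h2; omega))
    subst ea eb
    have s1 := (pair_sub nd).2 ⟨(Sn_mem hl).2 ⟨by omega, by omega⟩, h3⟩
    have m1 : n ∈ B := by
      have := s1.subset (List.mem_cons_self)
      simp only [List.mem_append, List.mem_singleton] at this
      rcases this with (e | e) | e
      · exact e
      · omega
      · omega
    obtain ⟨L, M, rfl⟩ := List.append_of_mem m1
    refine ⟨L, M, by simp, ?_⟩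
    have m2 := s1.subset (a := n - 2) (by simp)
    have hL : n ∉ L := fun e => (List.nodup_cons.1 (List.nodup_middle.1
      (List.nodup_append.1 (List.nodup_append.1 nd).1).1)).1 (List.mem_append_left _ e)
    simp only [List.mem_append, List.mem_cons, List.not_mem_nil, or_false] at m2
    rcases m2 with ((e | e | e) | e) | e
    · rw [List.append_assoc, List.append_assoc, List.cons_append, px, px, (idx_split hL).1] at h3
      exact absurd (((idx_split hL).2 _).2.1 e) h3.not_gt
    · omega
    · exact e
    · omega
    · omega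

open Classical in
lemma count_rest {q x n : ℕ} (h : Par q x n) :
    x * ((Sn n).filter fun l => 1 < vol n l ∧ ¬MainP n (px l)).card ≤ 7 * (n - 2).factorial := by
  have c1 := bad1 h
  have c2 := bad2 h
  have c3 := bad3 h
  have c4 := bad4 h
  have c5 := cnt_three h
  have c6 := cnt_eps h
  have c7 := cnt_del h
  refine (Nat.mul_le_mul_left x ((card_le_card fun l hl => ?_).trans
    ((card_union_le _ _).trans (Nat.add_le_add_left ((card_union_le _ _).trans
    (Nat.add_le_add_left ((card_union_le _ _).trans (Nat.add_le_add_left ((card_union_le _ _).trans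
    (Nat.add_le_add_left ((card_union_le _ _).trans (Nat.add_le_add_left (card_union_le _ _)
      _)) _)) _)) _)) _)))).trans (le_trans (le_of_eq (by simp only [mul_add]; rfl))
      ((add_le_add c1 (add_le_add c2 (add_le_add c3 (add_le_add c4 (add_le_add c5
        (add_le_add c6 c7)))))).trans (by omega)))
  obtain ⟨l1, l2, l3⟩ := mem_filter.1 hl
  simp only [mem_union, mem_filter, l1, true_and]
  by_contra hc
  simp only [not_or, not_not] at hc
  obtain ⟨g1, g2, g3, g4, g5, g6, g7⟩ := hc
  obtain ⟨P, w, D⟩ := exists_dyn l1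
  rcases D.outcome h g1 g2 g3 g4 (fun u => life (LL u l)) (fun u t u1 u2 => el_life l1 u1 u2 t)
    (l2.trans_le (vol_le_FF l1 D)) (fun e => LP_of_vol l1 D (by linarith)) with e | e | e | e
  · exact l3 e
  · exact g5 e
  · exact g6 e
  · exact g7 e

lemma exists_par : ∀ᶠ n : ℕ in Filter.atTop, ∃ q x, Par q x n := by
  have h : ∀ m, ∀ᶠ n : ℕ in Filter.atTop, m ≤ Nat.log 2 n := fun m =>
    (Filter.eventually_ge_atTop (2 ^ m)).mono fun n hn => Nat.le_log_of_pow_le (by norm_num) hn
  filter_upwards [h 2500000, Filter.eventually_gt_atTop 0] with n h1 h2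
  refine ⟨Nat.log 2 n / 250, _, by omega, rfl, ?_, ?_⟩
  · rw [← pow_mul]
    exact (Nat.pow_le_pow_right (by norm_num) (Nat.div_mul_le_self _ _)).trans
      (Nat.pow_log_le_self 2 h2.ne')
  · rw [← pow_mul]
    exact (Nat.lt_pow_succ_log_self (by norm_num) n).le.trans
      (Nat.pow_le_pow_right (by norm_num) (by omega))

end Pool.Agent.StackSort
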