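import Pool.Agent.P.MP_f1060b_co.QRun

namespace Pool.Agent.StackSort

open Finset

variable {n k : ℕ} {p v : ℕ → ℕ → ℕ} {P w : ℕ → ℕ}

lemma badW_anti (s : ℕ) (π : ℕ → ℕ) {a b : ℕ} (h : a ≤ b) : badW n s π b ≤ badW n s π a :=
  card_le_card fun i hi => by
    simp only [mem_filter] at hi ⊢
    exact ⟨hi.1, by omega, hi.2.2⟩

lemma win_bound {s lo hi : ℕ} {π : ℕ → ℕ} (hs : 0 < s) (h1 : lo ≤ hi) (h2 : hi ≤ n)
    (h : ∀ a, lo < a → a < hi → NI π a) :
    hi - lo + 3 * s * badW n s π hi ≤ 3 * s * (badW n s π lo + 2) := by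
  have hl : 0 < 3 * s := by omega
  have key : badW n s π hi + (hi / (3 * s) - (lo / (3 * s) + 1)) ≤ badW n s π lo := by
    rw [← Nat.card_Ico, badW, ← card_union_of_disjoint]
    · refine card_le_card fun i hi' => ?_
      simp only [mem_union, mem_filter, mem_Ico, mem_range] at hi' ⊢
      rcases hi' with hi' | hi'
      · exact ⟨hi'.1, by omega, hi'.2.2⟩
      · have e1 : 3 * s * (lo / (3 * s) + 1) ≤ 3 * s * i := Nat.mul_le_mul_left _ hi'.1
        have e2 : 3 * s * (i + 1) ≤ 3 * s * (hi / (3 * s)) := Nat.mul_le_mul_left _ hi'.2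
        have e3 := Nat.mul_div_le hi (3 * s)
        have e4 := Nat.lt_mul_div_succ lo hl
        have e5 : i + 1 ≤ 3 * s * (i + 1) := Nat.le_mul_of_pos_left _ hl
        rw [mul_add, mul_one] at e2 e5
        refine ⟨by omega, by omega, by rw [mul_add]; omega, fun r hr => h _ (by omega) (by omega)⟩
    · refine disjoint_left.2 fun i h3 h4 => ?_
      simp only [mem_filter, mem_Ico] at h3 h4
      have e2 : 3 * s * (i + 1) ≤ 3 * s * (hi / (3 * s)) := Nat.mul_le_mul_left _ h4.2
      have e3 := Nat.mul_div_le hi (3 * s)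
      rw [mul_add, mul_one] at e2
      omega
  have e1 := Nat.mul_div_le lo (3 * s)
  have e2 := Nat.lt_mul_div_succ hi hl
  have e3 := Nat.mul_le_mul_left (3 * s) key
  have e4 : 3 * s * (hi / (3 * s) + 1) ≤
      3 * s * (lo / (3 * s) + (hi / (3 * s) - (lo / (3 * s) + 1)) + 2) :=
    Nat.mul_le_mul_left _ (by omega)
  simp only [mul_add] at *
  omega

lemma FF_succ (i : ℕ) :
    FF k P w (i + 1) = FF k P w i * (((P i - w i : ℕ) : ℝ) / (k - i : ℕ)) := prod_range_succ _ _

lemma FF_nonneg (i : ℕ) : 0 ≤ FF k P w i := prod_nonneg fun _ _ => by positivity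

lemma FF_add_le {c : ℝ} (a b : ℕ)
    (h : ∀ t, a ≤ t → t < a + b → ((P t - w t : ℕ) : ℝ) / (k - t : ℕ) ≤ c) :
    FF k P w (a + b) ≤ FF k P w a * c ^ b := by
  rw [FF, prod_range_add]
  refine mul_le_mul_of_nonneg_left ?_ (FF_nonneg a)
  rw [← card_range b, ← prod_const, card_range]
  exact prod_le_prod (fun _ _ => by positivity) fun t ht =>
    h _ (by omega) (by have := mem_range.1 ht; omega)

lemma big_two {H j d : ℕ} (hH : 2 ≤ H) (h : H * j < H * d + j) : j ≤ 2 * d := by
  by_contra hc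
  obtain ⟨a, rfl⟩ : ∃ a, H = a + 2 := ⟨H - 2, by omega⟩
  nlinarith [Nat.mul_le_mul_left a (by omega : d ≤ j)]

lemma two_mul_le_pow (b : ℕ) : 2 * b ≤ 2 ^ b := by
  rcases b with _ | b
  · simp
  · have := Nat.lt_two_pow_self (n := b)
    rw [pow_succ]
    omega

lemma crun_prod (j d : ℕ) : ∏ m ∈ range d, ((d - m : ℕ) : ℝ) / (d + j - m : ℕ) =
    d.factorial * j.factorial / (d + j).factorial := by
  induction d with
  | zero =>
    have : (j.factorial : ℝ) ≠ 0 := by positivity
    simp [this]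
  | succ d ih =>
    rw [prod_range_succ']
    simp only [Nat.add_sub_add_right, show ∀ m, d + 1 + j - (m + 1) = d + j - m from
      fun m => by omega, ih, Nat.sub_zero]
    rw [show d + 1 + j = d + j + 1 by ring, Nat.factorial_succ, Nat.factorial_succ]
    push_cast
    field_simp

lemma crun_bound {K j d : ℕ} (h : 2 * K * j ≤ d) :
    (d.factorial * j.factorial / (d + j).factorial : ℝ) * K ^ j ≤ (1 / 2) ^ j := by
  have h1 : d.factorial * j.factorial * K ^ j * 2 ^ j ≤ (d + j).factorial := by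
    refine le_trans ?_ Nat.factorial_mul_pow_le_factorial
    rw [mul_assoc, mul_assoc]
    refine Nat.mul_le_mul_left _ ?_
    calc j.factorial * (K ^ j * 2 ^ j) ≤ j ^ j * (K ^ j * 2 ^ j) :=
          Nat.mul_le_mul_right _ (Nat.factorial_le_pow j)
      _ = (2 * K * j) ^ j := by ring
      _ ≤ (d + 1) ^ j := Nat.pow_le_pow_left (by omega) _
  have h2 : (0 : ℝ) < (d + j).factorial := by positivity
  rw [div_mul_eq_mul_div, one_div, inv_pow, div_le_iff₀ h2, inv_mul_eq_div,
    le_div_iff₀ (by positivity)]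
  exact_mod_cast h1

namespace Dyn

variable (D : Dyn n k p v P w)
include D

lemma f_le {t c : ℕ} (ht : t < k) (h : el n p t (w t) ≤ el n p (t + 1) (w t) + c) :
    ((P t - w t : ℕ) : ℝ) / (k - t : ℕ) ≤ c := by
  have W := D.walk t ht
  have := D.el_le_mul W.1 (by omega) ht.le h
  rw [D.el_walk ht] at this
  rw [div_le_iff₀ (Nat.cast_pos.2 (by omega))]
  exact_mod_cast this

lemma tail {K s : ℕ} (hK : ∀ t u, 1 ≤ u → u ≤ n → el n p t u ≤ el n p (t + 1) u + K) (hs : s < k)
    (h : el n p s (w s) ≤ el n p (s + 1) (w s) + 1) {j : ℕ} (hj : s + (P s - w s) + j = k)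
    (h2 : 2 * K * j ≤ P s - w s) : FF k P w k ≤ FF k P w s * (1 / 2) ^ j := by
  have e1 : FF k P w (s + (P s - w s) + j) ≤ FF k P w (s + (P s - w s)) * (K : ℝ) ^ j :=
    FF_add_le _ _ fun t _ t2 => by
      have W := D.walk t (by omega)
      exact D.f_le (by omega) (hK t _ W.1 (by omega))
  have e2 : FF k P w (s + (P s - w s)) = FF k P w s *
      ((P s - w s).factorial * j.factorial / (P s - w s + j).factorial) := by
    rw [FF, prod_range_add, ← crun_prod]
    congr 1
    refine prod_congr rfl fun m hm => ?_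
    obtain ⟨a1, a2, a3⟩ := D.crun hs h m (mem_range.1 hm)
    rw [a2, show P (s + m) - w s = P s - w s - m by omega,
      show k - (s + m) = P s - w s + j - m by omega]
  rw [hj, e2, mul_assoc] at e1
  exact e1.trans (mul_le_mul_of_nonneg_left (crun_bound h2) (FF_nonneg s))

lemma big_end {x K M js t : ℕ} (hK : ∀ t u, 1 ≤ u → u ≤ n → el n p t u ≤ el n p (t + 1) u + K)
    (G : G2 n x (p 0)) (hM : 2 * x * n ≤ M * js) (ht : t < k) (h : js ≤ 2 * (P t - w t)) :
    n ≤ p 0 (w t) + M ∧ n ≤ P t + K * t + M := by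
  have W := D.walk t ht
  have h1 : n ≤ p 0 (w t) + M := by
    refine D.end_of_inv (t := t) G W.1 le_rfl W.2.2.1 ?_ fun a a1 a2 =>
      D.last ht (by omega) a2 (by omega)
    have := Nat.mul_le_mul_left M h
    nlinarith
  refine ⟨h1, ?_⟩
  have h2 := D.el_le_add W.1 (by omega) (Nat.zero_le t) (hK 0 _ W.1 (by omega))
  rw [D.el_walk ht, Nat.sub_zero] at h2
  have h3 : n - w t ≤ el n p 0 (w t) + M := by
    rw [← Nat.card_Ioc]
    refine le_trans (card_le_card fun a ha => ?_) ((card_union_le _ _).trans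
      (Nat.add_le_add_left (D.card_end M) _))
    rw [mem_Ioc] at ha
    rw [mem_union, mem_el, mem_filter, mem_Icc]
    have := D.tri 0 (a := a) (b := w t) (by omega) ha.2 W.1 (by omega) (by omega)
    omega
  omega

lemma pb {x K H M js s : ℕ} (hK : ∀ t u, 1 ≤ u → u ≤ n → el n p t u ≤ el n p (t + 1) u + K)
    (G : G2 n x (p 0)) (hK1 : 1 ≤ K) (hH : 2 ≤ H) (hM : 2 * x * n ≤ M * js) (hs : 0 < s)
    (hD : 4 * K ^ 2 * 2 ^ (6 * s) ≤ js) (i : ℕ)
    (hi : ∀ t ≤ i, js ≤ k - t ∧ (H * (k - t) < H * (P t - w t) + (k - t) →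
      el n p (t + 1) (w t) + 1 < el n p t (w t))) :
    (∃ u, P i ≤ u ∧ u ≤ n ∧ n ≤ u + K * i + M ∧ FF k P w (i + 1) ≤ (1 - 1 / H) ^ (i + 1) *
      (2 * K * 2 ^ (6 * s) * 2 ^ (3 * s * badW n s (p 0) u)) *
        if P (i + 1) < w i then 2 * K / (js : ℝ) else 1) ∧
    (H * (k - i) < H * (P i - w i) + (k - i) → ∃ u, P i ≤ u ∧ u ≤ n ∧ FF k P w (i + 1) ≤
      (1 - 1 / H) ^ (i + 1) * (2 * K * 2 ^ (3 * s * badW n s (p 0) u) * 2 ^ (u - P i)) ∧
      (∀ a, P i < a → a < u → NI (p 0) a) ∧ (P i < u → p 0 (P i + 2) < p 0 (P i + 1))) := by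
  have hp1 : 1 ≤ 2 ^ (6 * s) := Nat.one_le_two_pow
  have hjs : 4 * K ≤ js := by nlinarith
  have hH' : (2 : ℝ) ≤ H := by exact_mod_cast hH
  have hK' : (1 : ℝ) ≤ K := by exact_mod_cast hK1
  have hjs' : (0 : ℝ) < js := Nat.cast_pos.2 (by omega)
  set c : ℝ := 1 - 1 / H with hc
  have hc1 : 1 / 2 ≤ c := by
    have : (1 : ℝ) / H ≤ 1 / 2 := one_div_le_one_div_of_le (by norm_num) hH'
    linarith
  have he : 2 * K * 2 ^ (6 * s) * (2 * K / (js : ℝ)) ≤ 1 := by
    rw [← mul_div_assoc, div_le_one hjs']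
    have : ((4 * K ^ 2 * 2 ^ (6 * s) : ℕ) : ℝ) ≤ js := by exact_mod_cast hD
    push_cast at this
    linarith
  have he1 : 2 * K / (js : ℝ) ≤ 1 := by
    rw [div_le_one hjs']
    exact_mod_cast (by omega : 2 * K ≤ js)
  have small : ∀ t, t < k → js ≤ k - t → ¬H * (k - t) < H * (P t - w t) + (k - t) →
      ((P t - w t : ℕ) : ℝ) / (k - t : ℕ) ≤ c * if P (t + 1) < w t then 2 * K / (js : ℝ) else 1 := by
    intro t ht h1 h2
    have W := D.walk t ht
    have hj : (0 : ℝ) < (k - t : ℕ) := Nat.cast_pos.2 (by omega)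
    split_ifs with hr
    · have e := hK t _ W.1 (by omega)
      rw [D.reset (by omega) hr, D.el_walk ht, zero_add] at e
      calc ((P t - w t : ℕ) : ℝ) / (k - t : ℕ) ≤ K / js := by
            gcongr
        _ = 1 / 2 * (2 * K / js) := by ring
        _ ≤ c * (2 * K / js) := by gcongr
    · rw [mul_one, div_le_iff₀ hj, hc]
      have : ((H * (P t - w t) + (k - t) : ℕ) : ℝ) ≤ (H * (k - t) : ℕ) := by
        exact_mod_cast not_lt.1 h2
      rw [Nat.cast_add, Nat.cast_mul, Nat.cast_mul] at this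
      have h0 : (0 : ℝ) < H := by linarith
      field_simp
      linarith
  have anyf : ∀ t, t < k → ((P t - w t : ℕ) : ℝ) / (k - t : ℕ) ≤ c * (2 * K) := by
    intro t ht
    have W := D.walk t ht
    have := D.f_le ht (hK t _ W.1 (by omega))
    nlinarith
  have BA : ∀ t, t < k → js ≤ k - t → H * (k - t) < H * (P t - w t) + (k - t) →
      (∃ u, P t ≤ u ∧ u ≤ n ∧ FF k P w (t + 1) ≤
      c ^ (t + 1) * (2 * K * 2 ^ (3 * s * badW n s (p 0) u) * 2 ^ (u - P t)) ∧
      (∀ a, P t < a → a < u → NI (p 0) a) ∧ (P t < u → p 0 (P t + 2) < p 0 (P t + 1))) →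
      ∃ u, P t ≤ u ∧ u ≤ n ∧ n ≤ u + K * t + M ∧ FF k P w (t + 1) ≤ c ^ (t + 1) *
      (2 * K * 2 ^ (6 * s) * 2 ^ (3 * s * badW n s (p 0) u)) *
        if P (t + 1) < w t then 2 * K / (js : ℝ) else 1 := by
    rintro t ht h1 h2 ⟨u, u1, u2, u3, u4, -⟩
    have W := D.walk t ht
    have hb := big_two hH h2
    refine ⟨P t, le_rfl, W.2.2.1, (D.big_end hK G hM ht (by omega)).2, ?_⟩
    rw [if_neg, mul_one]
    · refine u3.trans (mul_le_mul_of_nonneg_left ?_ (by positivity))
      rw [mul_assoc, mul_assoc (2 * K : ℝ), ← pow_add, ← pow_add]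
      have := win_bound hs u1 u2 u4
      refine mul_le_mul_of_nonneg_left (pow_le_pow_right₀ (by norm_num) ?_) (by positivity)
      rw [mul_add] at this
      omega
    · intro hr
      have e := hK t _ W.1 (by omega)
      rw [D.reset (by omega) hr, D.el_walk ht, zero_add] at e
      omega
  induction i with
  | zero =>
    obtain ⟨h1, -⟩ := hi 0 le_rfl
    have hk : 0 < k := by omega
    have W := D.walk 0 hk
    have hB : H * (k - 0) < H * (P 0 - w 0) + (k - 0) → ∃ u, P 0 ≤ u ∧ u ≤ n ∧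
        FF k P w (0 + 1) ≤
        c ^ (0 + 1) * (2 * K * 2 ^ (3 * s * badW n s (p 0) u) * 2 ^ (u - P 0)) ∧
        (∀ a, P 0 < a → a < u → NI (p 0) a) ∧ (P 0 < u → p 0 (P 0 + 2) < p 0 (P 0 + 1)) := by
      refine fun _ => ⟨P 0, le_rfl, W.2.2.1, ?_, fun a _ _ => by omega, fun _ => by omega⟩
      rw [FF_succ, FF, prod_range_zero, one_mul, zero_add, pow_one, Nat.sub_self, pow_zero, mul_one]
      refine (anyf 0 hk).trans (mul_le_mul_of_nonneg_left ?_ (by linarith))
      exact le_mul_of_one_le_right (by positivity) (one_le_pow₀ (by norm_num))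
    refine ⟨?_, hB⟩
    by_cases hb : H * (k - 0) < H * (P 0 - w 0) + (k - 0)
    · exact BA 0 hk h1 hb (hB hb)
    · refine ⟨n, W.2.2.1, le_rfl, by omega, ?_⟩
      rw [FF_succ, FF, prod_range_zero, one_mul, zero_add, pow_one]
      refine (small 0 hk h1 hb).trans (mul_le_mul_of_nonneg_right ?_ (by split_ifs <;> positivity))
      refine le_mul_of_one_le_right (by linarith) (one_le_mul_of_one_le_of_one_le
        (one_le_mul_of_one_le_of_one_le (by linarith) ?_) ?_) <;> exact one_le_pow₀ (by norm_num)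
  | succ t ih =>
    obtain ⟨⟨u, u1, u2, u3, u4⟩, iB⟩ := ih fun r hr => hi r (by omega)
    obtain ⟨h1, h2⟩ := hi (t + 1) le_rfl
    have hk : t + 1 < k := by omega
    have W := D.walk t (by omega)
    have W' := D.walk _ hk
    have hd := D.dec t hk
    have hB : H * (k - (t + 1)) < H * (P (t + 1) - w (t + 1)) + (k - (t + 1)) →
        ∃ u, P (t + 1) ≤ u ∧ u ≤ n ∧ FF k P w (t + 1 + 1) ≤ c ^ (t + 1 + 1) *
        (2 * K * 2 ^ (3 * s * badW n s (p 0) u) * 2 ^ (u - P (t + 1))) ∧
        (∀ a, P (t + 1) < a → a < u → NI (p 0) a) ∧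
        (P (t + 1) < u → p 0 (P (t + 1) + 2) < p 0 (P (t + 1) + 1)) := by
      intro hb
      by_cases hr : P (t + 1) < w t
      · refine ⟨P (t + 1), le_rfl, W'.2.2.1, ?_, fun a _ _ => by omega, fun _ => by omega⟩
        rw [if_pos hr] at u4
        have e1 : (2 : ℝ) ^ (3 * s * badW n s (p 0) u) ≤ 2 ^ (3 * s * badW n s (p 0) (P (t + 1))) :=
          pow_le_pow_right₀ (by norm_num) (Nat.mul_le_mul_left _ (badW_anti s _ (by omega)))
        have e2 : FF k P w (t + 1) ≤ c ^ (t + 1) * 2 ^ (3 * s * badW n s (p 0) (P (t + 1))) := by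
          refine u4.trans ?_
          rw [mul_assoc]
          refine mul_le_mul_of_nonneg_left ?_ (by positivity)
          rw [mul_right_comm]
          exact (mul_le_of_le_one_left (by positivity) he).trans e1
        rw [FF_succ, Nat.sub_self, pow_zero, mul_one]
        calc _ ≤ c ^ (t + 1) * 2 ^ (3 * s * badW n s (p 0) (P (t + 1))) * (c * (2 * K)) :=
              mul_le_mul e2 (anyf _ hk) (by positivity) (by positivity)
          _ = _ := by ring
      · have hw := D.step_w hk (not_lt.1 hr)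
        have hbt : H * (k - t) < H * (P t - w t) + (k - t) := by
          have a1 : H * (P (t + 1) - w (t + 1) + 1) ≤ H * (P t - w t) :=
            Nat.mul_le_mul_left _ (by omega)
          rw [show k - t = k - (t + 1) + 1 by omega]
          rw [mul_add] at a1 ⊢
          omega
        obtain ⟨z, z1, z2, z3, z4, z5⟩ := iB hbt
        have hsig := D.step_sig hk
        have h3 := h2 hb
        have hb2 : P (t + 1) + 2 ≤ P t := by
          rw [show t + 1 + 1 = t + 2 from rfl] at h3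
          omega
        have blk : ∀ a, P (t + 1) < a → a < P t → p 0 (a + 1) < p 0 a := fun a a1 a2 =>
          D.inv_le (Nat.zero_le t) (by omega) (by omega) (by omega)
            (D.step_block hk (not_lt.1 hr) a1 a2)
        refine ⟨z, by omega, z2, ?_, fun a a1 a2 => ?_, fun _ => blk _ (by omega) (by omega)⟩
        · have e1 := D.f_le hk hsig
          have e2 : ((2 * (P t - P (t + 1)) : ℕ) : ℝ) ≤ (2 ^ (P t - P (t + 1)) : ℕ) := by
            exact_mod_cast two_mul_le_pow _
          rw [Nat.cast_mul, Nat.cast_pow, Nat.cast_ofNat] at e2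
          have e3 : ((P (t + 1) - w (t + 1) : ℕ) : ℝ) / (k - (t + 1) : ℕ) ≤
              c * 2 ^ (P t - P (t + 1)) := by
            have : (0 : ℝ) < 2 ^ (P t - P (t + 1)) := by positivity
            nlinarith
          rw [FF_succ, show z - P (t + 1) = z - P t + (P t - P (t + 1)) by omega]
          calc _ ≤ _ := mul_le_mul z3 e3 (by positivity) (by positivity)
            _ = _ := by ring
        · rcases lt_trichotomy a (P t) with e | e | e
          · exact Or.inl (blk a a1 e)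
          · exact Or.inr (e ▸ z5 (by omega))
          · exact z4 a e a2
    refine ⟨?_, hB⟩
    by_cases hb : H * (k - (t + 1)) < H * (P (t + 1) - w (t + 1)) + (k - (t + 1))
    · exact BA _ hk h1 hb (hB hb)
    · refine ⟨u, by omega, u2, by rw [mul_add]; omega, ?_⟩
      have e2 : FF k P w (t + 1) ≤ c ^ (t + 1) *
          (2 * K * 2 ^ (6 * s) * 2 ^ (3 * s * badW n s (p 0) u)) := by
        refine u4.trans (mul_le_of_le_one_right (by positivity) ?_)
        split_ifs
        · exact he1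
        · exact le_rfl
      rw [FF_succ]
      calc _ ≤ _ := mul_le_mul e2 (small _ hk h1 hb) (by positivity) (by positivity)
        _ = _ := by ring

end Dyn

end Pool.Agent.StackSort
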