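import Pool.Agent.P.MP_f1060b_co.QStep

namespace Pool.Agent.StackSort

open Finset

variable {n k : ℕ} {p v : ℕ → ℕ → ℕ} {P w : ℕ → ℕ}

lemma G2.many {x M a c d : ℕ} {π : ℕ → ℕ} (h : G2 n x π) (hc : 1 ≤ c) (hd : d ≤ n + 1)
    (hM : x * n ≤ M * (d - c)) (r : ℕ) (hr : a + r * M ≤ n) :
    r ≤ ((Ico c d).filter fun u => a ≤ π u ∧ π u < a + r * M).card := by
  induction r with
  | zero => simp
  | succ r ih =>
    rw [add_mul, one_mul, ← add_assoc] at hr ⊢
    obtain ⟨u, u1, u2, u3, u4⟩ := h (a + r * M) (a + r * M + M) c d hr hc hd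
      (by rwa [Nat.add_sub_cancel_left])
    refine (ih (by omega)).trans_lt (card_lt_card ⟨fun b hb => ?_, fun hs => ?_⟩)
    · simp only [mem_filter] at hb ⊢
      exact ⟨hb.1, hb.2.1, by omega⟩
    · have := hs (mem_filter.2 ⟨mem_Ico.2 ⟨u1, u2⟩, by omega, u4⟩)
      simp only [mem_filter] at this
      omega

namespace Dyn

variable (D : Dyn n k p v P w)
include D

lemma top_last {t a : ℕ} (ht : t < k) (h : el n p t (w t) ≤ el n p (t + 1) (w t) + 1)
    (a1 : w t < a) (a2 : a < P t) : p t a < p t (P t) := by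
  have W := D.walk t ht
  by_contra hc
  obtain ⟨b, hb, hm⟩ := exists_max_image ((Ioc (w t) n).filter fun a => p t a < p t (w t)) (p t)
    ⟨a, mem_el.2 ⟨a1, by omega, D.last ht (by omega) a2.le (by omega)⟩⟩
  have ha := hm a (mem_el.2 ⟨a1, by omega, D.last ht (by omega) a2.le (by omega)⟩)
  have hP : P t ∈ (Ioc (w t) n).filter fun a => p t a < p t (w t) :=
    mem_el.2 ⟨W.2.1, W.2.2.1, D.last ht (by omega) le_rfl (by omega)⟩
  have hne : b ≠ P t := by
    rintro rfl
    have := D.inj (t := t) (a := a) (b := P t) (by omega) (by omega) (by omega) W.2.2.1 (by omega)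
    omega
  have hsub : ((Ioc (w t) n).filter fun a => p (t + 1) a < p (t + 1) (w t)) ⊆
      (((Ioc (w t) n).filter fun a => p t a < p t (w t)).erase (P t)).erase b := by
    intro c hc
    rw [mem_el] at hc
    obtain ⟨d, d1, d2, d3, d4⟩ := (D.rule t c _ W.1 hc.1 hc.2.1).1 hc.2.2
    have := D.le_P ht d2 W.1 W.2.1.le d4
    have := hm d (mem_el.2 ⟨by omega, d2, d4⟩)
    refine mem_erase.2 ⟨by rintro rfl; omega, mem_erase.2 ⟨by omega, ?_⟩⟩
    exact mem_el.2 ⟨hc.1, hc.2.1, by omega⟩
  have h1 := card_le_card hsub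
  rw [card_erase_of_mem (mem_erase.2 ⟨hne, hb⟩), card_erase_of_mem hP] at h1
  have h2 : 1 < ((Ioc (w t) n).filter fun a => p t a < p t (w t)).card :=
    one_lt_card.2 ⟨b, hb, _, hP, hne⟩
  unfold el at h
  omega

lemma sig_of_last {t u c : ℕ} (h1 : 1 ≤ u) (c2 : c ≤ n) (c3 : p t c < p t u)
    (h : ∀ a, u < a → a ≤ n → p t a < p t u → a ≠ c → a < c ∧ p t a < p t c) :
    el n p t u ≤ el n p (t + 1) u + 1 := by
  refine le_trans (card_le_card fun a ha => ?_) (card_insert_le c _)
  rw [mem_el] at ha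
  rw [mem_insert, mem_el]
  by_cases e : a = c
  · exact Or.inl e
  · have := h a ha.1 ha.2.1 ha.2.2 e
    exact Or.inr ⟨ha.1, ha.2.1, (D.rule t a u h1 ha.1 ha.2.1).2 ⟨c, this.1, c2, this.2, c3⟩⟩

lemma crun {s : ℕ} (hs : s < k) (h : el n p s (w s) ≤ el n p (s + 1) (w s) + 1) (m : ℕ)
    (hm : m < P s - w s) : s + m < k ∧ w (s + m) = w s ∧ P (s + m) + m = P s := by
  have W := D.walk s hs
  induction m with
  | zero => simpa using hs
  | succ m ih =>
    obtain ⟨i1, i2, i3⟩ := ih (by omega)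
    have h1 := D.el_le_add W.1 (by omega) (by omega : s ≤ s + m + 1) h
    rw [D.el_walk hs] at h1
    have hk : s + m + 1 < k := by
      by_contra hc
      rw [show s + m + 1 = k by omega, D.el_fin W.1 (by omega)] at h1
      omega
    have W' := D.walk _ hk
    have hd := D.dec _ hk
    have hy : w s ≤ P (s + m + 1) := by
      by_contra hc
      have := D.reset hk (by omega)
      rw [i2] at this
      omega
    have h2 := D.step_w hk (by omega)
    have hsub : ((Ioc (w s) n).filter fun a => p (s + m + 1) a < p (s + m + 1) (w s)) ⊆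
        (Ioc (w s) (P (s + m + 1))).erase (w (s + m + 1)) := fun a ha => by
      rw [mem_el] at ha
      refine mem_erase.2 ⟨?_, mem_Ioc.2 ⟨ha.1, D.le_P hk ha.2.1 W.1 hy ha.2.2⟩⟩
      rintro rfl
      have := D.last hk W.1 hy (by omega)
      omega
    have h3 := card_le_card hsub
    have h4 : ((Ioc (w s) (P (s + m + 1))).erase (w (s + m + 1))).card ≤ P (s + m + 1) - w s := by
      rw [← Nat.card_Ioc]; exact card_erase_le
    refine ⟨hk, ?_, ?_⟩
    · by_contra hc
      rw [card_erase_of_mem (mem_Ioc.2 ⟨by rw [← add_assoc] at hc; omega, W'.2.1.le⟩),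
        Nat.card_Ioc] at h3
      unfold el at h1
      omega
    · unfold el at h1
      show P (s + m + 1) + (m + 1) = P s
      omega

lemma rset_aux {s r : ℕ} (hs : s < k) (h : el n p s (w s) ≤ el n p (s + 1) (w s) + 1)
    (r1 : 1 ≤ r) (hr : r < w s) (hp : p s (P s) < p s r) (m : ℕ) (hm : m < P s - w s) :
    p (s + m) (P (s + m)) < p (s + m) r ∧
      (((Ioc r n).filter fun a => p (s + m) (P (s + m)) < p (s + m) a ∧
          p (s + m) a < p (s + m) r).card = 0 ∨
        ((Ioc r n).filter fun a => p (s + m) (P (s + m)) < p (s + m) a ∧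
          p (s + m) a < p (s + m) r).card + m ≤
        ((Ioc r n).filter fun a => p s (P s) < p s a ∧ p s a < p s r).card) := by
  have W := D.walk s hs
  induction m with
  | zero => simpa using hp
  | succ m ih =>
    obtain ⟨i1, i2⟩ := ih (by omega)
    obtain ⟨a1, a2, a3⟩ := D.crun hs h m (by omega)
    obtain ⟨b1, b2, b3⟩ : s + m + 1 < k ∧ w (s + m + 1) = w s ∧ P (s + m + 1) + (m + 1) = P s :=
      D.crun hs h (m + 1) hm
    rw [← add_assoc s m 1]
    set t := s + m with ht
    have hσ : el n p t (w t) ≤ el n p (t + 1) (w t) + 1 := by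
      rw [a2]; exact D.sig_le W.1 (by omega) (by omega) h
    have hl := D.top_last (a := P (t + 1)) a1 hσ (by omega) (by omega)
    have hsub : ∀ a, r < a → a ≤ n → p (t + 1) (P (t + 1)) < p (t + 1) a →
        p (t + 1) a < p (t + 1) r → p t (P t) < p t a ∧ p t a < p t r ∧
          ∃ c, a < c ∧ c ≤ n ∧ p t a < p t c ∧ p t c < p t r := by
      intro a c1 c2 c3 c4
      have e1 := D.le_P b1 c2 r1 (by omega) c4
      have e2 : a ≠ P (t + 1) := by rintro rfl; omega
      obtain ⟨c, d1, d2, d3, d4⟩ := (D.rule t (P (t + 1)) a (by omega) (by omega) (by omega)).1 c3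
      have e3 := D.le_P a1 d2 (by omega : 1 ≤ a) (by omega) d4
      obtain rfl : c = P t := by omega
      exact ⟨d4, D.inv_le (Nat.le_succ t) r1 c1 c2 c4, (D.rule t a r r1 c1 c2).1 c4⟩
    refine ⟨(D.rule t _ r r1 (by omega) (by omega)).2 ⟨P t, by omega, by omega, hl, i1⟩, ?_⟩
    by_cases h0 : ((Ioc r n).filter fun a => p t (P t) < p t a ∧ p t a < p t r).card = 0
    · left
      rw [card_eq_zero, filter_eq_empty_iff] at h0 ⊢
      intro a ha hh
      have := hsub a (mem_Ioc.1 ha).1 (mem_Ioc.1 ha).2 hh.1 hh.2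
      exact h0 ha ⟨this.1, this.2.1⟩
    · right
      obtain ⟨b, hb, hm⟩ := exists_max_image _ (p t) (card_ne_zero.1 h0)
      have : ((Ioc r n).filter fun a => p (t + 1) (P (t + 1)) < p (t + 1) a ∧
          p (t + 1) a < p (t + 1) r) ⊆
          ((Ioc r n).filter fun a => p t (P t) < p t a ∧ p t a < p t r).erase b := by
        intro a ha
        simp only [mem_filter, mem_Ioc] at ha
        obtain ⟨e1, e2, c, d1, d2, d3, d4⟩ := hsub a ha.1.1 ha.1.2 ha.2.1 ha.2.2
        refine mem_erase.2 ⟨?_, mem_filter.2 ⟨mem_Ioc.2 ha.1, e1, e2⟩⟩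
        rintro rfl
        have := hm c (mem_filter.2 ⟨mem_Ioc.2 ⟨by omega, d2⟩, by omega, d4⟩)
        omega
      have := card_le_card this
      rw [card_erase_of_mem hb] at this
      omega

lemma end_of_inv {x M t r c d : ℕ} (h : G2 n x (p 0)) (r1 : 1 ≤ r) (hc : r ≤ c) (hd : d ≤ n)
    (hM : x * n ≤ M * (d - c)) (hi : ∀ a, c < a → a ≤ d → p t a < p t r) : n ≤ p 0 r + M := by
  by_contra hn
  obtain ⟨u, u1, u2, u3, u4⟩ := h (p 0 r + 1) (p 0 r + 1 + M) (c + 1) (d + 1) (by omega) (by omega)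
    (by omega) (by rwa [Nat.add_sub_cancel_left, Nat.add_sub_add_right])
  have := D.inv_le (Nat.zero_le t) r1 (by omega : r < u) (by omega) (hi u (by omega) (by omega))
  omega

lemma card_end (M : ℕ) : ((Icc 1 n).filter fun a => n ≤ p 0 a + M).card ≤ M := by
  have : ((Icc 1 n).filter fun a => n ≤ p 0 a + M).card ≤ (Ico (n - M) n).card := by
    refine card_le_card_of_injOn (p 0) (fun a ha => ?_) fun a ha b hb e => ?_
    · simp only [coe_filter, mem_Icc, Set.mem_setOf_eq] at ha
      have := D.lt 0 a ha.1.1 ha.1.2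
      simp only [coe_Ico, Set.mem_Ico]
      omega
    · simp only [coe_filter, mem_Icc, Set.mem_setOf_eq] at ha hb
      exact D.inj ha.1.1 ha.1.2 hb.1.1 hb.1.2 e
  rw [Nat.card_Ico] at this
  omega

/-- A letter between the top letter and the walker soon loses one larger letter per round. -/
lemma rset {x M s r : ℕ} (G : G2 n x (p 0)) (hs : s < k)
    (h : el n p s (w s) ≤ el n p (s + 1) (w s) + 1) (hM : x * n ≤ M * (P s - w s))
    (hδ : M < P s - w s) (r1 : 1 ≤ r) (hr : r < w s) (hp : p s (P s) < p s r) :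
    el n p (s + M) r ≤ el n p (s + M + 1) r + 1 := by
  have W := D.walk s hs
  obtain ⟨i1, i2⟩ := D.rset_aux hs h r1 hr hp M hδ
  obtain ⟨a1, a2, a3⟩ := D.crun hs h M hδ
  have h1 : ((Ioc r n).filter fun a => p s (P s) < p s a ∧ p s a < p s r).card ≤ M := by
    refine le_trans (card_le_card fun a ha => ?_) (D.card_end M)
    simp only [mem_filter, mem_Ioc, mem_Icc] at ha ⊢
    have e1 := D.le_P hs ha.1.2 r1 (by omega) ha.2.2
    have e2 : a ≠ P s := by rintro rfl; omega
    have e3 : a ≤ w s := by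
      by_contra hc
      have := D.top_last hs h (not_le.1 hc) (by omega)
      omega
    refine ⟨⟨by omega, ha.1.2⟩, D.end_of_inv (t := s) G (by omega) e3 W.2.2.1 hM fun b b1 b2 => ?_⟩
    rcases b2.eq_or_lt with rfl | b2
    · exact ha.2.1
    · exact (D.top_last hs h b1 b2).trans ha.2.1
  have h2 : ((Ioc r n).filter fun a => p (s + M) (P (s + M)) < p (s + M) a ∧
      p (s + M) a < p (s + M) r).card = 0 := by omega
  rw [card_eq_zero, filter_eq_empty_iff] at h2
  refine D.sig_of_last r1 (by omega) i1 fun a c1 c2 c3 c4 => ?_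
  have e1 := D.le_P a1 c2 r1 (by omega) c3
  have := h2 (mem_Ioc.2 ⟨c1, c2⟩)
  have := D.tri (s + M) (a := a) (b := P (s + M)) (by omega) c2 (by omega) (by omega) c4
  omega

lemma piv_zero {t i : ℕ} (hi : i < t) (ht : t < k) : v t (P i - 1) = P i := by
  have W := D.walk i (by omega)
  have := D.P_le hi.le ht
  have e := D.fix t ht (P i) (by omega) W.2.2.1
  rw [show P i - 1 = p t (P i) by omega, D.vp t _ (by omega) W.2.2.1]

lemma piv_diag {t : ℕ} (ht : t < k) : v t (P t - 1) = w t := by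
  have W := D.walk t ht
  rw [show P t - 1 = p t (w t) by omega, D.vp t _ W.1 (by omega)]

lemma row {t : ℕ} (c : ℕ → ℤ) (ht : t < k) (hc : ∀ j, t < j → j < k → c j = 0) :
    ∑ i ∈ range k, c i * ((v t (P i - 1) : ℤ) - P i) = -(c t * ((P t - w t : ℕ) : ℤ)) := by
  have W := D.walk t ht
  rw [sum_eq_single t, D.piv_diag ht, Nat.cast_sub W.2.1.le]
  · ring
  · intro i hi hne
    rcases lt_or_gt_of_ne hne with h | h
    · rw [D.piv_zero h ht, sub_self, mul_zero]
    · rw [hc i h (mem_range.1 hi), zero_mul]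
  · intro h
    exact absurd (mem_range.2 ht) h

lemma div (L : LP n k v P) {t a : ℕ} (ht : t < k) (ha : a < n)
    (h : ∀ s, t < s → s < k → v s a = a + 1) :
    ((P t - w t : ℕ) : ℤ) ∣ (v t a : ℤ) - (a + 1) := by
  obtain ⟨c, hc⟩ := L a ha
  have key : ∀ m j, t < j → j < k → k - j ≤ m → c j = 0 := by
    intro m
    induction m with
    | zero => intro j _ _ _; omega
    | succ m ih =>
      intro j j1 j2 j3
      have e := hc j j2
      rw [D.row c j2 fun i i1 i2 => ih i (by omega) i2 (by omega), h j j1 j2] at e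
      have W := D.walk j j2
      have : P j - w j ≠ 0 := by omega
      push_cast at e
      simpa [this] using e
  rw [hc t ht, D.row c ht fun j j1 j2 => key _ j j1 j2 le_rfl]
  exact (dvd_neg).2 (Dvd.intro_left _ rfl)

end Dyn

end Pool.Agent.StackSort
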