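import Pool.Agent.P.MP_f1060b_co.QDefs

namespace Pool.Agent.StackSort

open Finset

variable {n k : ℕ} {p v : ℕ → ℕ → ℕ} {P w : ℕ → ℕ}

lemma mem_el {t u a : ℕ} : a ∈ (Ioc u n).filter (fun a => p t a < p t u) ↔
    u < a ∧ a ≤ n ∧ p t a < p t u := by
  simp [and_assoc]

namespace Dyn

variable (D : Dyn n k p v P w)
include D

lemma inj {t a b : ℕ} (a1 : 1 ≤ a) (a2 : a ≤ n) (b1 : 1 ≤ b) (b2 : b ≤ n) (h : p t a = p t b) :
    a = b := by
  rw [← D.vp t a a1 a2, h, D.vp t b b1 b2]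

lemma tri (t : ℕ) {a b : ℕ} (a1 : 1 ≤ a) (a2 : a ≤ n) (b1 : 1 ≤ b) (b2 : b ≤ n) (h : a ≠ b) :
    p t a < p t b ∨ p t b < p t a := by
  have : p t a ≠ p t b := fun e => h (D.inj a1 a2 b1 b2 e)
  omega

lemma inv_le {s t a b : ℕ} (hst : s ≤ t) (hb : 1 ≤ b) (hab : b < a) (ha : a ≤ n)
    (h : p t a < p t b) : p s a < p s b := by
  induction t, hst using Nat.le_induction with
  | base => exact h
  | succ t _ ih =>
    obtain ⟨c, -, -, h1, h2⟩ := (D.rule t a b hb hab ha).1 h
    exact ih (by omega)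

lemma ninv_le {s t a b : ℕ} (hst : s ≤ t) (hb : 1 ≤ b) (hab : b < a) (ha : a ≤ n)
    (h : p s b < p s a) : p t b < p t a := by
  rcases D.tri t (a := a) (b := b) (by omega) ha hb (by omega) (by omega) with e | e
  · have := D.inv_le hst hb hab ha e
    omega
  · exact e

lemma el_anti {s t u : ℕ} (hst : s ≤ t) (hu : 1 ≤ u) : el n p t u ≤ el n p s u :=
  card_le_card fun a ha => by
    rw [mem_el] at ha ⊢
    exact ⟨ha.1, ha.2.1, D.inv_le hst hu ha.1 ha.2.1 ha.2.2⟩

lemma el_zero {t u : ℕ} (h1 : 1 ≤ u) (h2 : u ≤ n) :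
    el n p t u = 0 ↔ ∀ a, u < a → a ≤ n → p t u < p t a := by
  rw [el, card_eq_zero, filter_eq_empty_iff]
  constructor
  · intro h a a1 a2
    have := h (mem_Ioc.2 ⟨a1, a2⟩)
    rcases D.tri t (a := a) (b := u) (by omega) a2 h1 h2 (by omega) with e | e <;> omega
  · intro h a ha
    have := h a (mem_Ioc.1 ha).1 (mem_Ioc.1 ha).2
    omega

lemma el_lt {t u : ℕ} (h1 : 1 ≤ u) (h : el n p t u ≠ 0) : el n p (t + 1) u < el n p t u := by
  obtain ⟨a, ha, hm⟩ := exists_max_image _ (p t) (card_ne_zero.1 h)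
  refine card_lt_card ⟨fun b hb => ?_, fun hs => ?_⟩
  · rw [mem_el] at hb ⊢
    exact ⟨hb.1, hb.2.1, D.inv_le (Nat.le_succ t) h1 hb.1 hb.2.1 hb.2.2⟩
  · have := mem_el.1 (hs ha)
    obtain ⟨c, c1, c2, c3, c4⟩ := (D.rule t a u h1 this.1 this.2.1).1 this.2.2
    have := hm c (mem_el.2 ⟨by omega, c2, c4⟩)
    omega

lemma el_fin {u : ℕ} (h1 : 1 ≤ u) (h2 : u ≤ n) : el n p k u = 0 :=
  (D.el_zero h1 h2).2 fun a a1 a2 => by
    have := D.fin u h1 h2
    have := D.fin a (by omega) a2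
    omega

lemma el_drop {s u : ℕ} (h1 : 1 ≤ u) (m : ℕ) : el n p (s + m) u = 0 ∨
    el n p (s + m) u + m ≤ el n p s u := by
  induction m with
  | zero => simp
  | succ m ih =>
    by_cases h : el n p (s + m) u = 0
    · left
      have := D.el_anti (Nat.le_succ (s + m)) h1
      rw [← add_assoc]
      simp only [Nat.succ_eq_add_one] at this
      omega
    · have := D.el_lt h1 h
      rw [← add_assoc]
      omega

lemma sig_le {s t u c : ℕ} (h1 : 1 ≤ u) (h2 : u ≤ n) (hst : s ≤ t)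
    (h : el n p s u ≤ el n p (s + 1) u + c) : el n p t u ≤ el n p (t + 1) u + c := by
  induction t, hst using Nat.le_induction with
  | base => exact h
  | succ t _ ih =>
    have := D.conv t u h1 h2
    rw [show t + 1 + 1 = t + 2 from rfl]
    omega

lemma el_le_add {s t u c : ℕ} (h1 : 1 ≤ u) (h2 : u ≤ n) (hst : s ≤ t)
    (h : el n p s u ≤ el n p (s + 1) u + c) : el n p s u ≤ el n p t u + c * (t - s) := by
  induction t, hst using Nat.le_induction with
  | base => simp
  | succ t ht ih =>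
    have := D.sig_le h1 h2 ht h
    rw [show t + 1 - s = t - s + 1 by omega, mul_add]
    omega

lemma el_le_mul {s u c : ℕ} (h1 : 1 ≤ u) (h2 : u ≤ n) (hs : s ≤ k)
    (h : el n p s u ≤ el n p (s + 1) u + c) : el n p s u ≤ c * (k - s) := by
  have := D.el_le_add h1 h2 hs h
  rwa [D.el_fin h1 h2, zero_add] at this

lemma pos_eq {t u : ℕ} (h1 : 1 ≤ u) (h2 : u ≤ n) :
    p t u = ((Icc 1 n).filter fun a => p t a < p t u).card := by
  conv_lhs => rw [← card_range (p t u)]
  have := D.lt t u h1 h2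
  refine card_nbij' (v t) (p t) (fun i hi => ?_) (fun a ha => ?_) (fun i hi => ?_) fun a ha => ?_
  · have hi : i < p t u := by simpa using hi
    have := D.pv t i (by omega)
    simp only [coe_filter, mem_Icc, Set.mem_setOf_eq]
    omega
  · simp only [coe_filter, mem_Icc, Set.mem_setOf_eq] at ha
    simpa using ha.2
  · have hi : i < p t u := by simpa using hi
    exact (D.pv t i (by omega)).2.2
  · simp only [coe_filter, mem_Icc, Set.mem_setOf_eq] at ha
    exact D.vp t a ha.1.1 ha.1.2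

lemma el_le_pos {t u : ℕ} (h1 : 1 ≤ u) (h2 : u ≤ n) : el n p t u ≤ p t u := by
  rw [D.pos_eq h1 h2]
  exact card_le_card (filter_subset_filter _ fun a ha => by simp at ha ⊢; omega)

lemma pos_le {t u : ℕ} (h1 : 1 ≤ u) (h2 : u ≤ n) : p t u + 1 ≤ el n p t u + u := by
  rw [D.pos_eq h1 h2]
  have : ((Icc 1 n).filter fun a => p t a < p t u) ⊆
      ((Ioc u n).filter fun a => p t a < p t u) ∪ Ico 1 u := fun a ha => by
    simp only [mem_filter, mem_Icc, mem_union, mem_Ioc, mem_Ico] at ha ⊢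
    have : a ≠ u := by rintro rfl; omega
    omega
  have h := (card_le_card this).trans (card_union_le _ _)
  rw [Nat.card_Ico] at h
  unfold el
  omega

/-- A letter in the first `t + 1` places has no larger letter on its left at time `t`. -/
lemma dead {t d : ℕ} (h1 : 1 ≤ d) (h2 : d ≤ n) (h : p 0 d ≤ t) : el n p t d = 0 := by
  have := D.el_drop (s := 0) h1 t
  have := D.el_le_pos (t := 0) h1 h2
  simp only [zero_add] at *
  omega

/-- The number of larger letters on the right is at most the number of places there. -/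
lemma el_ge {t u : ℕ} (h1 : 1 ≤ u) (h2 : u ≤ n) : p t u + 1 ≤ el n p t u + u := D.pos_le h1 h2

lemma el_ge' {t u : ℕ} (h1 : 1 ≤ u) (h2 : u ≤ n) : el n p t u + u ≤ n := by
  have : el n p t u ≤ (Ioc u n).card := card_filter_le _ _
  rw [Nat.card_Ioc] at this
  omega

lemma below {t a : ℕ} (ht : t < k) (a1 : 1 ≤ a) (a2 : a ≤ P t) : p t a < P t := by
  have W := D.walk t ht
  by_contra hc
  have := D.lt t a a1 (by omega)
  have e := D.fix t ht (p t a + 1) (by omega) (by omega)
  have := D.inj (t := t) (a := p t a + 1) (b := a) (by omega) (by omega) a1 (by omega) (by omega)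
  omega

lemma last {t a : ℕ} (ht : t < k) (a1 : 1 ≤ a) (a2 : a ≤ P t) (h : a ≠ w t) :
    p t a < p t (w t) := by
  have W := D.walk t ht
  have := D.below ht a1 a2
  rcases D.tri t (a := a) (b := w t) a1 (by omega) W.1 (by omega) h with e | e <;> omega

lemma lt_fix {t a b : ℕ} (ht : t < k) (a1 : 1 ≤ a) (a2 : a ≤ P t) (b1 : P t < b) (b2 : b ≤ n) :
    p t a < p t b := by
  have := D.below ht a1 a2
  have := D.fix t ht b b1 b2
  omega

/-- A letter left of a moving letter is moving. -/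
lemma le_P {t a b : ℕ} (ht : t < k) (a2 : a ≤ n) (b1 : 1 ≤ b) (b2 : b ≤ P t)
    (h : p t a < p t b) : a ≤ P t := by
  by_contra hc
  have := D.lt_fix ht b1 b2 (not_le.1 hc) a2
  omega

lemma el_walk {t : ℕ} (ht : t < k) : el n p t (w t) = P t - w t := by
  have W := D.walk t ht
  rw [el, ← Nat.card_Ioc]
  congr 1
  ext a
  rw [mem_el, mem_Ioc]
  constructor
  · rintro ⟨a1, a2, a3⟩
    exact ⟨a1, D.le_P ht a2 W.1 W.2.1.le a3⟩
  · rintro ⟨a1, a2⟩
    exact ⟨a1, by omega, D.last ht (by omega) a2 (by omega)⟩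

lemma P_add {s : ℕ} (m : ℕ) (h : s + m < k) : P (s + m) + m ≤ P s := by
  induction m with
  | zero => simp
  | succ m ih =>
    have := ih (by omega)
    have := D.dec (s + m) (by omega)
    show P (s + m + 1) + (m + 1) ≤ P s
    omega

lemma P_le {s t : ℕ} (hst : s ≤ t) (h : t < k) : P t + (t - s) ≤ P s := by
  have := D.P_add (s := s) (t - s) (by omega)
  rwa [show s + (t - s) = t by omega] at this

lemma reset {t : ℕ} (ht : t + 1 < k) (h : P (t + 1) < w t) : el n p (t + 1) (w t) = 0 := by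
  have W := D.walk t (by omega)
  refine (D.el_zero W.1 (by omega)).2 fun a a1 a2 => ?_
  have := D.fix _ ht a (by omega) a2
  have := D.fix _ ht (w t) h (by omega)
  omega

lemma step_w {t : ℕ} (ht : t + 1 < k) (h : w t ≤ P (t + 1)) : w t ≤ w (t + 1) := by
  have W := D.walk t (by omega)
  have W' := D.walk _ ht
  have hd := D.dec t ht
  by_contra hc
  have h1 := D.last ht W.1 h (by omega)
  obtain ⟨c, c1, c2, c3, c4⟩ := (D.rule t _ _ W'.1 (not_le.1 hc) (by omega)).1 h1
  have h2 := D.le_P (t := t) (by omega) c2 W'.1 (by omega) c4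
  have := D.last (t := t) (a := c) (by omega) (by omega) h2 (by omega)
  omega

lemma step_block {t a : ℕ} (ht : t + 1 < k) (h : w t ≤ P (t + 1)) (a1 : P (t + 1) < a)
    (a2 : a < P t) : p t (a + 1) < p t a := by
  have W := D.walk t (by omega)
  rcases D.tri t (a := a + 1) (b := a) (by omega) (by omega) (by omega) (by omega) (by omega)
    with e | e
  · exact e
  have h1 := (D.rule t a (w t) W.1 (by omega) (by omega)).2
    ⟨a + 1, by omega, by omega, e, D.last (by omega) (by omega) (by omega) (by omega)⟩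
  have := D.lt_fix ht W.1 h a1 (by omega)
  omega

lemma step_sig {t : ℕ} (ht : t + 1 < k) :
    el n p (t + 1) (w (t + 1)) ≤ el n p (t + 2) (w (t + 1)) + (P t - P (t + 1)) := by
  classical
  have W := D.walk t (by omega)
  have W' := D.walk _ ht
  have hd := D.dec t ht
  set y := w (t + 1) with hy
  set A := (Ioc y n).filter fun a => p (t + 1) a < p (t + 1) y with hA
  set B := (Ioc y n).filter fun a => p (t + 2) a < p (t + 2) y with hB
  have hrm : ∀ a ∈ A \ B, ∀ c, a < c → c ≤ n → p (t + 1) a < p (t + 1) c →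
      ¬p (t + 1) c < p (t + 1) y := by
    intro a ha c c1 c2 c3 c4
    obtain ⟨a1, a2⟩ := mem_sdiff.1 ha
    rw [hA, mem_el] at a1
    exact a2 (mem_el.2 ⟨a1.1, a1.2.1, (D.rule (t + 1) a y W'.1 a1.1 a1.2.1).2 ⟨c, c1, c2, c3, c4⟩⟩)
  have hex : ∀ a ∈ A \ B, ∃ c, a < c ∧ c ≤ n ∧ p t a < p t c ∧ p t c < p t y ∧
      ∀ d, a < d → d ≤ n → p t a < p t d → p t c ≤ p t d := by
    intro a ha
    have a1 := mem_el.1 (mem_sdiff.1 ha).1
    obtain ⟨c, c1, c2, c3, c4⟩ := (D.rule t a y W'.1 a1.1 a1.2.1).1 a1.2.2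
    obtain ⟨d, hd, hm⟩ := exists_min_image ((Ioc a n).filter fun c => p t a < p t c) (p t)
      ⟨c, by simp [c1, c2, c3]⟩
    simp only [mem_filter, mem_Ioc] at hd hm
    have := hm c ⟨⟨c1, c2⟩, c3⟩
    exact ⟨d, hd.1.1, hd.1.2, hd.2, by omega, fun e e1 e2 e3 => hm e ⟨⟨e1, e2⟩, e3⟩⟩
  choose! c c1 c2 c3 c4 c5 using hex
  have key : ∀ a ∈ A \ B, ∀ b ∈ A \ B, a < b → p t (c b) < p t (c a) := by
    intro a ha b hb hab
    have a1 := mem_el.1 (mem_sdiff.1 ha).1
    have b1 := mem_el.1 (mem_sdiff.1 hb).1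
    have h1 : p (t + 1) b < p (t + 1) a := by
      rcases D.tri (t + 1) (a := a) (b := b) (by omega) a1.2.1 (by omega) b1.2.1 hab.ne with e | e
      · exact absurd b1.2.2 (hrm a ha b hab b1.2.1 e)
      · exact e
    obtain ⟨d, d1, d2, d3, d4⟩ := (D.rule t b a (by omega) hab b1.2.1).1 h1
    have := c5 b hb d d1 d2 d3
    have := c3 a ha
    omega
  have hcard : (A \ B).card ≤ (Ioc (P (t + 1)) (P t)).card := by
    refine card_le_card_of_injOn c (fun a ha => ?_) fun a ha b hb e => ?_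
    · have ha : a ∈ A \ B := ha
      have a1 := mem_el.1 (mem_sdiff.1 ha).1
      have h1 := D.le_P (t := t) (by omega) (c2 a ha) W'.1 (by omega) (c4 a ha)
      refine mem_coe.2 (mem_Ioc.2 ⟨?_, h1⟩)
      by_contra hc
      have h2 := c1 a ha
      refine hrm a ha (c a) h2 (c2 a ha)
        (D.ninv_le (Nat.le_succ t) (by omega) h2 (c2 a ha) (c3 a ha)) ?_
      exact D.last ht (by omega) (not_lt.1 hc) (by omega)
    · rcases lt_trichotomy a b with h | h | h
      · have := key a ha b hb h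
        rw [e] at this
        omega
      · exact h
      · have := key b hb a ha h
        rw [e] at this
        omega
  rw [Nat.card_Ioc] at hcard
  have := card_le_card_sdiff_add_card (s := A) (t := B)
  unfold el
  rw [← hA, ← hB]
  omega

/-- What stands left of `b` and above it stays left of `u`, once this holds. -/
lemma inc {s t u b : ℕ} (hst : s ≤ t) (h1 : 1 ≤ u) (hub : u < b) (h : p s b < p s u) :
    ∀ c, b < c → c ≤ n → p t c < p t b → p t c < p t u := by
  induction t, hst using Nat.le_induction with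
  | base => intro c _ _ _; omega
  | succ t _ ih =>
    intro c c1 c2 c3
    obtain ⟨d, d1, d2, d3, d4⟩ := (D.rule t c b (by omega) c1 c2).1 c3
    exact (D.rule t c u h1 (by omega) c2).2 ⟨d, d1, d2, d3, ih d (by omega) d2 d4⟩

lemma sig_rcd {u : ℕ} (h1 : 1 ≤ u) : el n p 0 u ≤ el n p 1 u + rcd n (p 0) (p 0 u) u := by
  refine le_trans (card_le_card fun a ha => ?_) (card_union_le _ _)
  rw [mem_el] at ha
  rw [mem_union, mem_el, mem_filter, mem_Ioc]
  by_cases h : p 1 a < p 1 u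
  · exact Or.inl ⟨ha.1, ha.2.1, h⟩
  · refine Or.inr ⟨⟨ha.1, ha.2.1⟩, ha.2.2, fun c hc hh => h ?_⟩
    exact (D.rule 0 a u h1 ha.1 ha.2.1).2 ⟨c, (mem_Ioc.1 hc).1, (mem_Ioc.1 hc).2, hh.1, hh.2⟩

lemma sig_G1 {x : ℕ} (h : G1 n x (p 0)) (t u : ℕ) (h1 : 1 ≤ u) (h2 : u ≤ n) :
    el n p t u ≤ el n p (t + 1) u + x := by
  refine D.sig_le h1 h2 (Nat.zero_le t) ((D.sig_rcd h1).trans ?_)
  exact Nat.add_le_add_left (h _ (D.lt 0 u h1 h2).le u h2) _

end Dyn

end Pool.Agent.StackSort
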