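import Pool.Agent.P.MP_f1060b_co.Comb
import Pool.Agent.P.MP_f1060b_co.Geo2

namespace Pool.Agent.StackSort

lemma pass_range (m : ℕ) : ∀ (t : ℕ) (st : List ℕ), (∀ y ∈ st, y < t) →
    pass st (List.range' t m) = st ++ List.range' t m := by
  induction m with
  | zero => intro t st _; simp [pass]
  | succ m ih =>
    intro t st h
    rw [List.range'_succ, pass, List.takeWhile_eq_self_iff.2 (by simpa using h),
      List.dropWhile_eq_nil_iff.2 (by simpa using h), ih (t + 1) [t] (by simp)]
    simp

lemma stackSort_append_range {u : List ℕ} {t : ℕ} (m : ℕ) (h : ∀ y ∈ u, y < t) :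
    stackSort (u ++ List.range' t m) = stackSort u ++ List.range' t m := by
  rw [stackSort, pass_append, pass_range, stackSort, pass_eq, List.append_assoc]
  intro y hy
  have : y ∈ pass [] u := by rw [pass_eq]; exact List.mem_append_right _ hy
  exact h y (by simpa using (pass_perm u []).subset this)

lemma stk_last (t : ℕ) (xs : List ℕ) : ∀ st : List ℕ, (∀ y ∈ xs, y ≤ t) → (∀ y ∈ st, y ≤ t) →
    ((∃ r, st = r ++ [t]) ∨ t ∈ xs) → st.Pairwise (· ≤ ·) → ∃ r, stk st xs = r ++ [t] := by
  induction xs with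
  | nil => intro st _ _ h _; simpa [stk] using h
  | cons x xs ih =>
    intro st h1 h2 h3 h4
    rw [stk]
    have hx : x ≤ t := h1 x (by simp)
    refine ih _ (fun y hy => h1 y (by simp [hy])) ?_ ?_ (push_sorted h4 x)
    · intro y hy
      rcases List.mem_cons.1 hy with rfl | hy
      · exact hx
      · exact h2 y ((List.dropWhile_sublist _).subset hy)
    · rw [(take_eq h4 x).2]
      rcases h3 with ⟨r, rfl⟩ | h3
      · left
        exact ⟨x :: r.filter (x ≤ ·), by simp [List.filter_append, hx]⟩
      · rcases List.mem_cons.1 h3 with rfl | h3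
        · left
          rcases List.eq_nil_or_concat' (st.filter (t ≤ ·)) with h0 | ⟨r, y, h0⟩
          · exact ⟨[], by simp [h0]⟩
          · have hy : y ∈ st.filter (t ≤ ·) := by rw [h0]; simp
            have hy2 := List.mem_filter.1 hy
            have : y = t := le_antisymm (h2 y hy2.1) (by simpa using hy2.2)
            exact ⟨t :: r, by rw [h0, this]; simp⟩
        · exact Or.inr h3

lemma split_top (n : ℕ) : ∀ l : List ℕ, l.Perm (List.range' 1 n) → l ≠ List.range' 1 n →
    ∃ t a w m, t + 1 + m = n ∧ l = a ++ w :: List.range' (t + 2) m ∧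
      (a ++ [w]).Perm (List.range' 1 (t + 1)) ∧ w ≠ t + 1 := by
  induction n with
  | zero => intro l h h'; exact absurd (by simpa using h) h'
  | succ n ih =>
    intro l h h'
    rcases List.eq_nil_or_concat' l with rfl | ⟨a, w, rfl⟩
    · simpa using h.length_eq
    by_cases hw : w = n + 1
    · subst hw
      rw [List.range'_concat, one_mul, add_comm 1 n] at h h'
      obtain ⟨t, b, w, m, e1, e2, e3, e4⟩ := ih a ((List.perm_append_right_iff _).1 h)
        (fun e => h' (by rw [e]))
      refine ⟨t, b, w, m + 1, by omega, ?_, e3, e4⟩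
      rw [e2, List.range'_concat, ← e1]
      simp; omega
    · exact ⟨n, a, w, 0, rfl, by simp, h, hw⟩

lemma getD_range {a : List ℕ} {s m i : ℕ} (h1 : a.length ≤ i) (h2 : i < a.length + m) :
    (a ++ List.range' s m).getD i 0 = s + (i - a.length) := by
  rw [List.getD_append_right _ _ _ _ h1, List.getD_eq_getElem _ _ (by simp; omega)]
  simp

lemma length_filter_range (w t : ℕ) (h : 1 ≤ w) (h2 : w ≤ t + 1) :
    ((List.range' 1 t).filter (w ≤ ·)).length = t + 1 - w := by
  have : List.range' 1 t = List.range' 1 (w - 1) ++ List.range' w (t + 1 - w) := by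
    have := @List.range'_append_1 1 (w - 1) (t + 1 - w)
    rw [show 1 + (w - 1) = w by omega, show w - 1 + (t + 1 - w) = t by omega] at this
    exact this.symm
  rw [this, List.filter_append, List.filter_eq_nil_iff.2, List.filter_eq_self.2]
  · simp
  · intro a ha; simp at ha ⊢; omega
  · intro a ha; simp at ha ⊢; omega

lemma structure_lemma {n : ℕ} {l : List ℕ} (h : l.Perm (List.range' 1 n))
    (h' : l ≠ List.range' 1 n) :
    ∃ t w, t < n ∧ w ≤ t ∧ w ∈ l ∧ l.getD t 0 = w ∧ (LL w l).length + w = t + 1 ∧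
      (∀ i, t < i → i < n → l.getD i 0 = i + 1) ∧
      (∀ i, t ≤ i → i < n → (stackSort l).getD i 0 = i + 1) := by
  obtain ⟨t, a, w, m, e1, e2, e3, e4⟩ := split_top n l h h'
  have hlen : a.length = t := by simpa using e3.length_eq
  have hw : 1 ≤ w ∧ w < 1 + (t + 1) := by
    have : w ∈ List.range' 1 (t + 1) := e3.subset (by simp)
    simpa using this
  have hnd : (a ++ [w]).Nodup := e3.nodup_iff.2 List.nodup_range'
  have hwa : w ∉ a := fun hh => (List.nodup_append.1 hnd).2.2 w hh w (by simp) rfl
  have hle : ∀ y ∈ a ++ [w], y ≤ t + 1 := fun y hy => by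
    have := e3.subset hy
    simp at this; omega
  refine ⟨t, w, by omega, by omega, by simp [e2], ?_, ?_, ?_, ?_⟩
  · rw [e2, List.getD_append_right _ _ _ _ hlen.le]; simp [hlen]
  · rw [e2, LL_split _ hwa]
    have := (e3.filter (w ≤ ·)).length_eq
    rw [length_filter_range w (t + 1) hw.1 (by omega)] at this
    simp [List.filter_append] at this
    omega
  · intro i h1 h2
    rw [e2, ← List.singleton_append, ← List.append_assoc, getD_range] <;> simp [hlen] <;> omega
  · intro i h1 h2
    obtain ⟨r, hr⟩ := stk_last (t + 1) (a ++ [w]) [] hle (by simp)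
      (Or.inr (e3.symm.subset (by simp))) List.Pairwise.nil
    have e5 : stackSort l = (outp [] (a ++ [w]) ++ r) ++ List.range' (t + 1) (m + 1) := by
      rw [e2, ← List.singleton_append, ← List.append_assoc,
        stackSort_append_range _ fun y hy => Nat.lt_succ_of_le (hle y hy), stackSort, pass_eq, hr,
        List.range'_succ]
      simp
    have e6 : (outp [] (a ++ [w]) ++ r).length = t := by
      have := ((stackSort_perm l).trans h).length_eq
      rw [e5] at this
      simp only [List.length_append, List.length_range'] at this ⊢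
      omega
    rw [e5, getD_range] <;> omega

lemma getD_id {n i : ℕ} (h : i < n) : (List.range' 1 n).getD i 0 = i + 1 := by
  have := @getD_range [] 1 n i (by simp) (by simpa using h)
  simpa [add_comm] using this

lemma exists_sorted {n : ℕ} (t : ℕ) : ∀ l : List ℕ, l.Perm (List.range' 1 n) →
    (∀ i, t ≤ i → i < n → l.getD i 0 = i + 1) → ∃ j, stackSort^[j] l = List.range' 1 n := by
  induction t with
  | zero =>
    intro l h h2
    by_contra h0
    obtain ⟨t, w, e1, e2, -, e4, -⟩ := structure_lemma h (fun e => h0 ⟨0, e⟩)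
    have := h2 t (Nat.zero_le _) e1
    omega
  | succ t ih =>
    intro l h h2
    by_cases h0 : l = List.range' 1 n
    · exact ⟨0, h0⟩
    obtain ⟨t', w, e1, e2, -, e4, -, -, e7⟩ := structure_lemma h h0
    have ht : t' ≤ t := by
      by_contra hc
      have := h2 t' (by omega) e1
      omega
    obtain ⟨j, hj⟩ := ih _ ((stackSort_perm l).trans h) fun i h1 h3 => e7 i (by omega) h3
    exact ⟨j + 1, hj⟩

lemma passes_spec {n : ℕ} {l : List ℕ} (h : l.Perm (List.range' 1 n)) :
    stackSort^[passes n l] l = List.range' 1 n ∧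
      ∀ j < passes n l, stackSort^[j] l ≠ List.range' 1 n :=
  ⟨Nat.sInf_mem (exists_sorted n l h fun i h1 h2 => by omega),
    fun _ hj => Nat.notMem_of_lt_sInf hj⟩

lemma passes_eq {n k : ℕ} {l : List ℕ} (h1 : stackSort^[k] l = List.range' 1 n)
    (h2 : ∀ j < k, stackSort^[j] l ≠ List.range' 1 n) : passes n l = k := by
  apply le_antisymm (Nat.sInf_le h1)
  by_contra hc
  have : Set.Nonempty {j | stackSort^[j] l = List.range' 1 n} := ⟨k, h1⟩
  exact h2 _ (not_le.1 hc) (Nat.sInf_mem this)

lemma sum_getD {n : ℕ} {l : List ℕ} (h : l.length = n) :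
    ∑ i : Fin n, (l.getD i 0 : ℝ) = (l.sum : ℕ) := by
  subst h
  rw [← Nat.cast_sum]
  congr 1
  conv_rhs => rw [← List.ofFn_getElem (xs := l), List.sum_ofFn]
  refine Finset.sum_congr rfl fun i _ => ?_
  simp

/-- The volume in terms of a triangular choice of columns. -/
lemma vol_tri {n k : ℕ} {l : List ℕ} (h : l.Perm (List.range' 1 n)) (hk : passes n l = k)
    (t w : ℕ → ℕ) (ht : ∀ j < k, t j < n) (hw : ∀ j < k, w j ≤ t j)
    (hv : ∀ j < k, (stackSort^[j] l).getD (t j) 0 = w j)
    (htri : ∀ i j, i < j → j < k → (stackSort^[j] l).getD (t i) 0 = t i + 1) :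
    vol n l ≤ ∏ j ∈ Finset.range k, ((t j + 1 - w j : ℕ) : ℝ) / (k - j : ℕ) ∧
      ∀ i₀ < n, (∀ i < n, i = i₀ ∨ (∃ j < k, i = t j) ∨
          ∀ j < k, (stackSort^[j] l).getD i 0 = i + 1) →
        vol n l = ∏ j ∈ Finset.range k, ((t j + 1 - w j : ℕ) : ℝ) / (k - j : ℕ) := by
  set p := pt n (List.range' 1 n) with hp
  let d : Fin k → EuclideanSpace ℝ (Fin n) := fun j => pt n (stackSort^[j] l) - p
  have hd : ∀ (j : Fin k) (i : Fin n), d j i = ((stackSort^[j] l).getD i 0 : ℝ) - (i + 1 : ℕ) := by
    intro j i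
    simp only [d, hp, pt, PiLp.sub_apply, getD_id i.2]
  have hP : polytope n l = convexHull ℝ (insert p (Set.range fun j => p + d j)) := by
    rw [polytope, hk]
    congr 1
    ext x
    simp only [Set.mem_setOf_eq, Set.mem_insert_iff, Set.mem_range, d, add_sub_cancel]
    have hs := (passes_spec h).1
    rw [hk] at hs
    constructor
    · rintro ⟨j, hj, rfl⟩
      rcases hj.eq_or_lt with rfl | hj
      · left; rw [hs]
      · right; exact ⟨⟨j, hj⟩, rfl⟩
    · rintro (rfl | ⟨j, rfl⟩)
      · exact ⟨k, le_rfl, by rw [hs]⟩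
      · exact ⟨j, j.2.le, rfl⟩
  let t' : Fin k → Fin n := fun j => ⟨t j, ht j j.2⟩
  have hdiag : ∀ j : Fin k, |d j (t' j)| = ((t j + 1 - w j : ℕ) : ℝ) := by
    intro j
    have := hw j j.2
    rw [hd, Nat.cast_sub (by omega), abs_sub_comm]
    simp only [t', hv j j.2]
    exact abs_of_nonneg (sub_nonneg.2 (by exact_mod_cast (by omega : w j ≤ t j + 1)))
  have key := relVol_simplex p d (fun j i => ⟨((stackSort^[j] l).getD i 0 : ℕ) - (i + 1 : ℕ), by
      rw [hd]; push_cast; rfl⟩) t'
    (fun i j hij => by rw [hd]; simp only [t', htri i j hij j.2, sub_self])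
    (fun j => by
      rw [← abs_pos, hdiag]
      have := hw j j.2
      exact Nat.cast_pos.2 (by omega))
  have hprod : (∏ j, |d j (t' j)|) / k.factorial =
      ∏ j ∈ Finset.range k, ((t j + 1 - w j : ℕ) : ℝ) / (k - j : ℕ) := by
    simp only [hdiag]
    rw [Finset.prod_div_distrib, Fin.prod_univ_eq_prod_range (fun j => ((t j + 1 - w j : ℕ) : ℝ)) k,
      ← Nat.descFactorial_self, Nat.descFactorial_eq_prod_range, Nat.cast_prod]
  rw [hprod, ← hP] at key
  refine ⟨key.1, fun i₀ hi₀ hcov => key.2 ⟨i₀, hi₀⟩ (fun j => ?_) fun i => ?_⟩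
  · simp only [d, hp, pt, PiLp.sub_apply, Finset.sum_sub_distrib]
    have e := (iter_perm l j).trans h
    rw [sum_getD (by simpa using e.length_eq), sum_getD (by simp), e.sum_eq, sub_self]
  · rcases hcov i i.2 with e | ⟨j, hj, e⟩ | e
    · exact Or.inl (Fin.ext e)
    · exact Or.inr (Or.inl ⟨⟨j, hj⟩, Fin.ext e⟩)
    · exact Or.inr (Or.inr fun j => by rw [hd, e j j.2, sub_self])

/-- The volume is at most the product of the inversion numbers of the walkers over `k!`. -/
lemma vol_le_LL {n : ℕ} {l : List ℕ} (h : l.Perm (List.range' 1 n)) :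
    ∃ w : ℕ → ℕ, (∀ j < passes n l, w j ∈ l) ∧ vol n l ≤ ∏ j ∈ Finset.range (passes n l),
      ((LL (w j) (stackSort^[j] l)).length : ℝ) / (passes n l - j : ℕ) := by
  set k := passes n l with hk
  have hex : ∀ j, j < k → _ := fun j hj =>
    structure_lemma ((iter_perm l j).trans h) ((passes_spec h).2 j hj)
  choose! t w e1 e2 e3 e4 e5 e6 e7 using hex
  have hstep : ∀ j, j + 1 < k → t (j + 1) < t j := by
    intro j hj
    by_contra hc
    have a1 := e7 j (by omega) (t (j + 1)) (by omega) (e1 _ hj)
    rw [← Function.iterate_succ_apply' stackSort, e4 _ hj] at a1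
    have := e2 _ hj
    omega
  have hanti : ∀ i j, i < j → j < k → t j < t i := by
    intro i j hij
    induction j, hij using Nat.le_induction with
    | base => exact hstep i
    | succ j hj ih => intro hh; exact (hstep j hh).trans (ih (by omega))
  refine ⟨w, fun j hj => (iter_perm l j).subset (e3 j hj), ?_⟩
  refine (vol_tri h hk.symm t w e1 e2 e4 fun i j hij hj =>
    e6 j hj _ (hanti i j hij hj) (e1 i (by omega))).1.trans (le_of_eq ?_)
  refine Finset.prod_congr rfl fun j hj => ?_
  have := e5 j (Finset.mem_range.1 hj)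
  rw [show t j + 1 - w j = (LL (w j) (stackSort^[j] l)).length by omega]

end Pool.Agent.StackSort
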