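import Pool.Agent.P.MP_f1060b_co.Family
import Pool.Agent.P.MP_f1060b_co.Growth

open Pool.Agent.StackSort

theorem Pool.Agent.StackSort.variant_lower (n m : ℕ) (hm : 1 ≤ m) (hn : 3 * m ≤ n) :
    ∃ l : List ℕ, l.Perm (List.range' 1 n) ∧
      vol n l = ∏ i ∈ Finset.range m, ((m : ℝ) + 1 + 2 * i) / (m + i) ∧
      (3 * √3 / 4) ^ m ≤ vol n l := by
  obtain ⟨l, h1, -, h3⟩ := family (q := m) (f := m) (n := n) hm le_rfl (by omega)
  refine ⟨l, h1, h3, ?_⟩
  obtain ⟨m, rfl⟩ : ∃ m', m = m' + 1 := ⟨m - 1, by omega⟩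
  rw [h3]
  refine le_trans ?_ (a_lower m)
  exact le_mul_of_one_le_right (by positivity) (le_add_of_nonneg_right (by positivity))
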